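import Mathlib
import Pool.Agent.H906R3.YM.Mtx

/-!
# Matrix inequalities, Cayley transform
-/

open MeasureTheory Matrix
open scoped Matrix.Norms.Frobenius ContDiff

namespace Pool.Agent.Y13.YM

open Pool.Agent.H906R3.YM (Mat)

set_option linter.unusedSectionVars false

noncomputable section

variable {k : ℕ}

lemma nsq (A : Mat k) : ‖A‖ ^ 2 = (trace (Aᴴ * A)).re := by
  rw [frobenius_norm_def, ← Real.rpow_natCast, ← Real.rpow_mul (by positivity)]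
  norm_num
  rw [trace, Complex.re_sum, Finset.sum_comm]
  refine Finset.sum_congr rfl fun j _ => ?_
  rw [diag_apply, mul_apply, Complex.re_sum]
  refine Finset.sum_congr rfl fun i _ => ?_
  rw [conjTranspose_apply, Complex.sq_norm, Complex.normSq_apply]
  simp [Complex.mul_re]

/-- unitary matrices -/
def Un (V : Mat k) : Prop := V * Vᴴ = 1

lemma Un.r {V : Mat k} (h : Un V) : V * Vᴴ = 1 := h

lemma Un.l {V : Mat k} (h : Un V) : Vᴴ * V = 1 := mul_eq_one_comm.1 h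

lemma Un.one : Un (1 : Mat k) := by unfold Un; simp

lemma Un.ct {V : Mat k} (h : Un V) : Un Vᴴ := by
  unfold Un; rw [conjTranspose_conjTranspose]; exact h.l

lemma Un.mul {V W : Mat k} (h : Un V) (h' : Un W) : Un (V * W) := by
  unfold Un
  rw [conjTranspose_mul, Matrix.mul_assoc, ← Matrix.mul_assoc W, h'.r, Matrix.one_mul, h.r]

lemma norm_ul {V A : Mat k} (hV : Un V) : ‖V * A‖ = ‖A‖ := by
  have h1 : ‖V * A‖ ^ 2 = ‖A‖ ^ 2 := by
    rw [nsq, nsq, conjTranspose_mul, Matrix.mul_assoc, ← Matrix.mul_assoc Vᴴ, hV.l, Matrix.one_mul]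
  exact (sq_eq_sq₀ (norm_nonneg _) (norm_nonneg _)).1 h1

lemma norm_ct (A : Mat k) : ‖Aᴴ‖ = ‖A‖ := frobenius_norm_conjTranspose A

lemma norm_ur {V A : Mat k} (hV : Un V) : ‖A * V‖ = ‖A‖ := by
  rw [← norm_ct, conjTranspose_mul, norm_ul hV.ct, norm_ct]

lemma norm_ad {V A : Mat k} (hV : Un V) : ‖V * A * Vᴴ‖ = ‖A‖ := by
  rw [norm_ur hV.ct, norm_ul hV]

lemma norm_un {V : Mat k} (hV : Un V) : ‖V‖ = Real.sqrt k := by
  have h1 : ‖V‖ ^ 2 = k := by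
    rw [nsq, hV.l]; simp
  rw [← h1, Real.sqrt_sq (norm_nonneg _)]

lemma norm_un_sub {V W : Mat k} (hV : Un V) (hW : Un W) : ‖V - W‖ ≤ 2 * Real.sqrt k := by
  refine (norm_sub_le _ _).trans ?_
  rw [norm_un hV, norm_un hW]; linarith

/-- `Re tr (A* K A) = 0` for skew `K` -/
lemma re_tr_skew {K : Mat k} (hK : Kᴴ = -K) (A : Mat k) : (trace (Aᴴ * (K * A))).re = 0 := by
  have h1 : trace ((Aᴴ * (K * A))ᴴ) = star (trace (Aᴴ * (K * A))) := trace_conjTranspose _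
  have h2 : (Aᴴ * (K * A))ᴴ = -(Aᴴ * (K * A)) := by
    rw [conjTranspose_mul, conjTranspose_mul, conjTranspose_conjTranspose, hK]
    simp only [Matrix.mul_neg, Matrix.neg_mul, Matrix.mul_assoc]
  rw [h2, trace_neg] at h1
  have h3 := congrArg Complex.re h1
  simp only [Complex.neg_re, Complex.star_def, Complex.conj_re] at h3
  linarith

lemma norm_one_sub {K : Mat k} (hK : Kᴴ = -K) (A : Mat k) : ‖A‖ ≤ ‖(1 - K) * A‖ := by
  have h1 : ‖(1 - K) * A‖ ^ 2 = ‖A‖ ^ 2 + ‖K * A‖ ^ 2 := by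
    rw [nsq, nsq, nsq]
    have e1 : ((1 - K) * A)ᴴ * ((1 - K) * A) = Aᴴ * A + (K * A)ᴴ * (K * A) - Aᴴ * (K * A) -
        (Aᴴ * (K * A))ᴴ := by
      rw [conjTranspose_mul Aᴴ, conjTranspose_conjTranspose, Matrix.sub_mul, Matrix.one_mul,
        conjTranspose_sub, Matrix.sub_mul, Matrix.mul_sub, Matrix.mul_sub]
      abel
    rw [e1, trace_sub, trace_sub, trace_add, Complex.sub_re, Complex.sub_re, Complex.add_re,
      trace_conjTranspose, re_tr_skew hK]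
    simp [re_tr_skew hK]
  have h2 : ‖A‖ ^ 2 ≤ ‖(1 - K) * A‖ ^ 2 := by rw [h1]; nlinarith [sq_nonneg ‖K * A‖]
  exact le_of_sq_le_sq h2 (norm_nonneg _)
where
  le_of_sq_le_sq {a b : ℝ} (h : a ^ 2 ≤ b ^ 2) (hb : 0 ≤ b) : a ≤ b := abs_le_of_sq_le_sq' h hb |>.2

lemma isUnit_one_sub {K : Mat k} (hK : Kᴴ = -K) : IsUnit (1 - K) := by
  have h1 : Function.Injective (LinearMap.mulLeft ℝ (1 - K)) := by
    rw [injective_iff_map_eq_zero]
    intro A hA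
    have h2 := norm_one_sub hK A
    rw [LinearMap.mulLeft_apply] at hA
    rw [hA, norm_zero] at h2
    exact norm_le_zero_iff.1 h2
  have h3 := (LinearMap.injective_iff_surjective (f := LinearMap.mulLeft ℝ (1 - K))).1 h1 1
  obtain ⟨B, hB⟩ := h3
  rw [LinearMap.mulLeft_apply] at hB
  exact IsUnit.of_mul_eq_one B hB

/-- resolvent -/
def Rs (K : Mat k) : Mat k := Ring.inverse (1 - (1 / 2 : ℝ) • K)

/-- Cayley transform -/
def Cay (K : Mat k) : Mat k := (2 : ℝ) • Rs K - 1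

lemma skew_half {K : Mat k} (hK : Kᴴ = -K) : ((1 / 2 : ℝ) • K)ᴴ = -((1 / 2 : ℝ) • K) := by
  rw [conjTranspose_smul, hK]; simp

lemma Rs_l {K : Mat k} (hK : Kᴴ = -K) : Rs K * (1 - (1 / 2 : ℝ) • K) = 1 :=
  Ring.inverse_mul_cancel _ (isUnit_one_sub (skew_half hK))

lemma Rs_r {K : Mat k} (hK : Kᴴ = -K) : (1 - (1 / 2 : ℝ) • K) * Rs K = 1 :=
  Ring.mul_inverse_cancel _ (isUnit_one_sub (skew_half hK))

lemma norm_Rs_mul {K : Mat k} (hK : Kᴴ = -K) (A : Mat k) : ‖Rs K * A‖ ≤ ‖A‖ := by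
  have h1 := norm_one_sub (skew_half hK) (Rs K * A)
  rwa [← Matrix.mul_assoc, Rs_r hK, Matrix.one_mul] at h1

lemma Rs_ct {K : Mat k} (hK : Kᴴ = -K) : (Rs K)ᴴ = Rs (-K) := by
  have h1 : (Rs K)ᴴ * (1 - (1 / 2 : ℝ) • (-K)) = 1 := by
    have h2 := congrArg conjTranspose (Rs_r hK)
    rw [conjTranspose_mul, conjTranspose_one, conjTranspose_sub, conjTranspose_one,
      skew_half hK] at h2
    rw [smul_neg]
    exact h2
  have hK' : (-K)ᴴ = -(-K) := by rw [conjTranspose_neg, hK]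
  calc (Rs K)ᴴ = (Rs K)ᴴ * ((1 - (1 / 2 : ℝ) • (-K)) * Rs (-K)) := by
        rw [Rs_r hK', Matrix.mul_one]
    _ = Rs (-K) := by rw [← Matrix.mul_assoc, h1, Matrix.one_mul]

lemma norm_mul_Rs {K : Mat k} (hK : Kᴴ = -K) (A : Mat k) : ‖A * Rs K‖ ≤ ‖A‖ := by
  have hK' : (-K)ᴴ = -(-K) := by rw [conjTranspose_neg, hK]
  rw [← norm_ct, conjTranspose_mul, Rs_ct hK]
  refine (norm_Rs_mul hK' _).trans ?_
  rw [norm_ct]

lemma norm_half (K : Mat k) : ‖(1 / 2 : ℝ) • K‖ = ‖K‖ / 2 := by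
  rw [norm_smul]; norm_num; ring

lemma Rs_sub_one {K : Mat k} (hK : Kᴴ = -K) : Rs K - 1 = Rs K * ((1 / 2 : ℝ) • K) := by
  have h := Rs_l hK
  rw [Matrix.mul_sub, Matrix.mul_one] at h
  rw [← h]; abel

lemma norm_Rs_sub {K : Mat k} (hK : Kᴴ = -K) : ‖Rs K - 1‖ ≤ ‖K‖ / 2 := by
  rw [Rs_sub_one hK, ← norm_half]
  exact norm_Rs_mul hK _

lemma norm_Cay_sub {K : Mat k} (hK : Kᴴ = -K) : ‖Cay K - 1‖ ≤ ‖K‖ := by
  have h1 : Cay K - 1 = (2 : ℝ) • (Rs K - 1) := by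
    unfold Cay
    rw [smul_sub, sub_sub, two_smul ℝ (1 : Mat k)]
  rw [h1, norm_smul]
  have := norm_Rs_sub hK
  norm_num
  linarith

lemma Cay_eq {K : Mat k} (hK : Kᴴ = -K) : Cay K = (1 + (1 / 2 : ℝ) • K) * Rs K := by
  have h := Rs_r hK
  rw [Matrix.sub_mul, Matrix.one_mul] at h
  have h2 : (1 + (1 / 2 : ℝ) • K) * Rs K = Rs K + ((1 / 2 : ℝ) • K) * Rs K := by
    rw [Matrix.add_mul, Matrix.one_mul]
  rw [h2]
  unfold Cay
  rw [two_smul, ← h]; abel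

lemma Cay_un {K : Mat k} (hK : Kᴴ = -K) : Un (Cay K) := by
  have hK' : (-K)ᴴ = -(-K) := by rw [conjTranspose_neg, hK]
  unfold Un
  have h1 : (Cay K)ᴴ = (1 - (1 / 2 : ℝ) • K) * Rs (-K) := by
    have h2 : (Cay K)ᴴ = Cay (-K) := by
      unfold Cay
      rw [conjTranspose_sub, conjTranspose_one, conjTranspose_smul, Rs_ct hK]
      simp
    rw [h2, Cay_eq hK', smul_neg, sub_eq_add_neg]
  rw [h1, Cay_eq hK]
  have h3 : Rs K * ((1 - (1 / 2 : ℝ) • K) * Rs (-K)) = Rs (-K) := by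
    rw [← Matrix.mul_assoc, Rs_l hK, Matrix.one_mul]
  rw [Matrix.mul_assoc, h3]
  have h4 := Rs_r hK'
  rwa [smul_neg, sub_neg_eq_add] at h4

lemma norm_Cay_le {K : Mat k} (hK : Kᴴ = -K) (A : Mat k) : ‖A * Cay K‖ = ‖A‖ := norm_ur (Cay_un hK)

/-- derivative of the resolvent -/
lemma hasDerivAt_Rs {K : ℝ → Mat k} {K' : Mat k} {t : ℝ} (h : HasDerivAt K K' t)
    (hK : (K t)ᴴ = -(K t)) : HasDerivAt (fun s => Rs (K s)) (Rs (K t) * ((1 / 2 : ℝ) • K') * Rs (K t)) t := by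
  have hu := isUnit_one_sub (skew_half hK)
  obtain ⟨u, hu'⟩ := hu
  have h1 : HasDerivAt (fun s => 1 - (1 / 2 : ℝ) • K s) (-((1 / 2 : ℝ) • K')) t :=
    (h.const_smul (1 / 2 : ℝ)).const_sub 1
  have h2 := hasFDerivAt_ringInverse (𝕜 := ℝ) u
  rw [hu'] at h2
  have h3 := h2.comp_hasDerivAt t h1
  have h4 : (↑u⁻¹ : Mat k) = Rs (K t) := by
    unfold Rs
    rw [← hu', Ring.inverse_unit]
  rw [h4] at h3
  refine h3.congr_deriv ?_
  simp [ContinuousLinearMap.mulLeftRight_apply]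

lemma hasDerivAt_Cay {K : ℝ → Mat k} {K' : Mat k} {t : ℝ} (h : HasDerivAt K K' t)
    (hK : (K t)ᴴ = -(K t)) : HasDerivAt (fun s => Cay (K s)) (Rs (K t) * K' * Rs (K t)) t := by
  have h1 := ((hasDerivAt_Rs h hK).const_smul (2 : ℝ)).sub_const 1
  refine h1.congr_deriv ?_
  rw [mul_smul_comm, smul_mul_assoc, smul_smul]
  norm_num

lemma contDiff_Rs {V : Type*} [NormedAddCommGroup V] [NormedSpace ℝ V] {K : V → Mat k}
    (h : ContDiff ℝ ∞ K) (hK : ∀ v, (K v)ᴴ = -(K v)) : ContDiff ℝ ∞ fun v => Rs (K v) := by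
  rw [contDiff_iff_contDiffAt]
  intro v
  obtain ⟨u, hu⟩ := isUnit_one_sub (skew_half (hK v))
  have h1 : ContDiffAt ℝ ∞ Ring.inverse (1 - (1 / 2 : ℝ) • K v) := by
    rw [← hu]; exact contDiffAt_ringInverse ℝ u
  exact ContDiffAt.comp v h1 ((contDiff_const.sub (h.const_smul (1 / 2 : ℝ))).contDiffAt)

lemma contDiff_Cay {V : Type*} [NormedAddCommGroup V] [NormedSpace ℝ V] {K : V → Mat k}
    (h : ContDiff ℝ ∞ K) (hK : ∀ v, (K v)ᴴ = -(K v)) : ContDiff ℝ ∞ fun v => Cay (K v) :=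
  ((contDiff_Rs h hK).const_smul (2 : ℝ)).sub contDiff_const

/-- covariance of the Cayley transform -/
lemma Cay_conj {K V : Mat k} (hK : Kᴴ = -K) (hV : Un V) : Cay (V * K * Vᴴ) = V * Cay K * Vᴴ := by
  have hK2 : (V * K * Vᴴ)ᴴ = -(V * K * Vᴴ) := by
    rw [conjTranspose_mul, conjTranspose_mul, conjTranspose_conjTranspose, hK]
    simp only [Matrix.mul_neg, Matrix.neg_mul, Matrix.mul_assoc]
  have h1 : Rs (V * K * Vᴴ) = V * Rs K * Vᴴ := by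
    have h2 : (1 - (1 / 2 : ℝ) • (V * K * Vᴴ)) * (V * Rs K * Vᴴ) = 1 := by
      have e1 : (1 : Mat k) - (1 / 2 : ℝ) • (V * K * Vᴴ) = V * (1 - (1 / 2 : ℝ) • K) * Vᴴ := by
        rw [Matrix.mul_sub, Matrix.sub_mul, Matrix.mul_one, hV.r, Matrix.mul_smul,
          Matrix.smul_mul]
      rw [e1]
      calc V * (1 - (1 / 2 : ℝ) • K) * Vᴴ * (V * Rs K * Vᴴ)
          = V * (1 - (1 / 2 : ℝ) • K) * (Vᴴ * V) * Rs K * Vᴴ := by
            simp only [Matrix.mul_assoc]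
        _ = V * ((1 - (1 / 2 : ℝ) • K) * Rs K) * Vᴴ := by
            rw [hV.l, Matrix.mul_one]; simp only [Matrix.mul_assoc]
        _ = 1 := by rw [Rs_r hK, Matrix.mul_one, hV.r]
    calc Rs (V * K * Vᴴ) = Rs (V * K * Vᴴ) * ((1 - (1 / 2 : ℝ) • (V * K * Vᴴ)) *
          (V * Rs K * Vᴴ)) := by rw [h2, Matrix.mul_one]
      _ = V * Rs K * Vᴴ := by rw [← Matrix.mul_assoc, Rs_l hK2, Matrix.one_mul]
  unfold Cay
  rw [h1, Matrix.mul_sub, Matrix.sub_mul, Matrix.mul_one, hV.r, Matrix.mul_smul, Matrix.smul_mul]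

end

end Pool.Agent.Y13.YM
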