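import Mathlib
import Pool.Agent.Y13.YM.Cay

/-!
# The derivative of a fat slice
-/

open MeasureTheory Matrix
open scoped Matrix.Norms.Frobenius ContDiff

namespace Pool.Agent.Y13.YM

open Pool.Agent.H906R3.YM (Mat ctL ctL_apply)

set_option linter.unusedSectionVars false

noncomputable section

variable {k : ℕ}

lemma hasDerivAt_ct {f : ℝ → Mat k} {f' : Mat k} {t : ℝ} (h : HasDerivAt f f' t) :
    HasDerivAt (fun s => (f s)ᴴ) (f'ᴴ) t :=
  (ctL k).hasFDerivAt.comp_hasDerivAt t h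

/-- derivative of a curve of unitary matrices: `f' f*` is skew -/
lemma un_deriv {f : ℝ → Mat k} {f' : Mat k} {t : ℝ} (h : HasDerivAt f f' t) (hf : ∀ s, Un (f s)) :
    f' * (f t)ᴴ + f t * f'ᴴ = 0 := by
  have h1 := h.mul (hasDerivAt_ct h)
  have h2 : f * (fun s => (f s)ᴴ) = fun _ => (1 : Mat k) := by
    funext s; exact hf s
  rw [h2] at h1
  exact h1.unique (hasDerivAt_const t (1 : Mat k))

lemma skew_log {f : ℝ → Mat k} {f' : Mat k} {t : ℝ} (h : HasDerivAt f f' t) (hf : ∀ s, Un (f s)) :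
    (f' * (f t)ᴴ)ᴴ = -(f' * (f t)ᴴ) := by
  rw [conjTranspose_mul, conjTranspose_conjTranspose]
  exact eq_neg_of_add_eq_zero_right (un_deriv h hf)

lemma ct_deriv {f : ℝ → Mat k} {f' : Mat k} {t : ℝ} (h : HasDerivAt f f' t) (hf : ∀ s, Un (f s)) :
    f'ᴴ = -((f t)ᴴ * f' * (f t)ᴴ) := by
  have h1 := un_deriv h hf
  have h2 := congrArg (fun A => (f t)ᴴ * A) h1
  simp only [Matrix.mul_add, Matrix.mul_zero] at h2
  rw [← Matrix.mul_assoc (f t)ᴴ (f t), (hf t).l, Matrix.one_mul, ← Matrix.mul_assoc] at h2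
  exact eq_neg_of_add_eq_zero_right h2

/-- the fat slice: `V` the thin link, `Lz` the transporters, `w` the weights -/
def slice {Z : Type*} [Fintype Z] (w : Z → ℝ) (V : Mat k) (Lz : Z → Mat k) : Mat k :=
  V * Cay ((1 / 2 : ℝ) • ((∑ z, w z • (Vᴴ * Lz z)) - (∑ z, w z • (Vᴴ * Lz z))ᴴ))

lemma skew_part (A : Mat k) : ((1 / 2 : ℝ) • (A - Aᴴ))ᴴ = -((1 / 2 : ℝ) • (A - Aᴴ)) := by
  rw [conjTranspose_smul, conjTranspose_sub, conjTranspose_conjTranspose, ← smul_neg, neg_sub]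
  simp

lemma slice_un {Z : Type*} [Fintype Z] (w : Z → ℝ) {V : Mat k} (hV : Un V) (Lz : Z → Mat k) :
    Un (slice w V Lz) := hV.mul (Cay_un (skew_part _))

/-- mean deviation -/
def dev {Z : Type*} [Fintype Z] (w : Z → ℝ) (V : Mat k) (Lz : Z → Mat k) : ℝ :=
  ∑ z, w z * ‖Lz z - V‖

lemma norm_skew_part (A : Mat k) : ‖(1 / 2 : ℝ) • (A - Aᴴ)‖ ≤ ‖A - 1‖ := by
  rw [norm_half]
  have h1 : A - Aᴴ = (A - 1) - (A - 1)ᴴ := by
    rw [conjTranspose_sub, conjTranspose_one]; abel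
  have h2 : ‖A - Aᴴ‖ ≤ ‖A - 1‖ + ‖A - 1‖ := by
    rw [h1]
    refine (norm_sub_le _ _).trans ?_
    rw [norm_ct]
  linarith

section

variable {Z : Type*} [Fintype Z] {w : Z → ℝ} (hw : ∀ z, 0 ≤ w z) (hw1 : ∑ z, w z = 1)

include hw

lemma norm_wsum (f : Z → Mat k) : ‖∑ z, w z • f z‖ ≤ ∑ z, w z * ‖f z‖ := by
  refine (norm_sum_le _ _).trans (Finset.sum_le_sum fun z _ => ?_)
  rw [norm_smul, Real.norm_of_nonneg (hw z)]

lemma dev_nonneg (V : Mat k) (Lz : Z → Mat k) : 0 ≤ dev w V Lz :=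
  Finset.sum_nonneg fun z _ => mul_nonneg (hw z) (norm_nonneg _)

include hw1

lemma norm_mean_sub {V : Mat k} (hV : Un V) (Lz : Z → Mat k) :
    ‖(∑ z, w z • (Vᴴ * Lz z)) - 1‖ ≤ dev w V Lz := by
  have h1 : (∑ z, w z • (Vᴴ * Lz z)) - 1 = ∑ z, w z • (Vᴴ * (Lz z - V)) := by
    simp only [Matrix.mul_sub, hV.l, smul_sub, Finset.sum_sub_distrib]
    rw [← Finset.sum_smul, hw1, one_smul]
  rw [h1]
  refine (norm_wsum hw _).trans (le_of_eq ?_)
  unfold dev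
  refine Finset.sum_congr rfl fun z _ => ?_
  rw [norm_ul hV.ct]

lemma norm_slice_sub {V : Mat k} (hV : Un V) (Lz : Z → Mat k) :
    ‖slice w V Lz - V‖ ≤ dev w V Lz := by
  unfold slice
  have h1 : ∀ C : Mat k, V * C - V = V * (C - 1) := fun C => by
    rw [Matrix.mul_sub, Matrix.mul_one]
  rw [h1, norm_ul hV]
  exact (norm_Cay_sub (skew_part _)).trans ((norm_skew_part _).trans (norm_mean_sub hw hw1 hV Lz))

/-- The derivative of a fat slice is close to the mean of the derivatives of the transporters. -/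
theorem slice_deriv {V : ℝ → Mat k} {V' : Mat k} {Lz : Z → ℝ → Mat k} {Lz' : Z → Mat k} {t : ℝ}
    (hV : HasDerivAt V V' t) (hVu : ∀ s, Un (V s))
    (hL : ∀ z, HasDerivAt (Lz z) (Lz' z) t) (hLu : ∀ z s, Un (Lz z s)) :
    ∃ T' : Mat k, HasDerivAt (fun s => slice w (V s) (fun z => Lz z s)) T' t ∧
      ‖T' * (slice w (V t) (fun z => Lz z t))ᴴ - ∑ z, w z • (Lz' z * (Lz z t)ᴴ)‖ ≤
        ∑ z, w z * (‖Lz' z‖ * (‖Lz z t - V t‖ + 2 * dev w (V t) fun z => Lz z t)) +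
          3 * ‖V'‖ * dev w (V t) fun z => Lz z t := by
  set δ := dev w (V t) fun z => Lz z t with hδ
  have hδ0 : 0 ≤ δ := dev_nonneg hw _ _
  set A : ℝ → Mat k := fun s => ∑ z, w z • ((V s)ᴴ * Lz z s) with hA
  set A' : Mat k := ∑ z, w z • (V'ᴴ * Lz z t + (V t)ᴴ * Lz' z) with hA'
  have h1 : HasDerivAt A A' t := by
    rw [hA, hA']
    refine HasDerivAt.fun_sum fun z _ => ?_
    exact ((hasDerivAt_ct hV).mul (hL z)).const_smul (w z)
  set K : ℝ → Mat k := fun s => (1 / 2 : ℝ) • (A s - (A s)ᴴ) with hK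
  set K' : Mat k := (1 / 2 : ℝ) • (A' - A'ᴴ) with hK'
  have h2 : HasDerivAt K K' t := (h1.sub (hasDerivAt_ct h1)).const_smul (1 / 2 : ℝ)
  have hKs : ∀ s, (K s)ᴴ = -(K s) := fun s => skew_part _
  have h3 := hasDerivAt_Cay h2 (hKs t)
  have h4 := hV.mul h3
  set R := Rs (K t) with hR
  set C := Cay (K t) with hC
  have hCu : Un C := Cay_un (hKs t)
  refine ⟨V' * C + V t * (R * K' * R), h4, ?_⟩
  have hslice : slice w (V t) (fun z => Lz z t) = V t * C := rfl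
  rw [hslice]
  -- abbreviations
  set θ : Mat k := (V t)ᴴ * V' with hθ
  set μ : Z → Mat k := fun z => Lz' z * (Lz z t)ᴴ with hμ
  set lam : Z → Mat k := fun z => (V t)ᴴ * μ z * V t with hlam
  set Q : Z → Mat k := fun z => (V t)ᴴ * Lz z t with hQ
  have hVt := hVu t
  have hQu : ∀ z, Un (Q z) := fun z => hVt.ct.mul (hLu z t)
  have hQ1 : ∀ z, ‖Q z - 1‖ = ‖Lz z t - V t‖ := fun z => by
    have : Q z - 1 = (V t)ᴴ * (Lz z t - V t) := by
      rw [Matrix.mul_sub, hVt.l]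
    rw [this, norm_ul hVt.ct]
  have hθs : θᴴ = -θ := by
    rw [hθ, conjTranspose_mul, conjTranspose_conjTranspose, ct_deriv hV hVu]
    rw [Matrix.neg_mul, Matrix.mul_assoc ((V t)ᴴ * V'), hVt.l, Matrix.mul_one]
  have hμs : ∀ z, (μ z)ᴴ = -(μ z) := fun z => skew_log (hL z) (hLu z)
  have hlams : ∀ z, (lam z)ᴴ = -(lam z) := fun z => by
    rw [hlam]
    simp only [conjTranspose_mul, conjTranspose_conjTranspose, hμs, Matrix.mul_neg,
      Matrix.neg_mul, Matrix.mul_assoc]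
  have hlamn : ∀ z, ‖lam z‖ = ‖Lz' z‖ := fun z => by
    rw [hlam]
    dsimp only
    rw [norm_ur hVt, norm_ul hVt.ct, hμ]
    dsimp only
    rw [norm_ur (hLu z t).ct]
  have hθn : ‖θ‖ = ‖V'‖ := by rw [hθ, norm_ul hVt.ct]
  -- derivative of the mean
  have hB : ∀ z, V'ᴴ * Lz z t + (V t)ᴴ * Lz' z = (lam z - θ) * Q z := by
    intro z
    have e1 : V'ᴴ * Lz z t = -(θ * Q z) := by
      rw [ct_deriv hV hVu, hθ, hQ]
      simp only [Matrix.neg_mul, Matrix.mul_assoc]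
    have e2 : (V t)ᴴ * Lz' z = lam z * Q z := by
      rw [hlam, hQ, hμ]
      dsimp only
      calc (V t)ᴴ * Lz' z = (V t)ᴴ * Lz' z * ((Lz z t)ᴴ * Lz z t) := by
            rw [(hLu z t).l, Matrix.mul_one]
        _ = (V t)ᴴ * (Lz' z * (Lz z t)ᴴ) * 1 * Lz z t := by
            simp only [Matrix.mul_assoc, Matrix.one_mul]
        _ = (V t)ᴴ * (Lz' z * (Lz z t)ᴴ) * (V t * (V t)ᴴ) * Lz z t := by rw [hVt.r]
        _ = _ := by simp only [Matrix.mul_assoc]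
    rw [e1, e2, Matrix.sub_mul]; abel
  have hA'2 : A' = ∑ z, w z • ((lam z - θ) * Q z) := by
    rw [hA']; exact Finset.sum_congr rfl fun z _ => by rw [hB]
  have hds : ∀ z, (lam z - θ)ᴴ = -(lam z - θ) := fun z => by
    rw [conjTranspose_sub, hlams, hθs]; abel
  have hA'3 : A'ᴴ = -∑ z, w z • ((Q z)ᴴ * (lam z - θ)) := by
    rw [hA'2, conjTranspose_sum, ← Finset.sum_neg_distrib]
    refine Finset.sum_congr rfl fun z _ => ?_
    rw [conjTranspose_smul, conjTranspose_mul, hds, star_trivial, Matrix.mul_neg, smul_neg]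
  -- first estimate
  have b1 : ‖K' - ∑ z, w z • (lam z - θ)‖ ≤ ∑ z, w z * (‖lam z - θ‖ * ‖Lz z t - V t‖) := by
    have e1 : K' - ∑ z, w z • (lam z - θ) =
        ∑ z, w z • ((1 / 2 : ℝ) • ((lam z - θ) * (Q z - 1) + ((Q z)ᴴ - 1) * (lam z - θ))) := by
      rw [hK', hA'3, hA'2, sub_neg_eq_add, ← Finset.sum_add_distrib, Finset.smul_sum,
        ← Finset.sum_sub_distrib]
      refine Finset.sum_congr rfl fun z _ => ?_
      rw [← smul_add, smul_comm (1 / 2 : ℝ) (w z), ← smul_sub]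
      have : (lam z - θ) * (Q z - 1) + ((Q z)ᴴ - 1) * (lam z - θ) =
          ((lam z - θ) * Q z + (Q z)ᴴ * (lam z - θ)) - (2 : ℝ) • (lam z - θ) := by
        rw [two_smul, Matrix.mul_sub (lam z - θ) (Q z) 1, Matrix.sub_mul (Q z)ᴴ 1 (lam z - θ),
          Matrix.mul_one, Matrix.one_mul]
        abel
      rw [this, smul_sub (1 / 2 : ℝ), smul_smul]
      norm_num
    rw [e1]
    refine (norm_wsum hw _).trans (Finset.sum_le_sum fun z _ => ?_)
    refine mul_le_mul_of_nonneg_left ?_ (hw z)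
    rw [norm_half]
    have a1 : ‖(lam z - θ) * (Q z - 1)‖ ≤ ‖lam z - θ‖ * ‖Lz z t - V t‖ := by
      rw [← hQ1]; exact norm_mul_le _ _
    have a2 : ‖((Q z)ᴴ - 1) * (lam z - θ)‖ ≤ ‖lam z - θ‖ * ‖Lz z t - V t‖ := by
      have a3 : ‖(Q z)ᴴ - 1‖ = ‖Lz z t - V t‖ := by
        rw [← hQ1, ← norm_ct (Q z - 1), conjTranspose_sub, conjTranspose_one]
      rw [← a3, mul_comm]; exact norm_mul_le _ _
    have a4 := norm_add_le ((lam z - θ) * (Q z - 1)) (((Q z)ᴴ - 1) * (lam z - θ))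
    linarith
  have b2 : ‖K'‖ ≤ ∑ z, w z * ‖lam z - θ‖ := by
    have e1 : K' = ∑ z, w z • ((1 / 2 : ℝ) • ((lam z - θ) * Q z + (Q z)ᴴ * (lam z - θ))) := by
      rw [hK', hA'3, hA'2, sub_neg_eq_add, ← Finset.sum_add_distrib, Finset.smul_sum]
      refine Finset.sum_congr rfl fun z _ => ?_
      rw [← smul_add, smul_comm (1 / 2 : ℝ) (w z)]
    rw [e1]
    refine (norm_wsum hw _).trans (Finset.sum_le_sum fun z _ => ?_)
    refine mul_le_mul_of_nonneg_left ?_ (hw z)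
    rw [norm_half]
    have a4 := norm_add_le ((lam z - θ) * Q z) ((Q z)ᴴ * (lam z - θ))
    rw [norm_ur (hQu z), norm_ul (hQu z).ct] at a4
    linarith
  have hKn : ‖K t‖ ≤ δ := (norm_skew_part _).trans (norm_mean_sub hw hw1 hVt _)
  -- second estimate
  have b3 : ‖R * K' * R * Cᴴ - K'‖ ≤ 2 * δ * ‖K'‖ := by
    have e1 : R * K' * R * Cᴴ - K' = (R - 1) * K' * R * Cᴴ + (K' * (R - 1) * Cᴴ +
        K' * (Cᴴ - 1)) := by
      simp only [Matrix.mul_sub, Matrix.sub_mul, Matrix.mul_one, Matrix.one_mul]; abel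
    have hR1 : ‖R - 1‖ ≤ δ / 2 := (norm_Rs_sub (hKs t)).trans (by linarith)
    have a1 : ‖(R - 1) * K' * R * Cᴴ‖ ≤ δ / 2 * ‖K'‖ := by
      rw [norm_ur hCu.ct]
      refine (norm_mul_Rs (hKs t) _).trans ((norm_mul_le _ _).trans ?_)
      exact mul_le_mul_of_nonneg_right hR1 (norm_nonneg _)
    have a2 : ‖K' * (R - 1) * Cᴴ‖ ≤ ‖K'‖ * (δ / 2) := by
      rw [norm_ur hCu.ct]
      exact (norm_mul_le _ _).trans (mul_le_mul_of_nonneg_left hR1 (norm_nonneg _))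
    have a3 : ‖K' * (Cᴴ - 1)‖ ≤ ‖K'‖ * δ := by
      refine (norm_mul_le _ _).trans (mul_le_mul_of_nonneg_left ?_ (norm_nonneg _))
      have : ‖Cᴴ - 1‖ = ‖C - 1‖ := by
        rw [← norm_ct (C - 1), conjTranspose_sub, conjTranspose_one]
      rw [this]
      exact (norm_Cay_sub (hKs t)).trans hKn
    rw [e1]
    have a4 := norm_add_le ((R - 1) * K' * R * Cᴴ) (K' * (R - 1) * Cᴴ + K' * (Cᴴ - 1))
    have a5 := norm_add_le (K' * (R - 1) * Cᴴ) (K' * (Cᴴ - 1))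
    linarith
  -- assembly
  have e2 : (V' * C + V t * (R * K' * R)) * (V t * C)ᴴ - ∑ z, w z • μ z =
      V t * ((R * K' * R * Cᴴ - K') + (K' - ∑ z, w z • (lam z - θ))) * (V t)ᴴ := by
    have c1 : V' * C * (V t * C)ᴴ = V t * θ * (V t)ᴴ := by
      rw [conjTranspose_mul, hθ]
      calc V' * C * (Cᴴ * (V t)ᴴ) = V' * (C * Cᴴ) * (V t)ᴴ := by simp only [Matrix.mul_assoc]
        _ = (V t * (V t)ᴴ) * V' * (V t)ᴴ := by rw [hCu.r, hVt.r, Matrix.mul_one, Matrix.one_mul]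
        _ = _ := by simp only [Matrix.mul_assoc]
    have c2 : V t * (R * K' * R) * (V t * C)ᴴ = V t * (R * K' * R * Cᴴ) * (V t)ᴴ := by
      rw [conjTranspose_mul]; simp only [Matrix.mul_assoc]
    have c3 : ∑ z, w z • μ z = V t * (∑ z, w z • (lam z - θ) + θ) * (V t)ᴴ := by
      have d1 : ∑ z, w z • (lam z - θ) + θ = ∑ z, w z • lam z := by
        simp only [smul_sub, Finset.sum_sub_distrib]
        rw [← Finset.sum_smul, hw1, one_smul]; abel
      rw [d1, Matrix.mul_sum, Matrix.sum_mul]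
      refine Finset.sum_congr rfl fun z _ => ?_
      rw [Matrix.mul_smul, Matrix.smul_mul, hlam]
      dsimp only
      congr 1
      calc μ z = (V t * (V t)ᴴ) * μ z * (V t * (V t)ᴴ) := by
            rw [hVt.r, Matrix.one_mul, Matrix.mul_one]
        _ = _ := by simp only [Matrix.mul_assoc]
    rw [Matrix.add_mul, c1, c2, c3]
    simp only [Matrix.mul_add, Matrix.add_mul, Matrix.mul_sub, Matrix.sub_mul]
    abel
  rw [e2, norm_ad hVt]
  have a1 := norm_add_le (R * K' * R * Cᴴ - K') (K' - ∑ z, w z • (lam z - θ))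
  have a2 : 2 * δ * ‖K'‖ ≤ 2 * δ * ∑ z, w z * ‖lam z - θ‖ :=
    mul_le_mul_of_nonneg_left b2 (by positivity)
  have a3 : ∑ z, w z * (‖lam z - θ‖ * ‖Lz z t - V t‖) + 2 * δ * ∑ z, w z * ‖lam z - θ‖ ≤
      ∑ z, w z * (‖Lz' z‖ * (‖Lz z t - V t‖ + 2 * δ)) + 3 * ‖V'‖ * δ := by
    have c1 : ∀ z, ‖lam z - θ‖ ≤ ‖Lz' z‖ + ‖V'‖ := fun z => by
      refine (norm_sub_le _ _).trans ?_
      rw [hlamn, hθn]
    have c2 : ∑ z, w z * (‖lam z - θ‖ * ‖Lz z t - V t‖) + 2 * δ * ∑ z, w z * ‖lam z - θ‖ =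
        ∑ z, w z * (‖lam z - θ‖ * (‖Lz z t - V t‖ + 2 * δ)) := by
      rw [Finset.mul_sum, ← Finset.sum_add_distrib]
      exact Finset.sum_congr rfl fun z _ => by ring
    have c3 : ∑ z, w z * (‖V'‖ * (‖Lz z t - V t‖ + 2 * δ)) = 3 * ‖V'‖ * δ := by
      have d1 : ∀ z, w z * (‖V'‖ * (‖Lz z t - V t‖ + 2 * δ)) =
          ‖V'‖ * (w z * ‖Lz z t - V t‖) + (2 * ‖V'‖ * δ) * w z := fun z => by ring
      rw [Finset.sum_congr rfl fun z _ => d1 z, Finset.sum_add_distrib, ← Finset.mul_sum,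
        ← Finset.mul_sum, hw1]
      have d2 : ∑ z, w z * ‖Lz z t - V t‖ = δ := rfl
      rw [d2]; ring
    rw [c2, ← c3, ← Finset.sum_add_distrib]
    refine Finset.sum_le_sum fun z _ => ?_
    have d3 : 0 ≤ ‖Lz z t - V t‖ + 2 * δ := by positivity
    have d4 := mul_le_mul_of_nonneg_right (c1 z) d3
    have d5 := mul_le_mul_of_nonneg_left d4 (hw z)
    linarith
  linarith

end

end

end Pool.Agent.Y13.YM
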