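import Mathlib
import Pool.Agent.Y13.YM.Slice

/-!
# The derivative of a product of fat slices
-/

open MeasureTheory Matrix
open scoped Matrix.Norms.Frobenius ContDiff

namespace Pool.Agent.Y13.YM

open Pool.Agent.H906R3.YM (Mat)

set_option linter.unusedSectionVars false

noncomputable section

variable {k : ℕ}

lemma norm_conj_sub {T L X : Mat k} (hT : Un T) (hL : Un L) :
    ‖T * X * Tᴴ - L * X * Lᴴ‖ ≤ 2 * ‖T - L‖ * ‖X‖ := by
  have e1 : T * X * Tᴴ - L * X * Lᴴ = (T - L) * X * Tᴴ + L * X * (T - L)ᴴ := by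
    rw [conjTranspose_sub, Matrix.sub_mul, Matrix.sub_mul, Matrix.mul_sub]; abel
  rw [e1]
  have h1 : ‖(T - L) * X * Tᴴ‖ ≤ ‖T - L‖ * ‖X‖ := by
    rw [norm_ur hT.ct]; exact norm_mul_le _ _
  have h2 : ‖L * X * (T - L)ᴴ‖ ≤ ‖T - L‖ * ‖X‖ := by
    rw [Matrix.mul_assoc, norm_ul hL, mul_comm]
    refine (norm_mul_le _ _).trans (le_of_eq ?_)
    rw [norm_ct]
  have h3 := norm_add_le ((T - L) * X * Tᴴ) (L * X * (T - L)ᴴ)
  linarith

/-- ordered product -/
def opr (T : ℕ → Mat k) : ℕ → Mat k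
  | 0 => 1
  | d + 1 => opr T d * T d

lemma opr_un {T : ℕ → Mat k} (hT : ∀ i, Un (T i)) (d : ℕ) : Un (opr T d) := by
  induction d with
  | zero => exact Un.one
  | succ d ih => exact ih.mul (hT d)

section

variable {Z : Type*} [Fintype Z] {w : ℕ → Z → ℝ} (hw : ∀ i z, 0 ≤ w i z)
  (hw1 : ∀ i, ∑ z, w i z = 1)
  {C : ℕ → Z → ℝ → Mat k} {v : ℕ → Z → ℝ → Mat k} {V : ℕ → ℝ → Mat k} {t : ℝ}
  {Xi : ℕ → Z → Mat k} {ka : ℕ → Z → Mat k} {th : ℕ → Mat k}

/-- transporter -/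
def tp (C : ℕ → Z → ℝ → Mat k) (v : ℕ → Z → ℝ → Mat k) (i : ℕ) (z : Z) (s : ℝ) : Mat k :=
  C i z s * v i z s * (C (i + 1) z s)ᴴ

/-- slice of the run -/
def sl (w : ℕ → Z → ℝ) (C : ℕ → Z → ℝ → Mat k) (v : ℕ → Z → ℝ → Mat k) (V : ℕ → ℝ → Mat k)
    (i : ℕ) (s : ℝ) : Mat k := slice (w i) (V i s) (fun z => tp C v i z s)

/-- mean deviation of a slice -/
def dl (w : ℕ → Z → ℝ) (C : ℕ → Z → ℝ → Mat k) (v : ℕ → Z → ℝ → Mat k) (V : ℕ → ℝ → Mat k)
    (i : ℕ) (s : ℝ) : ℝ := dev (w i) (V i s) (fun z => tp C v i z s)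

/-- deviation of a transporter -/
def et (C : ℕ → Z → ℝ → Mat k) (v : ℕ → Z → ℝ → Mat k) (V : ℕ → ℝ → Mat k)
    (i : ℕ) (z : Z) (s : ℝ) : ℝ := ‖tp C v i z s - V i s‖

include hw hw1

theorem run_deriv (hC : ∀ i z s, Un (C i z s)) (hv : ∀ i z s, Un (v i z s))
    (hV : ∀ i s, Un (V i s))
    (dC : ∀ i z, HasDerivAt (C i z) (Xi i z * C i z t) t)
    (dv : ∀ i z, HasDerivAt (v i z) (ka i z * v i z t) t)
    (dV : ∀ i, HasDerivAt (V i) (th i * V i t) t) (d : ℕ) :
    ∃ F' : Mat k, HasDerivAt (fun s => opr (fun i => sl w C v V i s) d) F' t ∧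
      ‖F'‖ ≤ ‖∑ z, w 0 z • Xi 0 z‖ + ‖∑ z, w d z • Xi d z‖ +
        ∑ i ∈ Finset.range d, (∑ z, w i z * (
          (4 * dl w C v V i t + 3 * et C v V i z t) * ‖Xi (i + 1) z‖ +
          (2 * dl w C v V i t + et C v V i z t) * ‖Xi i z‖ +
          (1 + 2 * dl w C v V i t + et C v V i z t) * ‖ka i z‖) +
          3 * ‖th i‖ * dl w C v V i t +
          ‖∑ z, (w (i + 1) z - w i z) • Xi (i + 1) z‖) := by
  have hLu : ∀ i z s, Un (tp C v i z s) := fun i z s =>
    ((hC i z s).mul (hv i z s)).mul (hC (i + 1) z s).ct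
  have hTu : ∀ i s, Un (sl w C v V i s) := fun i s => slice_un (w i) (hV i s) _
  have hd0 : ∀ i, 0 ≤ dl w C v V i t := fun i => dev_nonneg (hw i) _ _
  -- derivative of transporters
  set mu : ℕ → Z → Mat k := fun i z => Xi i z + C i z t * ka i z * (C i z t)ᴴ -
    tp C v i z t * Xi (i + 1) z * (tp C v i z t)ᴴ with hmu
  have dL : ∀ i z, HasDerivAt (fun s => tp C v i z s) (mu i z * tp C v i z t) t := by
    intro i z
    have h1 := ((dC i z).mul (dv i z)).mul (hasDerivAt_ct (dC (i + 1) z))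
    refine h1.congr_deriv ?_
    have hXi : (Xi (i + 1) z * C (i + 1) z t)ᴴ = -((C (i + 1) z t)ᴴ * Xi (i + 1) z) := by
      have h2 := ct_deriv (dC (i + 1) z) (hC (i + 1) z)
      rw [h2]
      congr 1
      rw [Matrix.mul_assoc, Matrix.mul_assoc, (hC (i + 1) z t).r, Matrix.mul_one]
    simp only [Pi.mul_apply]
    rw [hXi, hmu]
    dsimp only
    have c1 := (hC i z t).l
    have c2 := (hLu i z t).l
    have e1 : C i z t * (ka i z * v i z t) * (C (i + 1) z t)ᴴ =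
        C i z t * ka i z * (C i z t)ᴴ * tp C v i z t := by
      unfold tp
      calc C i z t * (ka i z * v i z t) * (C (i + 1) z t)ᴴ
          = C i z t * ka i z * 1 * v i z t * (C (i + 1) z t)ᴴ := by
            simp only [Matrix.mul_assoc, Matrix.one_mul]
        _ = _ := by rw [← c1]; simp only [Matrix.mul_assoc]
    have e2 : C i z t * v i z t * -((C (i + 1) z t)ᴴ * Xi (i + 1) z) =
        -(tp C v i z t * Xi (i + 1) z * (tp C v i z t)ᴴ * tp C v i z t) := by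
      rw [Matrix.mul_assoc _ (tp C v i z t)ᴴ, c2, Matrix.mul_one]
      unfold tp
      rw [Matrix.mul_neg]; simp only [Matrix.mul_assoc]
    have e3 : Xi i z * C i z t * v i z t * (C (i + 1) z t)ᴴ = Xi i z * tp C v i z t := by
      unfold tp; simp only [Matrix.mul_assoc]
    rw [Matrix.sub_mul, Matrix.add_mul, Matrix.add_mul, e1, e2, e3]
    abel
  have hmun : ∀ i z, ‖mu i z‖ ≤ ‖Xi i z‖ + ‖ka i z‖ + ‖Xi (i + 1) z‖ := by
    intro i z
    rw [hmu]; dsimp only
    refine (norm_sub_le _ _).trans ?_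
    rw [norm_ad (hLu i z t)]
    have := norm_add_le (Xi i z) (C i z t * ka i z * (C i z t)ᴴ)
    rw [norm_ad (hC i z t)] at this
    linarith
  -- derivative of slices
  have dT : ∀ i, ∃ T' : Mat k, HasDerivAt (fun s => sl w C v V i s) T' t ∧
      ‖T' * (sl w C v V i t)ᴴ - ∑ z, w i z • mu i z‖ ≤
        ∑ z, w i z * (‖mu i z‖ * (et C v V i z t + 2 * dl w C v V i t)) +
          3 * ‖th i‖ * dl w C v V i t := by
    intro i
    obtain ⟨T', h1, h2⟩ := slice_deriv (hw i) (hw1 i) (dV i) (hV i) (dL i) (hLu i)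
    refine ⟨T', h1, ?_⟩
    have e1 : ∀ z, mu i z * tp C v i z t * (tp C v i z t)ᴴ = mu i z := fun z => by
      rw [Matrix.mul_assoc, (hLu i z t).r, Matrix.mul_one]
    have e2 : ∀ z, ‖mu i z * tp C v i z t‖ = ‖mu i z‖ := fun z => norm_ur (hLu i z t)
    simp only [e1, e2, norm_ur (hV i t)] at h2
    exact h2
  choose T' hT' hT'2 using dT
  set b : ℕ → ℝ := fun i => ∑ z, w i z * (
          (4 * dl w C v V i t + 3 * et C v V i z t) * ‖Xi (i + 1) z‖ +
          (2 * dl w C v V i t + et C v V i z t) * ‖Xi i z‖ +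
          (1 + 2 * dl w C v V i t + et C v V i z t) * ‖ka i z‖) +
          3 * ‖th i‖ * dl w C v V i t with hb
  -- one step
  have step : ∀ i, ‖T' i * (sl w C v V i t)ᴴ - ∑ z, w i z • Xi i z +
      sl w C v V i t * (∑ z, w i z • Xi (i + 1) z) * (sl w C v V i t)ᴴ‖ ≤ b i := by
    intro i
    set T := sl w C v V i t with hT
    have hTd : ‖T - V i t‖ ≤ dl w C v V i t := norm_slice_sub (hw i) (hw1 i) (hV i t) _
    have e1 : T' i * Tᴴ - ∑ z, w i z • Xi i z + T * (∑ z, w i z • Xi (i + 1) z) * Tᴴ =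
        (T' i * Tᴴ - ∑ z, w i z • mu i z) + ∑ z, w i z • (C i z t * ka i z * (C i z t)ᴴ) +
        ∑ z, w i z • (T * Xi (i + 1) z * Tᴴ - tp C v i z t * Xi (i + 1) z * (tp C v i z t)ᴴ) := by
      rw [hmu]
      simp only [Matrix.mul_sum, Matrix.sum_mul, Matrix.mul_smul, Matrix.smul_mul, smul_sub,
        smul_add, Finset.sum_add_distrib, Finset.sum_sub_distrib]
      abel
    rw [e1]
    have a1 := norm_add_le ((T' i * Tᴴ - ∑ z, w i z • mu i z) +
      ∑ z, w i z • (C i z t * ka i z * (C i z t)ᴴ))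
      (∑ z, w i z • (T * Xi (i + 1) z * Tᴴ - tp C v i z t * Xi (i + 1) z * (tp C v i z t)ᴴ))
    have a2 := norm_add_le (T' i * Tᴴ - ∑ z, w i z • mu i z)
      (∑ z, w i z • (C i z t * ka i z * (C i z t)ᴴ))
    have a3 := hT'2 i
    have a4 : ‖∑ z, w i z • (C i z t * ka i z * (C i z t)ᴴ)‖ ≤ ∑ z, w i z * ‖ka i z‖ := by
      refine (norm_wsum (hw i) _).trans (le_of_eq (Finset.sum_congr rfl fun z _ => ?_))
      rw [norm_ad (hC i z t)]
    have a5 : ‖∑ z, w i z • (T * Xi (i + 1) z * Tᴴ - tp C v i z t * Xi (i + 1) z *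
        (tp C v i z t)ᴴ)‖ ≤ ∑ z, w i z * (2 * (dl w C v V i t + et C v V i z t) *
          ‖Xi (i + 1) z‖) := by
      refine (norm_wsum (hw i) _).trans (Finset.sum_le_sum fun z _ => ?_)
      refine mul_le_mul_of_nonneg_left ?_ (hw i z)
      refine (norm_conj_sub (hTu i t) (hLu i z t)).trans ?_
      refine mul_le_mul_of_nonneg_right ?_ (norm_nonneg _)
      have : ‖T - tp C v i z t‖ ≤ ‖T - V i t‖ + ‖V i t - tp C v i z t‖ :=
        norm_sub_le_norm_sub_add_norm_sub _ _ _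
      rw [norm_sub_rev (V i t)] at this
      have h6 : ‖tp C v i z t - V i t‖ = et C v V i z t := rfl
      rw [h6] at this
      linarith
    have a6 : ∑ z, w i z * (‖mu i z‖ * (et C v V i z t + 2 * dl w C v V i t)) ≤
        ∑ z, w i z * ((‖Xi i z‖ + ‖ka i z‖ + ‖Xi (i + 1) z‖) *
          (et C v V i z t + 2 * dl w C v V i t)) := by
      refine Finset.sum_le_sum fun z _ => mul_le_mul_of_nonneg_left ?_ (hw i z)
      refine mul_le_mul_of_nonneg_right (hmun i z) ?_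
      have : 0 ≤ et C v V i z t := norm_nonneg _
      have := hd0 i
      positivity
    have a7 : ∑ z, w i z * ((‖Xi i z‖ + ‖ka i z‖ + ‖Xi (i + 1) z‖) *
          (et C v V i z t + 2 * dl w C v V i t)) + ∑ z, w i z * ‖ka i z‖ +
          ∑ z, w i z * (2 * (dl w C v V i t + et C v V i z t) * ‖Xi (i + 1) z‖) +
          3 * ‖th i‖ * dl w C v V i t = b i := by
      rw [hb]
      dsimp only
      rw [← Finset.sum_add_distrib, ← Finset.sum_add_distrib]
      congr 1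
      exact Finset.sum_congr rfl fun z _ => by ring
    linarith
  -- induction
  set b2 : ℕ → ℝ := fun i => b i + ‖∑ z, (w (i + 1) z - w i z) • Xi (i + 1) z‖ with hb2
  have step2 : ∀ i, ‖T' i * (sl w C v V i t)ᴴ - ∑ z, w i z • Xi i z +
      sl w C v V i t * (∑ z, w (i + 1) z • Xi (i + 1) z) * (sl w C v V i t)ᴴ‖ ≤ b2 i := by
    intro i
    have e1 : T' i * (sl w C v V i t)ᴴ - ∑ z, w i z • Xi i z +
        sl w C v V i t * (∑ z, w (i + 1) z • Xi (i + 1) z) * (sl w C v V i t)ᴴ =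
        (T' i * (sl w C v V i t)ᴴ - ∑ z, w i z • Xi i z +
        sl w C v V i t * (∑ z, w i z • Xi (i + 1) z) * (sl w C v V i t)ᴴ) +
        sl w C v V i t * (∑ z, (w (i + 1) z - w i z) • Xi (i + 1) z) * (sl w C v V i t)ᴴ := by
      simp only [sub_smul, Finset.sum_sub_distrib, Matrix.mul_sub, Matrix.sub_mul]
      abel
    rw [e1]
    refine (norm_add_le _ _).trans (add_le_add (step i) ?_)
    rw [norm_ad (hTu i t)]
  have main : ∀ d, ∃ F' : Mat k, HasDerivAt (fun s => opr (fun i => sl w C v V i s) d) F' t ∧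
      ‖F' * (opr (fun i => sl w C v V i t) d)ᴴ + opr (fun i => sl w C v V i t) d *
        (∑ z, w d z • Xi d z) * (opr (fun i => sl w C v V i t) d)ᴴ - ∑ z, w 0 z • Xi 0 z‖ ≤
        ∑ i ∈ Finset.range d, b2 i := by
    intro d
    induction d with
    | zero =>
      refine ⟨0, hasDerivAt_const _ _, ?_⟩
      simp [opr]
    | succ d ih =>
      obtain ⟨F', h1, h2⟩ := ih
      set F := opr (fun i => sl w C v V i t) d with hF
      have hFu : Un F := opr_un (fun i => hTu i t) d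
      set T := sl w C v V d t with hT
      have h3 := h1.mul (hT' d)
      refine ⟨F' * T + F * T' d, h3, ?_⟩
      have e0 : opr (fun i => sl w C v V i t) (d + 1) = F * T := rfl
      rw [e0, Finset.sum_range_succ]
      have e1 : (F' * T + F * T' d) * (F * T)ᴴ + F * T * (∑ z, w (d + 1) z • Xi (d + 1) z) *
          (F * T)ᴴ - ∑ z, w 0 z • Xi 0 z =
          (F' * Fᴴ + F * (∑ z, w d z • Xi d z) * Fᴴ - ∑ z, w 0 z • Xi 0 z) +
          F * (T' d * Tᴴ - ∑ z, w d z • Xi d z + T * (∑ z, w (d + 1) z • Xi (d + 1) z) * Tᴴ) *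
            Fᴴ := by
        have c1 : F' * T * (F * T)ᴴ = F' * Fᴴ := by
          rw [conjTranspose_mul]
          calc F' * T * (Tᴴ * Fᴴ) = F' * (T * Tᴴ) * Fᴴ := by simp only [Matrix.mul_assoc]
            _ = _ := by rw [(hTu d t).r, Matrix.mul_one]
        have c2 : F * T' d * (F * T)ᴴ = F * (T' d * Tᴴ) * Fᴴ := by
          rw [conjTranspose_mul]; simp only [Matrix.mul_assoc]
        have c3 : F * T * (∑ z, w (d + 1) z • Xi (d + 1) z) * (F * T)ᴴ =
            F * (T * (∑ z, w (d + 1) z • Xi (d + 1) z) * Tᴴ) * Fᴴ := by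
          rw [conjTranspose_mul]; simp only [Matrix.mul_assoc]
        rw [Matrix.add_mul, c1, c2, c3]
        simp only [Matrix.mul_add, Matrix.add_mul, Matrix.mul_sub, Matrix.sub_mul]
        abel
      rw [e1]
      refine (norm_add_le _ _).trans ?_
      rw [norm_ad hFu]
      exact add_le_add h2 (step2 d)
  obtain ⟨F', h1, h2⟩ := main d
  refine ⟨F', h1, ?_⟩
  set F := opr (fun i => sl w C v V i t) d with hF
  have hFu : Un F := opr_un (fun i => hTu i t) d
  have e1 : ‖F'‖ = ‖F' * Fᴴ‖ := (norm_ur hFu.ct).symm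
  have e2 : F' * Fᴴ = (F' * Fᴴ + F * (∑ z, w d z • Xi d z) * Fᴴ - ∑ z, w 0 z • Xi 0 z) -
      F * (∑ z, w d z • Xi d z) * Fᴴ + ∑ z, w 0 z • Xi 0 z := by abel
  rw [e1, e2]
  refine (norm_add_le _ _).trans ?_
  have a1 := norm_sub_le (F' * Fᴴ + F * (∑ z, w d z • Xi d z) * Fᴴ - ∑ z, w 0 z • Xi 0 z)
    (F * (∑ z, w d z • Xi d z) * Fᴴ)
  rw [norm_ad hFu] at a1
  have a4 : ∑ i ∈ Finset.range d, b2 i = ∑ i ∈ Finset.range d, (∑ z, w i z * (
          (4 * dl w C v V i t + 3 * et C v V i z t) * ‖Xi (i + 1) z‖ +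
          (2 * dl w C v V i t + et C v V i z t) * ‖Xi i z‖ +
          (1 + 2 * dl w C v V i t + et C v V i z t) * ‖ka i z‖) +
          3 * ‖th i‖ * dl w C v V i t +
          ‖∑ z, (w (i + 1) z - w i z) • Xi (i + 1) z‖) := by
    rw [hb2, hb]
  rw [← a4]
  linarith

end

end

end Pool.Agent.Y13.YM
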