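import Mathlib
import Pool.Agent.Y13.YM.Run

/-!
# Path ordered products and strips
-/

open MeasureTheory Matrix
open scoped Matrix.Norms.Frobenius ContDiff

namespace Pool.Agent.Y13.YM

open Pool.Agent.H906R3.YM (Mat)

set_option linter.unusedSectionVars false

noncomputable section

variable {k : ℕ} {Λ : Type*} [DecidableEq Λ]

/-- path ordered product -/
def pc (u : Λ → Mat k) (ℓ : ℕ → Λ) : ℕ → Mat k
  | 0 => 1
  | n + 1 => pc u ℓ n * u (ℓ n)

lemma pc_un {u : Λ → Mat k} (hu : ∀ e, Un (u e)) (ℓ : ℕ → Λ) (n : ℕ) : Un (pc u ℓ n) := by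
  induction n with
  | zero => exact Un.one
  | succ n ih => exact ih.mul (hu _)

/-- number of passages through a link -/
def cnt (ℓ : ℕ → Λ) (e : Λ) (n : ℕ) : ℝ := ∑ i ∈ Finset.range n, if ℓ i = e then 1 else 0

lemma cnt_nonneg (ℓ : ℕ → Λ) (e : Λ) (n : ℕ) : 0 ≤ cnt ℓ e n :=
  Finset.sum_nonneg fun i _ => by split_ifs <;> norm_num

/-- logarithmic derivative of a path ordered product -/
def Xp (u : Λ → Mat k) (ℓ : ℕ → Λ) (e : Λ) (Y : Mat k) (n : ℕ) : Mat k :=
  ∑ i ∈ Finset.range n, if ℓ i = e then pc u ℓ i * Y * (pc u ℓ i)ᴴ else 0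

lemma norm_Xp {u : Λ → Mat k} (hu : ∀ e, Un (u e)) (ℓ : ℕ → Λ) (e : Λ) (Y : Mat k) (n : ℕ) :
    ‖Xp u ℓ e Y n‖ ≤ ‖Y‖ * cnt ℓ e n := by
  unfold Xp cnt
  refine (norm_sum_le _ _).trans ?_
  rw [Finset.mul_sum]
  refine Finset.sum_le_sum fun i _ => ?_
  split_ifs
  · rw [norm_ad (pc_un hu ℓ i), mul_one]
  · simp

lemma pc_deriv {u : Λ → ℝ → Mat k} (hu : ∀ e s, Un (u e s)) {e : Λ} {Y : Mat k} {t : ℝ}
    (hd : ∀ e', HasDerivAt (u e') (if e' = e then Y * u e' t else 0) t) (ℓ : ℕ → Λ) (n : ℕ) :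
    HasDerivAt (fun s => pc (fun e => u e s) ℓ n)
      (Xp (fun e => u e t) ℓ e Y n * pc (fun e => u e t) ℓ n) t := by
  induction n with
  | zero =>
    have : Xp (fun e => u e t) ℓ e Y 0 = 0 := by simp [Xp]
    rw [this, Matrix.zero_mul]
    exact hasDerivAt_const _ _
  | succ n ih =>
    have h1 := ih.mul (hd (ℓ n))
    refine h1.congr_deriv ?_
    set P := pc (fun e => u e t) ℓ n with hP
    have hPu : Un P := pc_un (fun e => hu e t) ℓ n
    have e1 : pc (fun e => u e t) ℓ (n + 1) = P * u (ℓ n) t := rfl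
    have e2 : Xp (fun e => u e t) ℓ e Y (n + 1) = Xp (fun e => u e t) ℓ e Y n +
        if ℓ n = e then P * Y * Pᴴ else 0 := Finset.sum_range_succ _ _
    rw [e1, e2, Matrix.add_mul, Matrix.mul_assoc]
    congr 1
    split_ifs with h
    · calc P * (Y * u (ℓ n) t) = P * Y * 1 * u (ℓ n) t := by
            simp only [Matrix.mul_assoc, Matrix.one_mul]
        _ = _ := by rw [← hPu.l]; simp only [Matrix.mul_assoc]
    · simp

/-- The strip between two paths. -/
lemma strip {u : Λ → Mat k} (hu : ∀ e, Un (u e)) {v : ℕ → Mat k} (hv : ∀ i, Un (v i))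
    (ℓ ℓ' : ℕ → Λ) (n : ℕ) : ‖pc u ℓ n * v n * (pc u ℓ' n)ᴴ - v 0‖ ≤
      ∑ i ∈ Finset.range n, ‖u (ℓ i) * v (i + 1) * (u (ℓ' i))ᴴ * (v i)ᴴ - 1‖ := by
  induction n with
  | zero => simp [pc]
  | succ n ih =>
    rw [Finset.sum_range_succ]
    set P := pc u ℓ n with hP
    set P' := pc u ℓ' n with hP'
    have hPu : Un P := pc_un hu ℓ n
    have hPu' : Un P' := pc_un hu ℓ' n
    have e1 : pc u ℓ (n + 1) * v (n + 1) * (pc u ℓ' (n + 1))ᴴ - v 0 =
        P * (u (ℓ n) * v (n + 1) * (u (ℓ' n))ᴴ - v n) * P'ᴴ + (P * v n * P'ᴴ - v 0) := by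
      have c1 : pc u ℓ (n + 1) = P * u (ℓ n) := rfl
      have c2 : pc u ℓ' (n + 1) = P' * u (ℓ' n) := rfl
      rw [c1, c2, conjTranspose_mul]
      simp only [Matrix.mul_sub, Matrix.sub_mul, Matrix.mul_assoc]
      abel
    rw [e1, add_comm (∑ i ∈ Finset.range n, _)]
    refine (norm_add_le _ _).trans (add_le_add ?_ ih)
    rw [norm_ur hPu'.ct, norm_ul hPu]
    have e2 : u (ℓ n) * v (n + 1) * (u (ℓ' n))ᴴ - v n =
        (u (ℓ n) * v (n + 1) * (u (ℓ' n))ᴴ * (v n)ᴴ - 1) * v n := by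
      rw [Matrix.sub_mul, Matrix.one_mul, Matrix.mul_assoc _ (v n)ᴴ, (hv n).l, Matrix.mul_one]
    rw [e2, norm_ur (hv n)]

/-- Schur's test -/
lemma schur {ι : Type*} [Fintype ι] [Fintype Λ] (f : ι → Λ) {w h κ : ι → ℝ} (hw : ∀ i, 0 ≤ w i)
    (hκ : ∀ i, w i ≠ 0 → ∑ j, (if f j = f i then w j else 0) ≤ κ i) :
    ∑ e, (∑ i, if f i = e then w i * h i else 0) ^ 2 ≤ ∑ i, w i * κ i * h i ^ 2 := by
  have h1 : ∀ e, (∑ i, if f i = e then w i * h i else 0) ^ 2 ≤
      (∑ i, if f i = e then w i else 0) * ∑ i, if f i = e then w i * h i ^ 2 else 0 := by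
    intro e
    have h2 := Finset.sum_mul_sq_le_sq_mul_sq Finset.univ
      (fun i => if f i = e then Real.sqrt (w i) else 0)
      (fun i => if f i = e then Real.sqrt (w i) * h i else 0)
    have e1 : ∀ i, (if f i = e then Real.sqrt (w i) else 0) *
        (if f i = e then Real.sqrt (w i) * h i else 0) = if f i = e then w i * h i else 0 := by
      intro i; split_ifs
      · rw [← mul_assoc, Real.mul_self_sqrt (hw i)]
      · simp
    have e2 : ∀ i, (if f i = e then Real.sqrt (w i) else 0) ^ 2 = if f i = e then w i else 0 := by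
      intro i; split_ifs
      · exact Real.sq_sqrt (hw i)
      · simp
    have e3 : ∀ i, (if f i = e then Real.sqrt (w i) * h i else 0) ^ 2 =
        if f i = e then w i * h i ^ 2 else 0 := by
      intro i; split_ifs
      · rw [mul_pow, Real.sq_sqrt (hw i)]
      · simp
    simp only [e1, e2, e3] at h2
    exact h2
  refine (Finset.sum_le_sum fun e _ => h1 e).trans ?_
  have h3 : ∀ e, (∑ i, if f i = e then w i else 0) * (∑ i, if f i = e then w i * h i ^ 2 else 0) =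
      ∑ i, if f i = e then (∑ j, if f j = f i then w j else 0) * (w i * h i ^ 2) else 0 := by
    intro e
    rw [Finset.mul_sum]
    refine Finset.sum_congr rfl fun i _ => ?_
    split_ifs with h
    · rw [h]
    · rw [mul_zero]
  rw [Finset.sum_congr rfl fun e _ => h3 e, Finset.sum_comm]
  refine Finset.sum_le_sum fun i _ => ?_
  rw [Finset.sum_ite_eq, if_pos (Finset.mem_univ _)]
  by_cases hi : w i = 0
  · rw [hi]; simp
  · have h4 := hκ i hi
    have h5 : 0 ≤ w i * h i ^ 2 := mul_nonneg (hw i) (sq_nonneg _)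
    have h6 := mul_le_mul_of_nonneg_right h4 h5
    linarith

end

end Pool.Agent.Y13.YM
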