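import Mathlib
import Pool.Agent.Y13.YM.Path
import Pool.Agent.H906R3.YM.Torus

/-!
# The geometry of the fat string
-/

open MeasureTheory Matrix
open scoped Matrix.Norms.Frobenius ContDiff

namespace Pool.Agent.Y13.YM

open Pool.Agent.H906R3.YM (Mat Ed eT)

set_option linter.unusedSectionVars false

noncomputable section

/-- first coordinate of the `θ`-th ray at time `t` -/
def pa (R θ t : ℕ) : ℕ := (t + 1) * θ / R

/-- second coordinate -/
def pb (R θ t : ℕ) : ℕ := t - pa R θ t

lemma pa_le {R θ t : ℕ} (h : θ < R) : pa R θ t ≤ t := by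
  unfold pa
  have : (t + 1) * θ / R < t + 1 := by
    rw [Nat.div_lt_iff_lt_mul (by omega)]
    exact Nat.mul_lt_mul_of_pos_left h (by omega)
  omega

lemma pa_add {R θ t : ℕ} (h : θ < R) : pa R θ t + pb R θ t = t := by
  unfold pb
  have := pa_le (t := t) h
  omega

lemma pa_zero {R θ : ℕ} (h : θ < R) : pa R θ 0 = 0 := by
  have := pa_le (t := 0) h
  omega

lemma pb_zero {R θ : ℕ} : pb R θ 0 = 0 := by unfold pb; omega

lemma pa_succ {R θ t : ℕ} (h : θ < R) :
    pa R θ (t + 1) = pa R θ t ∨ pa R θ (t + 1) = pa R θ t + 1 := by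
  have h1 : pa R θ t ≤ pa R θ (t + 1) := by
    unfold pa
    exact Nat.div_le_div_right (Nat.mul_le_mul_right _ (by omega))
  have h2 : pa R θ (t + 1) ≤ pa R θ t + 1 := by
    unfold pa
    have h3 : (t + 1 + 1) * θ ≤ (t + 1) * θ + 1 * R := by
      have : (t + 1 + 1) * θ = (t + 1) * θ + θ := by ring
      omega
    refine (Nat.div_le_div_right h3).trans (le_of_eq ?_)
    rw [Nat.add_mul_div_right _ _ (by omega)]
  omega

/-- number of rays through a point -/
lemma card_ray {R t : ℕ} (hR : t < R) (a : ℕ) :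
    ((Finset.univ.filter fun θ : Fin R => pa R θ t = a).card : ℝ) ≤ 2 * R / (t + 1) := by
  classical
  set S := Finset.univ.filter fun θ : Fin R => pa R θ t = a with hS
  have hR0 : 0 < R := by omega
  have key : S.card ≤ R / (t + 1) + 1 := by
    rcases S.eq_empty_or_nonempty with h | h
    · rw [h]; simp
    · set m := S.min' h with hm
      have hmS : m ∈ S := S.min'_mem h
      have hsub : S.image (fun θ : Fin R => (θ : ℕ)) ⊆
          Finset.Icc (m : ℕ) ((m : ℕ) + R / (t + 1)) := by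
        intro x hx
        rw [Finset.mem_image] at hx
        obtain ⟨θ, hθ, rfl⟩ := hx
        have h1 : m ≤ θ := S.min'_le θ hθ
        have h1' : (m : ℕ) ≤ θ := h1
        rw [Finset.mem_Icc]
        refine ⟨h1', ?_⟩
        have h2 : pa R θ t = a := (Finset.mem_filter.1 hθ).2
        have h3 : pa R m t = a := (Finset.mem_filter.1 hmS).2
        unfold pa at h2 h3
        have h4 : (t + 1) * (θ : ℕ) < (a + 1) * R := by
          rw [← Nat.div_lt_iff_lt_mul hR0]; omega
        have h5 : a * R ≤ (t + 1) * (m : ℕ) := by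
          rw [← Nat.le_div_iff_mul_le hR0]; omega
        have h6 : (t + 1) * ((θ : ℕ) - m) ≤ R := by
          rw [Nat.mul_sub]
          have : (a + 1) * R = a * R + R := by ring
          omega
        have h7 : (θ : ℕ) - m ≤ R / (t + 1) := by
          rw [Nat.le_div_iff_mul_le (by omega), mul_comm]; exact h6
        omega
      have h1 := Finset.card_le_card hsub
      rw [Finset.card_image_of_injective _ Fin.val_injective, Nat.card_Icc] at h1
      generalize R / (t + 1) = q at h1 ⊢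
      omega
  have h2 : (S.card : ℝ) ≤ ((R / (t + 1) : ℕ) : ℝ) + 1 := by exact_mod_cast key
  have h3 : ((R / (t + 1) : ℕ) : ℝ) ≤ (R : ℝ) / (t + 1) := by
    have := Nat.cast_div_le (α := ℝ) (m := R) (n := t + 1)
    push_cast at this; exact this
  have h4 : (1 : ℝ) ≤ R / (t + 1) := by
    rw [le_div_iff₀ (by positivity)]
    have : ((t + 1 : ℕ) : ℝ) ≤ R := by exact_mod_cast hR
    push_cast at this; linarith
  have h5 : 2 * (R : ℝ) / (t + 1) = R / (t + 1) + R / (t + 1) := by ring
  rw [h5]; linarith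

variable {l : ℕ}

/-- site of the fat string -/
def st (e : Fin 3) (x : Fin 3 → ZMod l) (i a b : ℕ) : Fin 3 → ZMod l :=
  x + i • eT e + a • eT (e + 1) + b • eT (e + 2)

lemma fin3 : ∀ e : Fin 3, e ≠ e + 1 ∧ e ≠ e + 2 ∧ e + 1 ≠ e + 2 := by decide

lemma eT_same (i : Fin 3) : (eT i : Fin 3 → ZMod l) i = 1 := by unfold eT; simp

lemma eT_ne {i j : Fin 3} (h : i ≠ j) : (eT i : Fin 3 → ZMod l) j = 0 := by
  unfold eT; exact Pi.single_eq_of_ne (Ne.symm h) _

lemma st_inj {e : Fin 3} {x : Fin 3 → ZMod l} {i a b i' a' b' : ℕ}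
    (hi : i < l) (ha : a < l) (hb : b < l) (hi' : i' < l) (ha' : a' < l) (hb' : b' < l)
    (h : st e x i a b = st e x i' a' b') : i = i' ∧ a = a' ∧ b = b' := by
  obtain ⟨h1, h2, h3⟩ := fin3 e
  have key : ∀ m m' : ℕ, m < l → m' < l → (m : ZMod l) = m' → m = m' := by
    intro m m' hm hm' h
    rw [ZMod.natCast_eq_natCast_iff', Nat.mod_eq_of_lt hm, Nat.mod_eq_of_lt hm'] at h
    exact h
  have e1 := congrFun h e
  have e2 := congrFun h (e + 1)
  have e3 := congrFun h (e + 2)
  unfold st at e1 e2 e3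
  simp only [Pi.add_apply, nsmul_eq_mul, Pi.mul_apply, Pi.natCast_apply, eT_same, eT_ne h1,
    eT_ne h2, eT_ne h3, eT_ne h1.symm, eT_ne h2.symm, eT_ne h3.symm, mul_one, mul_zero,
    add_zero] at e1 e2 e3
  exact ⟨key _ _ hi hi' (by linear_combination e1), key _ _ ha ha' (by linear_combination e2),
    key _ _ hb hb' (by linear_combination e3)⟩

/-- links of the rays -/
def pl (e : Fin 3) (x : Fin 3 → ZMod l) (R i θ t : ℕ) : Ed 3 l :=
  (st e x i (pa R θ t) (pb R θ t), if pa R θ (t + 1) = pa R θ t then e + 2 else e + 1)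

/-- links of the string -/
def lg (e : Fin 3) (x : Fin 3 → ZMod l) (R i θ t : ℕ) : Ed 3 l :=
  (st e x i (pa R θ t) (pb R θ t), e)

lemma st_succ (e : Fin 3) (x : Fin 3 → ZMod l) (i a b : ℕ) :
    st e x i a b + eT e = st e x (i + 1) a b := by
  unfold st; rw [add_smul, one_smul]; abel

lemma pl_next {e : Fin 3} {x : Fin 3 → ZMod l} {R i θ t : ℕ} (h : θ < R) :
    (pl e x R i θ t).1 + eT (pl e x R i θ t).2 = st e x i (pa R θ (t + 1)) (pb R θ (t + 1)) := by
  have h1 := pa_add (t := t) h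
  have h2 := pa_add (t := t + 1) h
  unfold pl
  dsimp only
  rcases pa_succ (t := t) h with h3 | h3
  · rw [if_pos h3, h3]
    have h4 : pb R θ (t + 1) = pb R θ t + 1 := by omega
    rw [h4]; unfold st; rw [add_smul _ _ (eT (e + 2)), one_smul]; abel
  · have h4 : pb R θ (t + 1) = pb R θ t := by omega
    rw [if_neg (by omega), h3, h4]
    unfold st; rw [add_smul _ _ (eT (e + 1)), one_smul]; abel

lemma pl_inj {e : Fin 3} {x : Fin 3 → ZMod l} {R i θ t i' θ' t' : ℕ} (hR : R ≤ l)
    (hθ : θ < R) (hθ' : θ' < R) (ht : t < R) (ht' : t' < R) (hi : i < l) (hi' : i' < l)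
    (h : (pl e x R i θ t).1 = (pl e x R i' θ' t').1) :
    i = i' ∧ t = t' ∧ pa R θ t = pa R θ' t := by
  have h1 := pa_add (t := t) hθ
  have h2 := pa_add (t := t') hθ'
  have h3 := st_inj hi (by omega) (by omega) hi' (by omega) (by omega) h
  obtain ⟨h4, h5, h6⟩ := h3
  have h7 : t = t' := by omega
  subst h7
  exact ⟨h4, rfl, h5⟩

/-- the harmonic sum -/
def Hm (R : ℕ) : ℝ := ∑ t ∈ Finset.range R, 2 / ((t : ℝ) + 1)

lemma Hm_ge {R : ℕ} (hR : 1 ≤ R) : 2 ≤ Hm R := by
  unfold Hm
  have h1 : (2 : ℝ) / (((0 : ℕ) : ℝ) + 1) ≤ ∑ t ∈ Finset.range R, 2 / ((t : ℝ) + 1) :=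
    Finset.single_le_sum (f := fun t : ℕ => 2 / ((t : ℝ) + 1)) (fun t _ => by positivity)
      (Finset.mem_range.2 hR)
  norm_num at h1
  exact h1

lemma Hm_part {R n : ℕ} (h : n ≤ R) : ∑ t ∈ Finset.range n, 2 / ((t : ℝ) + 1) ≤ Hm R :=
  Finset.sum_le_sum_of_subset_of_nonneg (Finset.range_mono h) fun _ _ _ => by positivity

variable [NeZero l]

section
variable {I : Type*} [Fintype I] {ν : I → ℕ} (hν : Function.Injective ν) {R : ℕ}
  (hR : R ≤ l) (hνl : ∀ i, ν i < l) (e : Fin 3) (x : Fin 3 → ZMod l)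
include hν hR hνl

/-- transversal links -/
lemma trans_schur {q : I → ℕ → ℝ} (hq : ∀ i τ, 0 ≤ q i τ)
    (hq1 : ∀ i, ∑ τ ∈ Finset.range R, q i τ ≤ 1) (h : I → Fin R × Fin R → ℝ) :
    ∑ f : Ed 3 l, (∑ i, ∑ z : Fin R × Fin R, (q i z.1 / R) *
      (h i z * cnt (pl e x R (ν i) z.2) f z.1)) ^ 2 ≤
      Hm R * ∑ i, ∑ z : Fin R × Fin R, (q i z.1 / R) * h i z ^ 2 := by
  classical
  have hs := schur (Λ := Ed 3 l) (ι := I × (Fin R × Fin R) × Fin R)
    (fun j => pl e x R (ν j.1) j.2.1.2 j.2.2)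
    (w := fun j => if (j.2.2 : ℕ) < j.2.1.1 then q j.1 j.2.1.1 / R else 0)
    (h := fun j => h j.1 j.2.1) (κ := fun j => 2 / ((j.2.2 : ℕ) + 1 : ℝ))
    (fun j => by
      have := hq j.1 j.2.1.1
      split_ifs <;> positivity) ?_
  · have e1 : ∀ f : Ed 3 l, (∑ i, ∑ z : Fin R × Fin R, (q i z.1 / R) *
        (h i z * cnt (pl e x R (ν i) z.2) f z.1)) =
        ∑ j : I × (Fin R × Fin R) × Fin R, if pl e x R (ν j.1) j.2.1.2 j.2.2 = f then
          (if (j.2.2 : ℕ) < j.2.1.1 then q j.1 j.2.1.1 / R else 0) * h j.1 j.2.1 else 0 := by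
      intro f
      refine Eq.trans ?_ (Fintype.sum_prod_type _).symm
      refine Finset.sum_congr rfl fun i _ => ?_
      refine Eq.trans ?_ (Fintype.sum_prod_type _).symm
      refine Finset.sum_congr rfl fun z _ => ?_
      unfold cnt
      have e2 : ∑ t ∈ Finset.range (z.1 : ℕ), (if pl e x R (ν i) z.2 t = f then (1 : ℝ) else 0) =
          ∑ t : Fin R, if (t : ℕ) < z.1 then (if pl e x R (ν i) z.2 t = f then (1 : ℝ) else 0)
            else 0 := by
        rw [Fin.sum_univ_eq_sum_range (fun t => if t < (z.1 : ℕ) then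
          (if pl e x R (ν i) z.2 t = f then (1 : ℝ) else 0) else 0) R]
        have e4 : Finset.range (z.1 : ℕ) = (Finset.range R).filter fun t => t < (z.1 : ℕ) := by
          ext t
          have := z.1.2
          simp only [Finset.mem_range, Finset.mem_filter]
          omega
        rw [e4, Finset.sum_filter]
      rw [e2, Finset.mul_sum, Finset.mul_sum]
      refine Finset.sum_congr rfl fun t _ => ?_
      dsimp only
      split_ifs <;> ring
    refine (le_of_eq (Finset.sum_congr rfl fun f _ => by rw [e1 f])).trans ?_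
    refine hs.trans ?_
    refine (le_of_eq (Fintype.sum_prod_type _)).trans ?_
    rw [Finset.mul_sum]
    refine Finset.sum_le_sum fun i _ => ?_
    refine (le_of_eq (Fintype.sum_prod_type _)).trans ?_
    rw [Finset.mul_sum]
    refine Finset.sum_le_sum fun z _ => ?_
    dsimp only
    have e3 : ∑ t : Fin R, (if (t : ℕ) < (z.1 : ℕ) then q i z.1 / R else 0) *
        (2 / ((t : ℕ) + 1 : ℝ)) * h i z ^ 2 = (q i z.1 / R * h i z ^ 2) *
          ∑ t ∈ Finset.range (z.1 : ℕ), 2 / ((t : ℝ) + 1) := by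
      rw [Fin.sum_univ_eq_sum_range (fun t => (if t < (z.1 : ℕ) then q i z.1 / R else 0) *
        (2 / ((t : ℕ) + 1 : ℝ)) * h i z ^ 2) R, Finset.mul_sum]
      have e4 : Finset.range (z.1 : ℕ) = (Finset.range R).filter fun t => t < (z.1 : ℕ) := by
        ext t
        have := z.1.2
        simp only [Finset.mem_range, Finset.mem_filter]
        omega
      rw [e4, Finset.sum_filter]
      refine Finset.sum_congr rfl fun t _ => ?_
      split_ifs <;> ring
    rw [e3]
    have h5 := Hm_part (R := R) (n := (z.1 : ℕ)) z.1.2.le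
    have h6 : 0 ≤ q i z.1 / R * h i z ^ 2 := by
      have := hq i z.1
      positivity
    have h7 := mul_le_mul_of_nonneg_left h5 h6
    linarith
  · rintro ⟨i, ⟨τ, θ⟩, t⟩ -
    dsimp only
    have hRpos : (0 : ℝ) < R := by
      have := t.2
      exact_mod_cast (by omega : 0 < R)
    have b1 : ∀ j : I × (Fin R × Fin R) × Fin R,
        (if pl e x R (ν j.1) j.2.1.2 j.2.2 = pl e x R (ν i) θ t then
          (if (j.2.2 : ℕ) < j.2.1.1 then q j.1 j.2.1.1 / R else 0) else 0) ≤
        if j.1 = i then (if j.2.2 = t then (if pa R j.2.1.2 t = pa R θ t then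
          q i j.2.1.1 / R else 0) else 0) else 0 := by
      rintro ⟨i', ⟨τ', θ'⟩, t'⟩
      dsimp only
      have p1 := hq i τ'
      have p2 : 0 ≤ q i τ' / R := by positivity
      by_cases h1 : pl e x R (ν i') θ' t' = pl e x R (ν i) θ t
      · obtain ⟨h2, h3, h4⟩ := pl_inj hR θ'.2 θ.2 t'.2 t.2 (hνl i') (hνl i) (congrArg Prod.fst h1)
        have h5 := hν h2
        have h6 : t' = t := Fin.ext h3
        subst h5 h6
        rw [if_pos h1, if_pos rfl, if_pos rfl, if_pos h4]
        split_ifs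
        · exact le_rfl
        · exact p2
      · rw [if_neg h1]
        split_ifs
        · exact p2
        · exact le_rfl
        · exact le_rfl
        · exact le_rfl
    refine (Finset.sum_le_sum fun j _ => b1 j).trans ?_
    rw [Fintype.sum_prod_type, Finset.sum_eq_single i (fun b _ hb => by simp [hb]) (by simp)]
    simp only [if_true]
    rw [Fintype.sum_prod_type (γ := ℝ)]
    simp only [Finset.sum_ite_eq', Finset.mem_univ, if_true]
    have inner : ∀ τ' : Fin R, ∑ θ' : Fin R, (if pa R θ' t = pa R θ t then q i τ' / R else 0) =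
        q i τ' * (((Finset.univ.filter fun θ' : Fin R => pa R θ' t = pa R θ t).card : ℝ) / R) := by
      intro τ'
      rw [← Finset.sum_filter, Finset.sum_const, nsmul_eq_mul]
      ring
    rw [Fintype.sum_prod_type (γ := ℝ)]
    refine (le_of_eq (Finset.sum_congr rfl fun τ' _ => inner τ')).trans ?_
    rw [← Finset.sum_mul]
    have h1 := card_ray t.2 (pa R θ t)
    have h2 : ∑ τ' : Fin R, q i τ' ≤ 1 := by
      rw [Fin.sum_univ_eq_sum_range (fun τ' => q i τ') R]; exact hq1 i
    have h3 : (((Finset.univ.filter fun θ' : Fin R => pa R θ' t = pa R θ t).card : ℝ) / R) ≤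
        2 / ((t : ℕ) + 1 : ℝ) := by
      rw [div_le_iff₀ hRpos]
      refine h1.trans (le_of_eq ?_)
      ring
    refine (mul_le_mul_of_nonneg_right h2 (by positivity)).trans ?_
    rw [one_mul]
    exact h3

/-- longitudinal links -/
lemma long_schur {q : I → ℕ → ℝ} (hq : ∀ i τ, 0 ≤ q i τ) (h : I → Fin R × Fin R → ℝ) :
    ∑ f : Ed 3 l, (∑ i, ∑ z : Fin R × Fin R, (q i z.1 / R) *
      (h i z * if lg e x R (ν i) z.2 z.1 = f then 1 else 0)) ^ 2 ≤
      ∑ i, ∑ z : Fin R × Fin R, (q i z.1 / R) * (2 * q i z.1 / ((z.1 : ℕ) + 1)) * h i z ^ 2 := by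
  classical
  have hs := schur (Λ := Ed 3 l) (ι := I × (Fin R × Fin R))
    (fun j => lg e x R (ν j.1) j.2.2 j.2.1)
    (w := fun j => q j.1 j.2.1 / R)
    (h := fun j => h j.1 j.2) (κ := fun j => 2 * q j.1 j.2.1 / ((j.2.1 : ℕ) + 1 : ℝ))
    (fun j => by
      have := hq j.1 j.2.1
      positivity) ?_
  · have e1 : ∀ f : Ed 3 l, (∑ i, ∑ z : Fin R × Fin R, (q i z.1 / R) *
        (h i z * if lg e x R (ν i) z.2 z.1 = f then 1 else 0)) =
        ∑ j : I × (Fin R × Fin R), if lg e x R (ν j.1) j.2.2 j.2.1 = f then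
          q j.1 j.2.1 / R * h j.1 j.2 else 0 := by
      intro f
      rw [Fintype.sum_prod_type]
      refine Finset.sum_congr rfl fun i _ => Finset.sum_congr rfl fun z _ => ?_
      dsimp only
      split_ifs <;> ring
    refine (le_of_eq (Finset.sum_congr rfl fun f _ => by rw [e1 f])).trans ?_
    refine hs.trans (le_of_eq ?_)
    rw [Fintype.sum_prod_type]
  · rintro ⟨i, ⟨τ, θ⟩⟩ -
    dsimp only
    have hRpos : (0 : ℝ) < R := by
      have := τ.2
      exact_mod_cast (by omega : 0 < R)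
    have hqτ := hq i τ
    have b1 : ∀ j : I × (Fin R × Fin R),
        (if lg e x R (ν j.1) j.2.2 j.2.1 = lg e x R (ν i) θ τ then q j.1 j.2.1 / R else 0) ≤
        if j.1 = i then (if j.2.1 = τ then (if pa R j.2.2 τ = pa R θ τ then
          q i τ / R else 0) else 0) else 0 := by
      rintro ⟨i', ⟨τ', θ'⟩⟩
      dsimp only
      by_cases h1 : lg e x R (ν i') θ' τ' = lg e x R (ν i) θ τ
      · obtain ⟨h2, h3, h4⟩ := pl_inj hR θ'.2 θ.2 τ'.2 τ.2 (hνl i') (hνl i)
          (congrArg (fun p : Ed 3 l => p.1) h1 : (lg e x R (ν i') θ' τ').1 = (lg e x R (ν i) θ τ).1)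
        have h5 := hν h2
        have h6 : τ' = τ := Fin.ext h3
        subst h5 h6
        rw [if_pos h1, if_pos rfl, if_pos rfl, if_pos h4]
      · rw [if_neg h1]
        split_ifs <;> positivity
    refine (Finset.sum_le_sum fun j _ => b1 j).trans ?_
    rw [Fintype.sum_prod_type, Finset.sum_eq_single i (fun b _ hb => by simp [hb]) (by simp)]
    simp only [if_true]
    rw [Fintype.sum_prod_type (γ := ℝ), Finset.sum_comm]
    simp only [Finset.sum_ite_eq', Finset.mem_univ, if_true]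
    rw [← Finset.sum_filter, Finset.sum_const, nsmul_eq_mul]
    have h1 := card_ray τ.2 (pa R θ τ)
    have h2 : 2 * q i τ / ((τ : ℕ) + 1 : ℝ) = (2 * R / ((τ : ℕ) + 1)) * (q i τ / R) := by
      field_simp
    rw [h2]
    exact mul_le_mul_of_nonneg_right h1 (by positivity)

/-- rearrangement of the flux -/
lemma diff_schur {δ : I → ℕ → ℝ} (hδ : ∀ i t, 0 ≤ δ i t) :
    ∑ f : Ed 3 l, (∑ i, ∑ θ : Fin R, ∑ t : Fin R,
      if pl e x R (ν i) θ t = f then δ i t / R else 0) ^ 2 ≤
      ∑ i, ∑ t ∈ Finset.range R, 2 * δ i t ^ 2 / ((t : ℝ) + 1) := by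
  classical
  have hs := schur (Λ := Ed 3 l) (ι := I × Fin R × Fin R)
    (fun j => pl e x R (ν j.1) j.2.1 j.2.2)
    (w := fun j => δ j.1 j.2.2 / R)
    (h := fun _ => 1) (κ := fun j => 2 * δ j.1 j.2.2 / ((j.2.2 : ℕ) + 1 : ℝ))
    (fun j => by
      have := hδ j.1 j.2.2
      positivity) ?_
  · have e1 : ∀ f : Ed 3 l, (∑ i, ∑ θ : Fin R, ∑ t : Fin R,
        if pl e x R (ν i) θ t = f then δ i t / R else 0) =
        ∑ j : I × Fin R × Fin R, if pl e x R (ν j.1) j.2.1 j.2.2 = f then
          δ j.1 j.2.2 / R * 1 else 0 := by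
      intro f
      rw [Fintype.sum_prod_type]
      refine Finset.sum_congr rfl fun i _ => ?_
      rw [Fintype.sum_prod_type]
      simp only [mul_one]
    refine (le_of_eq (Finset.sum_congr rfl fun f _ => by rw [e1 f])).trans ?_
    refine hs.trans (le_of_eq ?_)
    rw [Fintype.sum_prod_type]
    refine Finset.sum_congr rfl fun i _ => ?_
    rw [Fintype.sum_prod_type, Finset.sum_comm]
    rw [← Fin.sum_univ_eq_sum_range (fun t => 2 * δ i t ^ 2 / ((t : ℝ) + 1)) R]
    refine Finset.sum_congr rfl fun t _ => ?_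
    dsimp only
    have hRpos : (0 : ℝ) < R := by
      have := t.2
      exact_mod_cast (by omega : 0 < R)
    rw [Finset.sum_const, Finset.card_univ, Fintype.card_fin, nsmul_eq_mul]
    field_simp
  · rintro ⟨i, θ, t⟩ -
    dsimp only
    have hRpos : (0 : ℝ) < R := by
      have := t.2
      exact_mod_cast (by omega : 0 < R)
    have hδt := hδ i t
    have b1 : ∀ j : I × Fin R × Fin R,
        (if pl e x R (ν j.1) j.2.1 j.2.2 = pl e x R (ν i) θ t then δ j.1 j.2.2 / R else 0) ≤
        if j.1 = i then (if j.2.2 = t then (if pa R j.2.1 t = pa R θ t then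
          δ i t / R else 0) else 0) else 0 := by
      rintro ⟨i', θ', t'⟩
      dsimp only
      by_cases h1 : pl e x R (ν i') θ' t' = pl e x R (ν i) θ t
      · obtain ⟨h2, h3, h4⟩ := pl_inj hR θ'.2 θ.2 t'.2 t.2 (hνl i') (hνl i)
          (congrArg (fun p : Ed 3 l => p.1) h1 : (pl e x R (ν i') θ' t').1 = (pl e x R (ν i) θ t).1)
        have h5 := hν h2
        have h6 : t' = t := Fin.ext h3
        subst h5 h6
        rw [if_pos h1, if_pos rfl, if_pos rfl, if_pos h4]
      · rw [if_neg h1]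
        split_ifs <;> positivity
    refine (Finset.sum_le_sum fun j _ => b1 j).trans ?_
    rw [Fintype.sum_prod_type, Finset.sum_eq_single i (fun b _ hb => by simp [hb]) (by simp)]
    simp only [if_true]
    rw [Fintype.sum_prod_type (γ := ℝ)]
    simp only [Finset.sum_ite_eq', Finset.mem_univ, if_true]
    rw [← Finset.sum_filter, Finset.sum_const, nsmul_eq_mul]
    have h1 := card_ray t.2 (pa R θ t)
    have h2 : 2 * δ i t / ((t : ℕ) + 1 : ℝ) = (2 * R / ((t : ℕ) + 1)) * (δ i t / R) := by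
      field_simp
    rw [h2]
    exact mul_le_mul_of_nonneg_right h1 (by positivity)

/-- thin links -/
lemma thin_schur (hl : 0 < R) (h : I → ℝ) :
    ∑ f : Ed 3 l, (∑ i, h i * if lg e x R (ν i) 0 0 = f then 1 else 0) ^ 2 ≤ ∑ i, h i ^ 2 := by
  classical
  have hs := schur (Λ := Ed 3 l) (ι := I) (fun j => lg e x R (ν j) 0 0)
    (w := fun _ => 1) (h := h) (κ := fun _ => 1) (fun j => by norm_num) ?_
  · have e1 : ∀ f : Ed 3 l, (∑ i, h i * if lg e x R (ν i) 0 0 = f then 1 else 0) =
        ∑ i, if lg e x R (ν i) 0 0 = f then 1 * h i else 0 := by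
      intro f
      refine Finset.sum_congr rfl fun i _ => ?_
      split_ifs <;> ring
    refine (le_of_eq (Finset.sum_congr rfl fun f _ => by rw [e1 f])).trans ?_
    refine hs.trans (le_of_eq ?_)
    refine Finset.sum_congr rfl fun i _ => ?_
    ring
  · intro i _
    have b1 : ∀ j, (if lg e x R (ν j) 0 0 = lg e x R (ν i) 0 0 then (1 : ℝ) else 0) ≤
        if j = i then 1 else 0 := by
      intro j
      by_cases h1 : lg e x R (ν j) 0 0 = lg e x R (ν i) 0 0
      · obtain ⟨h2, -, -⟩ := pl_inj hR hl hl hl hl (hνl j) (hνl i)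
          (congrArg (fun p : Ed 3 l => p.1) h1 : (lg e x R (ν j) 0 0).1 = (lg e x R (ν i) 0 0).1)
        rw [if_pos h1, if_pos (hν h2)]
      · rw [if_neg h1]; split_ifs <;> norm_num
    refine (Finset.sum_le_sum fun j _ => b1 j).trans (le_of_eq ?_)
    simp

end

end

end Pool.Agent.Y13.YM
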