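import Mathlib
import Pool.Agent.Y13.YM.Geo

/-!
# The weights of the rays
-/

open MeasureTheory Matrix
open scoped Matrix.Norms.Frobenius ContDiff

namespace Pool.Agent.Y13.YM

set_option linter.unusedSectionVars false
set_option maxHeartbeats 400000

noncomputable section

/-- radial profile: uniform distribution on the triangle of side `r` -/
def om (r τ : ℕ) : ℝ := if τ < r then 2 * (τ + 1) / (r * (r + 1)) else 0

/-- radius of the slice `i` -/
def rd (R d i : ℕ) : ℕ := min R (min (i + 1) (d - i + 1))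

lemma rd_ge {R d i : ℕ} (hR : 1 ≤ R) : 1 ≤ rd R d i := by unfold rd; omega

lemma rd_le (R d i : ℕ) : rd R d i ≤ R := by unfold rd; omega

lemma rd_zero {R d : ℕ} (hR : 1 ≤ R) : rd R d 0 = 1 := by unfold rd; omega

lemma rd_end {R d : ℕ} (hR : 1 ≤ R) : rd R d d = 1 := by unfold rd; omega

lemma om_nonneg (r τ : ℕ) : 0 ≤ om r τ := by
  unfold om
  split_ifs
  · positivity
  · exact le_rfl

/-- mass of an inner triangle -/
lemma om_part {r m : ℕ} (hr : 1 ≤ r) (hm : m ≤ r) :
    ∑ τ ∈ Finset.range m, om r τ = m * (m + 1) / (r * (r + 1)) := by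
  induction m with
  | zero => simp
  | succ m ih =>
    rw [Finset.sum_range_succ, ih (by omega)]
    unfold om
    rw [if_pos (by omega)]
    have h1 : (r : ℝ) ≠ 0 := by positivity
    have h2 : (r : ℝ) + 1 ≠ 0 := by positivity
    push_cast
    field_simp
    ring

lemma om_all {r m : ℕ} (hr : 1 ≤ r) (hm : r ≤ m) : ∑ τ ∈ Finset.range m, om r τ = 1 := by
  have h1 : ∑ τ ∈ Finset.range r, om r τ = ∑ τ ∈ Finset.range m, om r τ := by
    refine Finset.sum_subset (Finset.range_mono hm) fun τ _ hτ => ?_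
    unfold om
    rw [if_neg]
    simpa using hτ
  rw [← h1, om_part hr le_rfl]
  have h1 : (r : ℝ) ≠ 0 := by positivity
  have h2 : (r : ℝ) + 1 ≠ 0 := by positivity
  field_simp

/-- mass outside of a triangle -/
def mo (R r t : ℕ) : ℝ := ∑ τ ∈ Finset.range R, if t < τ then om r τ else 0

lemma mo_eq {R r t : ℕ} (hr : 1 ≤ r) (hrR : r ≤ R) (ht : t < R) :
    mo R r t = 1 - ∑ τ ∈ Finset.range (t + 1), om r τ := by
  unfold mo
  have h1 := om_all hr hrR
  have h2 : ∑ τ ∈ Finset.range R, om r τ = ∑ τ ∈ Finset.range (t + 1), om r τ +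
      ∑ τ ∈ Finset.range R, if t < τ then om r τ else 0 := by
    have h3 : ∑ τ ∈ Finset.range R, om r τ = ∑ τ ∈ Finset.range R,
        ((if τ < t + 1 then om r τ else 0) + if t < τ then om r τ else 0) := by
      refine Finset.sum_congr rfl fun τ _ => ?_
      by_cases h : t < τ
      · rw [if_pos h, if_neg (by omega), zero_add]
      · rw [if_neg h, if_pos (by omega), add_zero]
    rw [h3, Finset.sum_add_distrib]
    congr 1
    rw [← Finset.sum_filter]
    refine Finset.sum_congr ?_ fun _ _ => rfl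
    ext τ
    simp only [Finset.mem_filter, Finset.mem_range]
    omega
  linarith

/-- bound of the rearranged flux -/
def de (r t : ℕ) : ℝ := if t < r then 2 * (t + 1) / (r * (r + 1)) else 0

lemma de_nonneg (r t : ℕ) : 0 ≤ de r t := om_nonneg r t

lemma mo_diff {R r t : ℕ} (hr : 1 ≤ r) (hrR : r + 1 ≤ R) (ht : t < R) :
    |mo R (r + 1) t - mo R r t| ≤ de r t := by
  rw [mo_eq hr (by omega) ht, mo_eq (by omega) hrR ht]
  unfold de
  have h1 : (0 : ℝ) < r := by exact_mod_cast hr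
  rcases lt_or_ge t r with h | h
  · rw [om_part hr (by omega), om_part (by omega) (by omega), if_pos h]
    push_cast
    have e1 : (1 : ℝ) - (t + 1) * (t + 1 + 1) / ((r + 1) * (r + 1 + 1)) -
        (1 - (t + 1) * (t + 1 + 1) / (r * (r + 1))) =
        2 * (t + 1) / (r * (r + 1)) * ((t + 2) / (r + 2)) := by
      field_simp
      ring
    rw [e1, abs_of_nonneg (by positivity)]
    have h2 : ((t : ℝ) + 2) / (r + 2) ≤ 1 := by
      rw [div_le_one (by positivity)]
      have : (t : ℝ) ≤ r := by exact_mod_cast h.le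
      linarith
    exact mul_le_of_le_one_right (by positivity) h2
  · rw [om_all hr (by omega), om_all (r := r + 1) (by omega) (by omega), if_neg (by omega)]
    simp

lemma sum_succ (m : ℕ) : ∑ t ∈ Finset.range m, ((t : ℝ) + 1) = m * (m + 1) / 2 := by
  induction m with
  | zero => simp
  | succ m ih => rw [Finset.sum_range_succ, ih]; push_cast; ring

lemma de_sum {R r : ℕ} (hr : 1 ≤ r) (hrR : r ≤ R) :
    ∑ t ∈ Finset.range R, 2 * de r t ^ 2 / ((t : ℝ) + 1) = 4 / ((r : ℝ) * (r + 1)) := by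
  have h1 : ∑ t ∈ Finset.range r, 2 * de r t ^ 2 / ((t : ℝ) + 1) =
      ∑ t ∈ Finset.range R, 2 * de r t ^ 2 / ((t : ℝ) + 1) := by
    refine Finset.sum_subset (Finset.range_mono hrR) fun t _ ht => ?_
    unfold de
    rw [if_neg (by simpa using ht)]
    simp
  have hr0 : (0 : ℝ) < r := by exact_mod_cast hr
  rw [← h1]
  have h2 : ∀ t ∈ Finset.range r, 2 * de r t ^ 2 / ((t : ℝ) + 1) =
      8 / (r * (r + 1)) ^ 2 * (t + 1) := by
    intro t ht
    unfold de
    rw [if_pos (Finset.mem_range.1 ht)]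
    have : (t : ℝ) + 1 ≠ 0 := by positivity
    field_simp
    norm_num
  rw [Finset.sum_congr rfl h2, ← Finset.mul_sum, sum_succ]
  field_simp
  norm_num

/-- change of the radius between neighbouring slices -/
lemma step_sum {R d i : ℕ} (hR : 1 ≤ R) (hi : i < d) :
    ∑ t ∈ Finset.range R, 2 * |mo R (rd R d (i + 1)) t - mo R (rd R d i) t| ^ 2 / ((t : ℝ) + 1) ≤
      4 / ((i + 1) * (i + 2)) + 4 / (((d - i : ℕ) : ℝ) * ((d - i : ℕ) + 1)) := by
  have hdi : (0 : ℝ) < ((d - i : ℕ) : ℝ) := by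
    have : 0 < d - i := by omega
    exact_mod_cast this
  have p1 : (0 : ℝ) ≤ 4 / ((i + 1) * (i + 2)) := by positivity
  have p2 : (0 : ℝ) ≤ 4 / (((d - i : ℕ) : ℝ) * ((d - i : ℕ) + 1)) := by positivity
  have key : ∀ r : ℕ, 1 ≤ r → r + 1 ≤ R →
      ∑ t ∈ Finset.range R, 2 * |mo R (r + 1) t - mo R r t| ^ 2 / ((t : ℝ) + 1) ≤
        4 / ((r : ℝ) * (r + 1)) := by
    intro r hr hrR
    rw [← de_sum hr (by omega : r ≤ R)]
    refine Finset.sum_le_sum fun t ht => ?_
    have h1 := mo_diff hr hrR (Finset.mem_range.1 ht)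
    have h2 := pow_le_pow_left₀ (abs_nonneg _) h1 2
    refine div_le_div_of_nonneg_right ?_ (by positivity)
    linarith
  rcases lt_trichotomy (rd R d (i + 1)) (rd R d i) with h | h | h
  · -- decreasing
    have h1 : rd R d (i + 1) = d - i := by unfold rd at h ⊢; omega
    have h2 : rd R d i = d - i + 1 := by unfold rd at h h1 ⊢; omega
    have h3 := key (d - i) (by omega) (by rw [← h2]; exact rd_le _ _ _)
    rw [h1, h2]
    simp only [abs_sub_comm (mo R (d - i) _)]
    linarith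
  · rw [h]
    simp only [sub_self, abs_zero]
    have : ∑ t ∈ Finset.range R, 2 * (0 : ℝ) ^ 2 / ((t : ℝ) + 1) = 0 := by simp
    rw [this]
    positivity
  · have h1 : rd R d i = i + 1 := by unfold rd at h ⊢; omega
    have h2 : rd R d (i + 1) = i + 2 := by unfold rd at h h1 ⊢; omega
    have h3 := key (i + 1) (by omega) (by
      have := rd_le R d (i + 1); omega)
    rw [h1, h2]
    push_cast at h3
    have e1 : (i : ℝ) + 1 + 1 = i + 2 := by ring
    rw [e1] at h3
    linarith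

lemma tele (d : ℕ) : ∑ i ∈ Finset.range d, 4 / (((i : ℝ) + 1) * (i + 2)) ≤ 4 := by
  have h : ∀ d : ℕ, ∑ i ∈ Finset.range d, 4 / (((i : ℝ) + 1) * (i + 2)) = 4 - 4 / (d + 1) := by
    intro d
    induction d with
    | zero => simp
    | succ d ih =>
      rw [Finset.sum_range_succ, ih]
      have h1 : (d : ℝ) + 1 ≠ 0 := by positivity
      have h2 : (d : ℝ) + 2 ≠ 0 := by positivity
      push_cast
      field_simp
      ring
  rw [h]
  have : (0 : ℝ) ≤ 4 / (d + 1) := by positivity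
  linarith

lemma tele' (d : ℕ) : ∑ i ∈ Finset.range d, 4 / (((d - i : ℕ) : ℝ) * ((d - i : ℕ) + 1)) ≤ 4 := by
  refine le_trans (le_of_eq ?_) (tele d)
  rw [← Finset.sum_range_reflect]
  refine Finset.sum_congr rfl fun i hi => ?_
  have hi' := Finset.mem_range.1 hi
  have e1 : d - (d - 1 - i) = i + 1 := by omega
  rw [e1]
  push_cast
  have e2 : (i : ℝ) + 1 + 1 = i + 2 := by ring
  rw [e2]

lemma steps_sum {R : ℕ} (hR : 1 ≤ R) (d : ℕ) :
    ∑ i ∈ Finset.range d, ∑ t ∈ Finset.range R,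
      2 * |mo R (rd R d (i + 1)) t - mo R (rd R d i) t| ^ 2 / ((t : ℝ) + 1) ≤ 8 := by
  refine (Finset.sum_le_sum fun i hi => step_sum hR (Finset.mem_range.1 hi)).trans ?_
  rw [Finset.sum_add_distrib]
  have h1 := tele d
  have h2 := tele' d
  linarith

/-- the longitudinal energy of a slice -/
lemma om_sq_sum {R r : ℕ} (hr : 1 ≤ r) (hrR : r ≤ R) :
    ∑ τ ∈ Finset.range R, 2 * om r τ ^ 2 / ((τ : ℝ) + 1) = 4 / ((r : ℝ) * (r + 1)) :=
  de_sum hr hrR

lemma long_sum {R : ℕ} (hR : 1 ≤ R) (d : ℕ) :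
    ∑ i ∈ Finset.range d, 4 / ((rd R d i : ℝ) * (rd R d i + 1)) ≤ 8 + 4 * (d / (R : ℝ) ^ 2) := by
  have hR0 : (0 : ℝ) < R := by exact_mod_cast hR
  have h1 : ∀ i ∈ Finset.range d, 4 / ((rd R d i : ℝ) * (rd R d i + 1)) ≤
      4 / (((i : ℝ) + 1) * (i + 2)) + 4 / (((d - i : ℕ) : ℝ) * ((d - i : ℕ) + 1)) +
        4 * (1 / (R : ℝ) ^ 2) := by
    intro i hi
    have hi' := Finset.mem_range.1 hi
    have hdi : (0 : ℝ) < ((d - i : ℕ) : ℝ) := by
      have : 0 < d - i := by omega
      exact_mod_cast this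
    have p1 : (0 : ℝ) ≤ 4 / ((i + 1) * (i + 2)) := by positivity
    have p2 : (0 : ℝ) ≤ 4 / (((d - i : ℕ) : ℝ) * ((d - i : ℕ) + 1)) := by positivity
    have p3 : (0 : ℝ) ≤ 4 * (1 / (R : ℝ) ^ 2) := by positivity
    have h2 : rd R d i = R ∨ rd R d i = i + 1 ∨ rd R d i = d - i + 1 := by unfold rd; omega
    rcases h2 with h | h | h
    · rw [h]
      have : 4 / ((R : ℝ) * (R + 1)) ≤ 4 * (1 / (R : ℝ) ^ 2) := by
        rw [mul_one_div]
        refine div_le_div_of_nonneg_left (by norm_num) (by positivity) ?_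
        nlinarith
      linarith
    · rw [h]
      push_cast
      have e2 : (i : ℝ) + 1 + 1 = i + 2 := by ring
      rw [e2]
      linarith
    · rw [h]
      push_cast
      have : 4 / ((((d - i : ℕ) : ℝ) + 1) * (((d - i : ℕ) : ℝ) + 1 + 1)) ≤
          4 / (((d - i : ℕ) : ℝ) * ((d - i : ℕ) + 1)) := by
        refine div_le_div_of_nonneg_left (by norm_num) (by positivity) ?_
        nlinarith
      linarith
  refine (Finset.sum_le_sum h1).trans ?_
  rw [Finset.sum_add_distrib, Finset.sum_add_distrib, Finset.sum_const, Finset.card_range,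
    nsmul_eq_mul]
  have h2 := tele d
  have h3 := tele' d
  have h4 : (d : ℝ) * (4 * (1 / (R : ℝ) ^ 2)) = 4 * (d / (R : ℝ) ^ 2) := by ring
  linarith

/-- weights of the rays -/
def wR (R r : ℕ) : Fin R × Fin R → ℝ := fun z => om r z.1 / R

lemma wR_nonneg (R r : ℕ) (z : Fin R × Fin R) : 0 ≤ wR R r z := by
  unfold wR
  have := om_nonneg r z.1
  positivity

lemma wR_sum {R r : ℕ} (hr : 1 ≤ r) (hrR : r ≤ R) : ∑ z, wR R r z = 1 := by
  unfold wR
  rw [Fintype.sum_prod_type]
  simp only [Finset.sum_const, Finset.card_univ, Fintype.card_fin, nsmul_eq_mul]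
  have hR : (R : ℝ) ≠ 0 := by
    have : 0 < R := by omega
    positivity
  have h1 : ∀ τ : Fin R, (R : ℝ) * (om r τ / R) = om r τ := fun τ => by field_simp
  rw [Finset.sum_congr rfl fun τ _ => h1 τ, Fin.sum_univ_eq_sum_range (fun τ => om r τ) R]
  exact om_all hr hrR

end

end Pool.Agent.Y13.YM
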