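import Mathlib
import Pool.Agent.Y13.YM.Wt

/-!
# The fat string: definition, smoothness, covariance
-/

open MeasureTheory Matrix
open scoped Matrix.Norms.Frobenius ContDiff

namespace Pool.Agent.Y13.YM

open Pool.Agent.H906R3.YM (Mat Ed eT ctL ctL_apply)

set_option linter.unusedSectionVars false

noncomputable section

variable {k l R : ℕ}

/-- connectors -/
def Cc (u : Ed 3 l → Mat k) (e : Fin 3) (x : Fin 3 → ZMod l) (R i : ℕ) (z : Fin R × Fin R) :
    Mat k := pc u (pl e x R i z.2) z.1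

/-- straight links -/
def vv (u : Ed 3 l → Mat k) (e : Fin 3) (x : Fin 3 → ZMod l) (R i : ℕ) (z : Fin R × Fin R) :
    Mat k := u (lg e x R i z.2 z.1)

/-- thin links -/
def VV (u : Ed 3 l → Mat k) (e : Fin 3) (x : Fin 3 → ZMod l) (R i : ℕ) : Mat k :=
  u (lg e x R i 0 0)

/-- a string of `d` fat slices from `x` in the direction `e` -/
def fatw (W : ℕ → Fin R × Fin R → ℝ) (u : Ed 3 l → Mat k) (e : Fin 3) (x : Fin 3 → ZMod l)
    (d : ℕ) : Mat k :=
  opr (fun i => slice (W i) (VV u e x R i)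
    fun z => Cc u e x R i z * vv u e x R i z * (Cc u e x R (i + 1) z)ᴴ) d

/-- the fat string of `d` slices from `x` in the direction `e` -/
def fat (u : Ed 3 l → Mat k) (e : Fin 3) (x : Fin 3 → ZMod l) (R d : ℕ) : Mat k :=
  fatw (fun i => wR R (rd R d i)) u e x d

lemma fat_un {u : Ed 3 l → Mat k} (hu : ∀ e, Un (u e)) (e : Fin 3) (x : Fin 3 → ZMod l)
    (R d : ℕ) : Un (fat u e x R d) :=
  opr_un (fun i => slice_un _ (hu _) _) d

/-! ### smoothness -/

section smooth

variable {W : Type*} [NormedAddCommGroup W] [NormedSpace ℝ W]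

lemma contDiff_ct {f : W → Mat k} (h : ContDiff ℝ ∞ f) : ContDiff ℝ ∞ fun v => (f v)ᴴ :=
  (ctL k).contDiff.comp h

lemma contDiff_pc {u : Ed 3 l → W → Mat k} (hu : ∀ e, ContDiff ℝ ∞ (u e)) (ℓ : ℕ → Ed 3 l)
    (n : ℕ) : ContDiff ℝ ∞ fun v => pc (fun e => u e v) ℓ n := by
  induction n with
  | zero => exact contDiff_const
  | succ n ih => exact ih.mul (hu (ℓ n))

lemma contDiff_slice {Z : Type*} [Fintype Z] (w : Z → ℝ) {V : W → Mat k} {Lz : W → Z → Mat k}
    (hV : ContDiff ℝ ∞ V) (hL : ∀ z, ContDiff ℝ ∞ fun v => Lz v z) :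
    ContDiff ℝ ∞ fun v => slice w (V v) (Lz v) := by
  unfold slice
  refine hV.mul (contDiff_Cay ?_ fun v => skew_part _)
  have h1 : ContDiff ℝ ∞ fun v => ∑ z, w z • ((V v)ᴴ * Lz v z) :=
    ContDiff.sum fun z _ => ((contDiff_ct hV).mul (hL z)).const_smul (w z)
  exact (h1.sub (contDiff_ct h1)).const_smul (1 / 2 : ℝ)

lemma contDiff_opr {T : W → ℕ → Mat k} (hT : ∀ i, ContDiff ℝ ∞ fun v => T v i) (d : ℕ) :
    ContDiff ℝ ∞ fun v => opr (T v) d := by
  induction d with
  | zero => exact contDiff_const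
  | succ d ih => exact ih.mul (hT d)

lemma contDiff_fat {u : Ed 3 l → W → Mat k} (hu : ∀ e, ContDiff ℝ ∞ (u e)) (e : Fin 3)
    (x : Fin 3 → ZMod l) (R d : ℕ) : ContDiff ℝ ∞ fun v => fat (fun e => u e v) e x R d := by
  unfold fat fatw
  refine contDiff_opr (fun i => contDiff_slice _ (hu _) fun z => ?_) d
  exact ((contDiff_pc hu _ _).mul (hu _)).mul (contDiff_ct (contDiff_pc hu _ _))

end smooth

/-! ### covariance -/

lemma st_zero (e : Fin 3) (x : Fin 3 → ZMod l) : st e x 0 0 0 = x := by unfold st; simp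

lemma lg_zero {R : ℕ} (hR : 1 ≤ R) (e : Fin 3) (x : Fin 3 → ZMod l) (i : ℕ) :
    lg e x R i 0 0 = (st e x i 0 0, e) := by
  unfold lg
  rw [pa_zero (by omega), pb_zero]

section cov

variable {u u' : Ed 3 l → Mat k} {g : (Fin 3 → ZMod l) → Mat k} (hg : ∀ y, Un (g y))
  (hu : ∀ f, u' f = g f.1 * u f * (g (f.1 + eT f.2))ᴴ)
include hg hu

lemma pc_cov (e : Fin 3) (x : Fin 3 → ZMod l) {R θ : ℕ} (hθ : θ < R) (i n : ℕ) :
    pc u' (pl e x R i θ) n = g (st e x i 0 0) * pc u (pl e x R i θ) n *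
      (g (st e x i (pa R θ n) (pb R θ n)))ᴴ := by
  induction n with
  | zero =>
    have : pc u (pl e x R i θ) 0 = 1 := rfl
    rw [this, pa_zero hθ, pb_zero, Matrix.mul_one, (hg _).r]; rfl
  | succ n ih =>
    have h1 : pc u' (pl e x R i θ) (n + 1) = pc u' (pl e x R i θ) n * u' (pl e x R i θ n) := rfl
    have h2 : pc u (pl e x R i θ) (n + 1) = pc u (pl e x R i θ) n * u (pl e x R i θ n) := rfl
    rw [h1, h2, ih, hu, pl_next hθ]
    have h3 : (pl e x R i θ n).1 = st e x i (pa R θ n) (pb R θ n) := rfl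
    rw [h3]
    have h4 := (hg (st e x i (pa R θ n) (pb R θ n))).l
    calc g (st e x i 0 0) * pc u (pl e x R i θ) n * (g (st e x i (pa R θ n) (pb R θ n)))ᴴ *
          (g (st e x i (pa R θ n) (pb R θ n)) * u (pl e x R i θ n) *
            (g (st e x i (pa R θ (n + 1)) (pb R θ (n + 1))))ᴴ)
        = g (st e x i 0 0) * pc u (pl e x R i θ) n * ((g (st e x i (pa R θ n) (pb R θ n)))ᴴ *
          g (st e x i (pa R θ n) (pb R θ n))) * u (pl e x R i θ n) *
            (g (st e x i (pa R θ (n + 1)) (pb R θ (n + 1))))ᴴ := by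
          simp only [Matrix.mul_assoc]
      _ = _ := by rw [h4, Matrix.mul_one]; simp only [Matrix.mul_assoc]

lemma slice_cov {Z : Type*} [Fintype Z] (w : Z → ℝ) {V V' A B : Mat k} {L' Lz : Z → Mat k}
    (hA : Un A) (hB : Un B) (h1 : V' = A * V * Bᴴ) (h2 : ∀ z, L' z = A * Lz z * Bᴴ) :
    slice w V' L' = A * slice w V Lz * Bᴴ := by
  unfold slice
  have e1 : ∑ z, w z • (V'ᴴ * L' z) = B * (∑ z, w z • (Vᴴ * Lz z)) * Bᴴ := by
    rw [Matrix.mul_sum, Matrix.sum_mul]
    refine Finset.sum_congr rfl fun z _ => ?_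
    rw [h1, h2, Matrix.mul_smul, Matrix.smul_mul]
    congr 1
    rw [conjTranspose_mul, conjTranspose_mul, conjTranspose_conjTranspose]
    calc B * (Vᴴ * Aᴴ) * (A * Lz z * Bᴴ) = B * Vᴴ * (Aᴴ * A) * Lz z * Bᴴ := by
          simp only [Matrix.mul_assoc]
      _ = _ := by rw [hA.l, Matrix.mul_one]; simp only [Matrix.mul_assoc]
  set M := ∑ z, w z • (Vᴴ * Lz z) with hM
  have e2 : (1 / 2 : ℝ) • ((∑ z, w z • (V'ᴴ * L' z)) - (∑ z, w z • (V'ᴴ * L' z))ᴴ) =
      B * ((1 / 2 : ℝ) • (M - Mᴴ)) * Bᴴ := by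
    rw [e1, Matrix.mul_smul, Matrix.smul_mul]
    congr 1
    rw [conjTranspose_mul, conjTranspose_mul, conjTranspose_conjTranspose, Matrix.mul_sub,
      Matrix.sub_mul]
    simp only [Matrix.mul_assoc]
  rw [e2, Cay_conj (skew_part _) hB, h1]
  calc A * V * Bᴴ * (B * Cay ((1 / 2 : ℝ) • (M - Mᴴ)) * Bᴴ)
      = A * V * (Bᴴ * B) * Cay ((1 / 2 : ℝ) • (M - Mᴴ)) * Bᴴ := by simp only [Matrix.mul_assoc]
    _ = _ := by rw [hB.l, Matrix.mul_one]; simp only [Matrix.mul_assoc]

lemma fatw_cov (W : ℕ → Fin R × Fin R → ℝ) (e : Fin 3) (x : Fin 3 → ZMod l) (hR : 1 ≤ R)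
    (d : ℕ) : fatw W u' e x d = g x * fatw W u e x d * (g (x + d • eT e))ᴴ := by
  have hx : ∀ d : ℕ, x + d • eT e = st e x d 0 0 := fun d => by unfold st; simp
  rw [hx]
  induction d with
  | zero =>
    have h1 : fatw W u e x 0 = 1 := rfl
    have h2 : fatw W u' e x 0 = 1 := rfl
    rw [h1, h2, st_zero, Matrix.mul_one, (hg x).r]
  | succ d ih =>
    have h1 : ∀ v : Ed 3 l → Mat k, fatw W v e x (d + 1) = fatw W v e x d *
      slice (W d) (VV v e x R d) fun z => Cc v e x R d z * vv v e x R d z *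
        (Cc v e x R (d + 1) z)ᴴ := fun v => rfl
    have h2 : (slice (W d) (VV u' e x R d) fun z => Cc u' e x R d z * vv u' e x R d z *
        (Cc u' e x R (d + 1) z)ᴴ) = g (st e x d 0 0) *
        (slice (W d) (VV u e x R d) fun z => Cc u e x R d z * vv u e x R d z *
        (Cc u e x R (d + 1) z)ᴴ) * (g (st e x (d + 1) 0 0))ᴴ := by
      refine slice_cov hg hu (W d) (hg _) (hg _) ?_ fun z => ?_
      · unfold VV
        rw [hu, lg_zero hR]
        dsimp only
        rw [st_succ]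
      · have hz := z.2.2
        have c1 : Cc u' e x R d z = g (st e x d 0 0) * Cc u e x R d z *
          (g (st e x d (pa R z.2 z.1) (pb R z.2 z.1)))ᴴ := pc_cov hg hu e x hz d z.1
        have c2 : Cc u' e x R (d + 1) z = g (st e x (d + 1) 0 0) * Cc u e x R (d + 1) z *
          (g (st e x (d + 1) (pa R z.2 z.1) (pb R z.2 z.1)))ᴴ := pc_cov hg hu e x hz (d + 1) z.1
        have c3 : vv u' e x R d z = g (st e x d (pa R z.2 z.1) (pb R z.2 z.1)) *
            vv u e x R d z * (g (st e x (d + 1) (pa R z.2 z.1) (pb R z.2 z.1)))ᴴ := by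
          unfold vv
          rw [hu]
          have : (lg e x R d z.2 z.1).1 = st e x d (pa R z.2 z.1) (pb R z.2 z.1) := rfl
          rw [this]
          have : (lg e x R d z.2 z.1).2 = e := rfl
          rw [this, st_succ]
        set p := st e x d (pa R z.2 z.1) (pb R z.2 z.1)
        set q := st e x (d + 1) (pa R z.2 z.1) (pb R z.2 z.1)
        rw [c1, c2, c3, conjTranspose_mul, conjTranspose_mul, conjTranspose_conjTranspose]
        calc g (st e x d 0 0) * Cc u e x R d z * (g p)ᴴ * (g p * vv u e x R d z * (g q)ᴴ) *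
              (g q * ((Cc u e x R (d + 1) z)ᴴ * (g (st e x (d + 1) 0 0))ᴴ))
            = g (st e x d 0 0) * Cc u e x R d z * ((g p)ᴴ * g p) * vv u e x R d z *
              ((g q)ᴴ * g q) * (Cc u e x R (d + 1) z)ᴴ * (g (st e x (d + 1) 0 0))ᴴ := by
              simp only [Matrix.mul_assoc]
          _ = _ := by
              rw [(hg p).l, (hg q).l, Matrix.mul_one, Matrix.mul_one]
              simp only [Matrix.mul_assoc]
    rw [h1, h1, h2, ih]
    set P := g (st e x d 0 0)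
    set S := slice (W d) (VV u e x R d) fun z => Cc u e x R d z * vv u e x R d z *
        (Cc u e x R (d + 1) z)ᴴ
    have hP : Un P := hg _
    calc g x * fatw W u e x d * Pᴴ * (P * S * (g (st e x (d + 1) 0 0))ᴴ)
        = g x * fatw W u e x d * (Pᴴ * P) * S * (g (st e x (d + 1) 0 0))ᴴ := by
          simp only [Matrix.mul_assoc]
      _ = _ := by rw [hP.l, Matrix.mul_one]; simp only [Matrix.mul_assoc]

lemma fat_cov (e : Fin 3) (x : Fin 3 → ZMod l) {R : ℕ} (hR : 1 ≤ R) (d : ℕ) :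
    fat u' e x R d = g x * fat u e x R d * (g (x + d • eT e))ᴴ :=
  fatw_cov hg hu _ e x hR d

end cov

end

end Pool.Agent.Y13.YM
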