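import Mathlib
import Pool.Agent.Y13.YM.Fat

/-!
# The gradient of the fat string
-/

open MeasureTheory Matrix
open scoped Matrix.Norms.Frobenius ContDiff

namespace Pool.Agent.Y13.YM

open Pool.Agent.H906R3.YM (Mat Ed eT)

set_option linter.unusedSectionVars false

noncomputable section

variable {k l : ℕ}

/-- deviation of a transporter of the fat string -/
def eta (u : Ed 3 l → Mat k) (e : Fin 3) (x : Fin 3 → ZMod l) (R i : ℕ) (z : Fin R × Fin R) : ℝ :=
  ‖Cc u e x R i z * vv u e x R i z * (Cc u e x R (i + 1) z)ᴴ - VV u e x R i‖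

/-- mean deviation -/
def del (u : Ed 3 l → Mat k) (e : Fin 3) (x : Fin 3 → ZMod l) (R d i : ℕ) : ℝ :=
  ∑ z, wR R (rd R d i) z * eta u e x R i z

/-- total deviation -/
def SS (u : Ed 3 l → Mat k) (e : Fin 3) (x : Fin 3 → ZMod l) (R d : ℕ) : ℝ :=
  ∑ i ∈ Finset.range d, ∑ z, wR R (rd R d i) z * eta u e x R i z ^ 2

lemma eta_nonneg (u : Ed 3 l → Mat k) (e : Fin 3) (x : Fin 3 → ZMod l) (R i : ℕ)
    (z : Fin R × Fin R) : 0 ≤ eta u e x R i z := norm_nonneg _

lemma del_nonneg (u : Ed 3 l → Mat k) (e : Fin 3) (x : Fin 3 → ZMod l) (R d i : ℕ) :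
    0 ≤ del u e x R d i :=
  Finset.sum_nonneg fun z _ => mul_nonneg (wR_nonneg R _ z) (eta_nonneg _ _ _ _ _ _)

lemma eta_le {u : Ed 3 l → Mat k} (hu : ∀ e, Un (u e)) (e : Fin 3) (x : Fin 3 → ZMod l)
    (R i : ℕ) (z : Fin R × Fin R) : eta u e x R i z ≤ 2 * Real.sqrt k :=
  norm_un_sub (((pc_un hu _ _).mul (hu _)).mul (pc_un hu _ _).ct) (hu _)

lemma wrd_sum {R : ℕ} (hR : 1 ≤ R) (d i : ℕ) : ∑ z, wR R (rd R d i) z = 1 :=
  wR_sum (rd_ge hR) (rd_le R d i)

lemma del_le {u : Ed 3 l → Mat k} (hu : ∀ e, Un (u e)) (e : Fin 3) (x : Fin 3 → ZMod l)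
    {R : ℕ} (hR : 1 ≤ R) (d i : ℕ) : del u e x R d i ≤ 2 * Real.sqrt k := by
  unfold del
  refine (Finset.sum_le_sum fun z _ => mul_le_mul_of_nonneg_left (eta_le hu e x R i z)
    (wR_nonneg R _ z)).trans (le_of_eq ?_)
  rw [← Finset.sum_mul, wrd_sum hR, one_mul]

lemma del_sq_le (u : Ed 3 l → Mat k) (e : Fin 3) (x : Fin 3 → ZMod l) {R : ℕ} (hR : 1 ≤ R)
    (d i : ℕ) : del u e x R d i ^ 2 ≤ ∑ z, wR R (rd R d i) z * eta u e x R i z ^ 2 := by
  have h := Finset.sum_mul_sq_le_sq_mul_sq Finset.univ (fun z => Real.sqrt (wR R (rd R d i) z))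
    (fun z => Real.sqrt (wR R (rd R d i) z) * eta u e x R i z)
  have e1 : ∀ z, Real.sqrt (wR R (rd R d i) z) * (Real.sqrt (wR R (rd R d i) z) *
      eta u e x R i z) = wR R (rd R d i) z * eta u e x R i z := fun z => by
    rw [← mul_assoc, Real.mul_self_sqrt (wR_nonneg R _ z)]
  have e2 : ∀ z, Real.sqrt (wR R (rd R d i) z) ^ 2 = wR R (rd R d i) z :=
    fun z => Real.sq_sqrt (wR_nonneg R _ z)
  have e3 : ∀ z, (Real.sqrt (wR R (rd R d i) z) * eta u e x R i z) ^ 2 =
      wR R (rd R d i) z * eta u e x R i z ^ 2 :=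
    fun z => by rw [mul_pow, e2]
  simp only [e1, e2, e3] at h
  rw [wrd_sum hR, one_mul] at h
  exact h

/-- mean of the square of a combination of the deviations -/
lemma mean_sq (u : Ed 3 l → Mat k) (e : Fin 3) (x : Fin 3 → ZMod l) {R : ℕ} (hR : 1 ≤ R)
    (d i : ℕ) (a b : ℝ) :
    ∑ z, wR R (rd R d i) z * (a * del u e x R d i + b * eta u e x R i z) ^ 2 ≤
      (2 * a ^ 2 + 2 * b ^ 2) * ∑ z, wR R (rd R d i) z * eta u e x R i z ^ 2 := by
  have h1 : ∀ z, wR R (rd R d i) z * (a * del u e x R d i + b * eta u e x R i z) ^ 2 ≤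
      (2 * a ^ 2 * del u e x R d i ^ 2) * wR R (rd R d i) z +
        2 * b ^ 2 * (wR R (rd R d i) z * eta u e x R i z ^ 2) := by
    intro z
    have h2 : (a * del u e x R d i + b * eta u e x R i z) ^ 2 ≤
        2 * a ^ 2 * del u e x R d i ^ 2 + 2 * b ^ 2 * eta u e x R i z ^ 2 := by
      nlinarith [sq_nonneg (a * del u e x R d i - b * eta u e x R i z)]
    have h3 := mul_le_mul_of_nonneg_left h2 (wR_nonneg R (rd R d i) z)
    linarith
  refine (Finset.sum_le_sum fun z _ => h1 z).trans ?_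
  rw [Finset.sum_add_distrib, ← Finset.mul_sum, ← Finset.mul_sum, wrd_sum hR, mul_one]
  have h4 := mul_le_mul_of_nonneg_left (del_sq_le u e x hR d i)
    (show 0 ≤ 2 * a ^ 2 by positivity)
  linarith

lemma five_sq (a b c d e : ℝ) : (a + b + c + d + e) ^ 2 ≤
    5 * (a ^ 2 + b ^ 2 + c ^ 2 + d ^ 2 + e ^ 2) := by
  nlinarith [sq_nonneg (a - b), sq_nonneg (a - c), sq_nonneg (a - d), sq_nonneg (a - e),
    sq_nonneg (b - c), sq_nonneg (b - d), sq_nonneg (b - e), sq_nonneg (c - d),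
    sq_nonneg (c - e), sq_nonneg (d - e)]

/-- the flux moved between two slices -/
lemma rearr {u : Ed 3 l → Mat k} (hu : ∀ e, Un (u e)) (e : Fin 3) (x : Fin 3 → ZMod l)
    (R i r r' : ℕ) (f : Ed 3 l) (Y : Mat k) :
    ‖∑ z, (wR R r' z - wR R r z) • Xp u (pl e x R i z.2) f Y z.1‖ ≤
      ‖Y‖ * ∑ θ : Fin R, ∑ t : Fin R,
        if pl e x R i θ t = f then |mo R r' t - mo R r t| / R else 0 := by
  classical
  have h1 : ∑ z, (wR R r' z - wR R r z) • Xp u (pl e x R i z.2) f Y z.1 =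
      ∑ θ : Fin R, ∑ t : Fin R, ((mo R r' t - mo R r t) / R) •
        (if pl e x R i θ t = f then pc u (pl e x R i θ) t * Y * (pc u (pl e x R i θ) t)ᴴ
          else 0) := by
    rw [Fintype.sum_prod_type, Finset.sum_comm]
    refine Finset.sum_congr rfl fun θ _ => ?_
    have h2 : ∀ τ : Fin R, Xp u (pl e x R i θ) f Y τ = ∑ t : Fin R, if (t : ℕ) < τ then
        (if pl e x R i θ t = f then pc u (pl e x R i θ) t * Y * (pc u (pl e x R i θ) t)ᴴ
          else 0) else 0 := by
      intro τ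
      unfold Xp
      rw [Fin.sum_univ_eq_sum_range (fun t => if t < (τ : ℕ) then
        (if pl e x R i θ t = f then pc u (pl e x R i θ) t * Y * (pc u (pl e x R i θ) t)ᴴ
          else 0) else 0) R]
      have e4 : Finset.range (τ : ℕ) = (Finset.range R).filter fun t => t < (τ : ℕ) := by
        ext t
        have := τ.2
        simp only [Finset.mem_range, Finset.mem_filter]
        omega
      rw [e4, Finset.sum_filter]
    have h3 : ∀ τ : Fin R, (wR R r' (τ, θ) - wR R r (τ, θ)) • Xp u (pl e x R i θ) f Y τ =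
        ∑ t : Fin R, (if (t : ℕ) < τ then (om r' τ - om r τ) / R else 0) •
        (if pl e x R i θ t = f then pc u (pl e x R i θ) t * Y * (pc u (pl e x R i θ) t)ᴴ
          else 0) := by
      intro τ
      rw [h2, Finset.smul_sum]
      refine Finset.sum_congr rfl fun t _ => ?_
      unfold wR
      dsimp only
      by_cases h : (t : ℕ) < τ
      · rw [if_pos h, if_pos h, sub_div]
      · rw [if_neg h, if_neg h, smul_zero, zero_smul]
    refine (Finset.sum_congr rfl fun τ _ => h3 τ).trans ?_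
    rw [Finset.sum_comm]
    refine Finset.sum_congr rfl fun t _ => ?_
    rw [← Finset.sum_smul]
    congr 1
    unfold mo
    rw [← Finset.sum_sub_distrib, Finset.sum_div,
      ← Fin.sum_univ_eq_sum_range (fun τ => ((if (t : ℕ) < τ then om r' τ else 0) -
        if (t : ℕ) < τ then om r τ else 0) / (R : ℝ)) R]
    refine Finset.sum_congr rfl fun τ _ => ?_
    split_ifs
    · rfl
    · simp
  rw [h1]
  refine (norm_sum_le _ _).trans ?_
  rw [Finset.mul_sum]
  refine Finset.sum_le_sum fun θ _ => ?_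
  refine (norm_sum_le _ _).trans ?_
  rw [Finset.mul_sum]
  refine Finset.sum_le_sum fun t _ => ?_
  rw [norm_smul]
  split_ifs
  · rw [norm_ad (pc_un hu _ _), Real.norm_eq_abs, abs_div, Nat.abs_cast, mul_comm]
  · simp

/-- first bound of the derivative -/
lemma fat_deriv {u : Ed 3 l → Mat k} {c : Ed 3 l → ℝ → Mat k} {f : Ed 3 l}
    (hc : ∀ e s, Un (c e s)) (hc0 : ∀ e, c e 0 = u e) {Y : Mat k}
    (hd : ∀ e, HasDerivAt (c e) (if e = f then Y * c e 0 else 0) 0)
    (e : Fin 3) (x : Fin 3 → ZMod l) {R : ℕ} (hR : 1 ≤ R) (d : ℕ) :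
    ∃ F' : Mat k, HasDerivAt (fun s => fat (fun e' => c e' s) e x R d) F' 0 ∧
      ‖F'‖ ≤ ‖Y‖ * (
        ∑ i ∈ Finset.range d, ∑ z, wR R (rd R d i) z *
          ((4 * del u e x R d i + 3 * eta u e x R i z) * cnt (pl e x R (i + 1) z.2) f z.1) +
        ∑ i ∈ Finset.range d, ∑ z, wR R (rd R d i) z *
          ((2 * del u e x R d i + 1 * eta u e x R i z) * cnt (pl e x R i z.2) f z.1) +
        ∑ i ∈ Finset.range d, ∑ z, wR R (rd R d i) z *
          ((1 + 2 * del u e x R d i + eta u e x R i z) *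
          if lg e x R i z.2 z.1 = f then 1 else 0) +
        ∑ i ∈ Finset.range d, (3 * del u e x R d i) * (if lg e x R i 0 0 = f then 1 else 0) +
        ∑ i ∈ Finset.range d, ∑ θ : Fin R, ∑ t : Fin R,
          if pl e x R (i + 1) θ t = f then
            |mo R (rd R d (i + 1)) t - mo R (rd R d i) t| / R else 0) := by
  have hu : (fun e => c e 0) = u := funext hc0
  obtain ⟨F', h1, h2⟩ := run_deriv (w := fun i => wR R (rd R d i))
    (fun i => wR_nonneg R _) (fun i => wrd_sum hR d i)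
    (C := fun i z s => Cc (fun e => c e s) e x R i z)
    (v := fun i z s => vv (fun e => c e s) e x R i z)
    (V := fun i s => VV (fun e => c e s) e x R i) (t := 0)
    (Xi := fun i z => Xp u (pl e x R i z.2) f Y z.1)
    (ka := fun i z => if lg e x R i z.2 z.1 = f then Y else 0)
    (th := fun i => if lg e x R i 0 0 = f then Y else 0)
    (fun i z s => pc_un (fun e => hc e s) _ _) (fun i z s => hc _ s) (fun i s => hc _ s)
    (fun i z => by
      have := pc_deriv (e := f) hc hd (pl e x R i z.2) z.1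
      rw [hu] at this
      have h0 : Cc (fun e => c e 0) e x R i z = pc u (pl e x R i z.2) z.1 := by
        rw [hu]; rfl
      rw [h0]
      exact this)
    (fun i z => by
      refine (hd (lg e x R i z.2 z.1)).congr_deriv ?_
      split_ifs
      · rfl
      · simp)
    (fun i => by
      refine (hd (lg e x R i 0 0)).congr_deriv ?_
      split_ifs
      · rfl
      · simp) d
  refine ⟨F', h1, h2.trans ?_⟩
  have hdl : ∀ i, dl (fun i => wR R (rd R d i)) (fun i z s => Cc (fun e => c e s) e x R i z)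
      (fun i z s => vv (fun e => c e s) e x R i z) (fun i s => VV (fun e => c e s) e x R i) i 0 =
      del u e x R d i := fun i => by
    unfold dl dev del eta tp
    dsimp only
    rw [hu]
  have het : ∀ i z, et (fun i z s => Cc (fun e => c e s) e x R i z)
      (fun i z s => vv (fun e => c e s) e x R i z) (fun i s => VV (fun e => c e s) e x R i) i z 0 =
      eta u e x R i z := fun i z => by
    unfold et eta tp
    dsimp only
    rw [hu]
  have hun : ∀ e, Un (u e) := fun e => by rw [← hc0]; exact hc e 0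
  simp only [hdl, het]
  have hX : ∀ i (z : Fin R × Fin R), ‖Xp u (pl e x R i z.2) f Y z.1‖ ≤
      ‖Y‖ * cnt (pl e x R i z.2) f z.1 := fun i z => norm_Xp hun _ _ _ _
  have hka : ∀ i (z : Fin R × Fin R), ‖(if lg e x R i z.2 z.1 = f then Y else 0 : Mat k)‖ =
      ‖Y‖ * if lg e x R i z.2 z.1 = f then 1 else 0 := fun i z => by
    split_ifs <;> simp
  have hth : ∀ i, ‖(if lg e x R i 0 0 = f then Y else 0 : Mat k)‖ =
      ‖Y‖ * if lg e x R i 0 0 = f then 1 else 0 := fun i => by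
    split_ifs <;> simp
  -- no flux at the end points
  have t1 : ∀ m, ∀ i, rd R d i = 1 →
      ‖∑ z, wR R (rd R d i) z • Xp u (pl e x R m z.2) f Y z.1‖ = 0 := by
    intro m i hi
    rw [hi, norm_eq_zero]
    refine Finset.sum_eq_zero fun z _ => ?_
    rcases Nat.eq_zero_or_pos (z.1 : ℕ) with h | h
    · rw [h]
      have : Xp u (pl e x R m z.2) f Y 0 = 0 := by simp [Xp]
      rw [this, smul_zero]
    · have : wR R 1 z = 0 := by
        unfold wR om
        rw [if_neg (by omega), zero_div]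
      rw [this, zero_smul]
  have t0 := t1 0 0 (rd_zero hR)
  have td := t1 d d (rd_end hR)
  rw [t0, td, zero_add, zero_add]
  rw [← Finset.sum_add_distrib, ← Finset.sum_add_distrib, ← Finset.sum_add_distrib,
      ← Finset.sum_add_distrib, Finset.mul_sum]
  refine Finset.sum_le_sum fun i _ => ?_
  rw [mul_add]
  refine add_le_add ?_ (rearr hun e x R (i + 1) _ _ f Y)
  rw [← Finset.sum_add_distrib, ← Finset.sum_add_distrib, mul_add, Finset.mul_sum, hth]
  refine add_le_add (Finset.sum_le_sum fun z _ => ?_) (le_of_eq (by ring))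
  rw [hka]
  have a0 := del_nonneg u e x R d i
  have a1 := eta_nonneg u e x R i z
  have a2 := mul_le_mul_of_nonneg_left (hX (i + 1) z)
    (show 0 ≤ 4 * del u e x R d i + 3 * eta u e x R i z by positivity)
  have a3 := mul_le_mul_of_nonneg_left (hX i z)
    (show 0 ≤ 2 * del u e x R d i + eta u e x R i z by positivity)
  have a4 := add_le_add a2 a3
  have a5 := mul_le_mul_of_nonneg_left a4 (wR_nonneg R (rd R d i) z)
  linarith

variable [NeZero l]

/-- The square integral of the derivatives. -/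
theorem fat_grad {u : Ed 3 l → Mat k} {c : Ed 3 l → Ed 3 l → ℝ → Mat k}
    (hc : ∀ f e s, Un (c f e s)) (hc0 : ∀ f e, c f e 0 = u e) {Y : Mat k}
    (hd : ∀ f e, HasDerivAt (c f e) (if e = f then Y * c f e 0 else 0) 0)
    (e : Fin 3) (x : Fin 3 → ZMod l) {R : ℕ} (hR : 1 ≤ R) (hRl : R ≤ l) {d : ℕ} (hdl : d < l) :
    ∃ F' : Ed 3 l → Mat k,
      (∀ f, HasDerivAt (fun s => fat (fun e' => c f e' s) e x R d) (F' f) 0) ∧
      ∑ f, ‖F' f‖ ^ 2 ≤ 5 * ‖Y‖ ^ 2 * (65 * Hm R * SS u e x R d +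
        16 * (1 + 6 * Real.sqrt k) ^ 2 * (1 + d / (R : ℝ) ^ 2)) := by
  have h0 := fun f => fat_deriv (u := u) (hc f) (hc0 f) (hd f) e x hR d
  choose F' h1 h2 using h0
  refine ⟨F', h1, ?_⟩
  have hun : ∀ e, Un (u e) := fun e' => by rw [← hc0 e' e']; exact hc e' e' 0
  -- the five pieces
  obtain ⟨T3, hT3⟩ : ∃ T : Ed 3 l → ℝ, T = fun f => ∑ i ∈ Finset.range d,
    ∑ z, wR R (rd R d i) z *
    ((4 * del u e x R d i + 3 * eta u e x R i z) * cnt (pl e x R (i + 1) z.2) f z.1) := ⟨_, rfl⟩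
  obtain ⟨T4, hT4⟩ : ∃ T : Ed 3 l → ℝ, T = fun f => ∑ i ∈ Finset.range d,
    ∑ z, wR R (rd R d i) z *
    ((2 * del u e x R d i + 1 * eta u e x R i z) * cnt (pl e x R i z.2) f z.1) := ⟨_, rfl⟩
  obtain ⟨T5, hT5⟩ : ∃ T : Ed 3 l → ℝ, T = fun f => ∑ i ∈ Finset.range d,
    ∑ z, wR R (rd R d i) z *
    ((1 + 2 * del u e x R d i + eta u e x R i z) * if lg e x R i z.2 z.1 = f then 1 else 0) :=
    ⟨_, rfl⟩
  obtain ⟨T6, hT6⟩ : ∃ T : Ed 3 l → ℝ, T = fun f => ∑ i ∈ Finset.range d,
    (3 * del u e x R d i) * if lg e x R i 0 0 = f then 1 else 0 := ⟨_, rfl⟩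
  obtain ⟨T7, hT7⟩ : ∃ T : Ed 3 l → ℝ, T = fun f => ∑ i ∈ Finset.range d,
    ∑ θ : Fin R, ∑ t : Fin R, if pl e x R (i + 1) θ t = f then
      |mo R (rd R d (i + 1)) t - mo R (rd R d i) t| / R else 0 := ⟨_, rfl⟩
  have h3 : ∀ f, ‖F' f‖ ^ 2 ≤ ‖Y‖ ^ 2 * (5 * (T3 f ^ 2 + T4 f ^ 2 +
      T5 f ^ 2 + T6 f ^ 2 + T7 f ^ 2)) := by
    intro f
    have h4 := h2 f
    have h5 : ‖F' f‖ ≤ ‖Y‖ * (T3 f + T4 f + T5 f + T6 f + T7 f) := by
      rw [hT3, hT4, hT5, hT6, hT7]; exact h4
    have h6 := pow_le_pow_left₀ (norm_nonneg _) h5 2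
    rw [mul_pow] at h6
    exact h6.trans (mul_le_mul_of_nonneg_left (five_sq _ _ _ _ _) (sq_nonneg _))
  have hH := Hm_ge hR
  have hS0 : 0 ≤ SS u e x R d := Finset.sum_nonneg fun i _ => Finset.sum_nonneg fun z _ =>
    mul_nonneg (wR_nonneg R _ z) (sq_nonneg _)
  have homs : ∀ i : Fin d, ∑ τ ∈ Finset.range R, om (rd R d i) τ ≤ 1 := fun i =>
    (om_all (rd_ge hR) (rd_le R d i)).le
  have b3 : ∑ f, T3 f ^ 2 ≤ 50 * Hm R * SS u e x R d := by
    have h4 := trans_schur (I := Fin d) (ν := fun i => (i : ℕ) + 1)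
      (fun i j h => Fin.ext (by simpa using h)) hRl (fun i => by have := i.2; omega) e x
      (q := fun i τ => om (rd R d i) τ) (fun i τ => om_nonneg _ _) homs
      (fun i z => 4 * del u e x R d i + 3 * eta u e x R i z)
    have e1 : ∀ f, T3 f = ∑ i : Fin d, ∑ z : Fin R × Fin R, om (rd R d i) z.1 / R *
        ((4 * del u e x R d i + 3 * eta u e x R i z) * cnt (pl e x R (i + 1) z.2) f z.1) := by
      intro f
      rw [hT3]
      exact Finset.sum_range fun i => ∑ z, wR R (rd R d i) z *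
        ((4 * del u e x R d i + 3 * eta u e x R i z) * cnt (pl e x R (i + 1) z.2) f z.1)
    simp only [e1]
    refine h4.trans ?_
    have e2 : ∑ i : Fin d, ∑ z : Fin R × Fin R, om (rd R d i) z.1 / R *
        (4 * del u e x R d i + 3 * eta u e x R i z) ^ 2 ≤ 50 * SS u e x R d := by
      unfold SS
      rw [Finset.sum_range, Finset.mul_sum]
      refine Finset.sum_le_sum fun i _ => ?_
      refine (mean_sq u e x hR d i 4 3).trans (le_of_eq ?_)
      norm_num
    have := mul_le_mul_of_nonneg_left e2 (show 0 ≤ Hm R by linarith)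
    linarith
  have b4 : ∑ f, T4 f ^ 2 ≤ 10 * Hm R * SS u e x R d := by
    have h4 := trans_schur (I := Fin d) (ν := fun i => (i : ℕ))
      (fun i j h => Fin.ext h) hRl (fun i => by have := i.2; omega) e x
      (q := fun i τ => om (rd R d i) τ) (fun i τ => om_nonneg _ _) homs
      (fun i z => 2 * del u e x R d i + 1 * eta u e x R i z)
    have e1 : ∀ f, T4 f = ∑ i : Fin d, ∑ z : Fin R × Fin R, om (rd R d i) z.1 / R *
        ((2 * del u e x R d i + 1 * eta u e x R i z) * cnt (pl e x R i z.2) f z.1) := by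
      intro f
      rw [hT4]
      exact Finset.sum_range fun i => ∑ z, wR R (rd R d i) z *
        ((2 * del u e x R d i + 1 * eta u e x R i z) * cnt (pl e x R i z.2) f z.1)
    simp only [e1]
    refine h4.trans ?_
    have e2 : ∑ i : Fin d, ∑ z : Fin R × Fin R, om (rd R d i) z.1 / R *
        (2 * del u e x R d i + 1 * eta u e x R i z) ^ 2 ≤ 10 * SS u e x R d := by
      unfold SS
      rw [Finset.sum_range, Finset.mul_sum]
      refine Finset.sum_le_sum fun i _ => ?_
      refine (mean_sq u e x hR d i 2 1).trans (le_of_eq ?_)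
      norm_num
    have := mul_le_mul_of_nonneg_left e2 (show 0 ≤ Hm R by linarith)
    linarith
  have b5 : ∑ f, T5 f ^ 2 ≤ (1 + 6 * Real.sqrt k) ^ 2 * (8 + 4 * (d / (R : ℝ) ^ 2)) := by
    have h4 := long_schur (I := Fin d) (ν := fun i => (i : ℕ))
      (fun i j h => Fin.ext h) hRl (fun i => by have := i.2; omega) e x
      (q := fun i τ => om (rd R d i) τ) (fun i τ => om_nonneg _ _)
      (fun i z => 1 + 2 * del u e x R d i + eta u e x R i z)
    have e1 : ∀ f, T5 f = ∑ i : Fin d, ∑ z : Fin R × Fin R, om (rd R d i) z.1 / R *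
        ((1 + 2 * del u e x R d i + eta u e x R i z) *
          if lg e x R i z.2 z.1 = f then 1 else 0) := by
      intro f
      rw [hT5]
      exact Finset.sum_range fun i => ∑ z, wR R (rd R d i) z *
        ((1 + 2 * del u e x R d i + eta u e x R i z) * if lg e x R i z.2 z.1 = f then 1 else 0)
    simp only [e1]
    refine h4.trans ?_
    have hR0 : (0 : ℝ) < R := by exact_mod_cast hR
    have e2 : ∀ (i : Fin d) (z : Fin R × Fin R), om (rd R d i) z.1 / R *
        (2 * om (rd R d i) z.1 / ((z.1 : ℕ) + 1)) *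
          (1 + 2 * del u e x R d i + eta u e x R i z) ^ 2 ≤
        om (rd R d i) z.1 / R * (2 * om (rd R d i) z.1 / ((z.1 : ℕ) + 1)) *
          (1 + 6 * Real.sqrt k) ^ 2 := by
      intro i z
      have p := om_nonneg (rd R d i) z.1
      refine mul_le_mul_of_nonneg_left ?_ (by positivity)
      have a0 := del_nonneg u e x R d i
      have a1 := eta_nonneg u e x R i z
      have a2 := del_le hun e x hR d i
      have a3 := eta_le hun e x R i z
      exact pow_le_pow_left₀ (by positivity) (by linarith) 2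
    refine (Finset.sum_le_sum fun i _ => Finset.sum_le_sum fun z _ => e2 i z).trans ?_
    have e3 : ∀ i : Fin d, ∑ z : Fin R × Fin R, om (rd R d i) z.1 / R *
        (2 * om (rd R d i) z.1 / ((z.1 : ℕ) + 1)) * (1 + 6 * Real.sqrt k) ^ 2 =
        (1 + 6 * Real.sqrt k) ^ 2 * (4 / ((rd R d i : ℝ) * (rd R d i + 1))) := by
      intro i
      rw [← om_sq_sum (rd_ge hR) (rd_le R d i), ← Finset.sum_mul, mul_comm]
      congr 1
      rw [Fintype.sum_prod_type,
        ← Fin.sum_univ_eq_sum_range (fun τ => 2 * om (rd R d i) τ ^ 2 / ((τ : ℝ) + 1)) R]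
      refine Finset.sum_congr rfl fun τ _ => ?_
      dsimp only
      rw [Finset.sum_const, Finset.card_univ, Fintype.card_fin, nsmul_eq_mul]
      field_simp
    rw [Finset.sum_congr rfl fun i _ => e3 i, ← Finset.mul_sum]
    refine mul_le_mul_of_nonneg_left ?_ (sq_nonneg _)
    rw [Fin.sum_univ_eq_sum_range (fun i => 4 / ((rd R d i : ℝ) * (rd R d i + 1))) d]
    exact long_sum hR d
  have b6 : ∑ f, T6 f ^ 2 ≤ 9 * SS u e x R d := by
    have h4 := thin_schur (I := Fin d) (ν := fun i => (i : ℕ))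
      (fun i j h => Fin.ext h) hRl (fun i => by have := i.2; omega) e x (by omega)
      (fun i => 3 * del u e x R d i)
    have e1 : ∀ f, T6 f = ∑ i : Fin d, (3 * del u e x R d i) *
        if lg e x R i 0 0 = f then 1 else 0 := by
      intro f
      rw [hT6]
      exact Finset.sum_range fun i => (3 * del u e x R d i) * if lg e x R i 0 0 = f then 1 else 0
    simp only [e1]
    refine h4.trans ?_
    unfold SS
    rw [Finset.sum_range, Finset.mul_sum]
    refine Finset.sum_le_sum fun i _ => ?_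
    have := del_sq_le u e x hR d i
    nlinarith
  have b7 : ∑ f, T7 f ^ 2 ≤ 8 := by
    have h4 := diff_schur (I := Fin d) (ν := fun i => (i : ℕ) + 1)
      (fun i j h => Fin.ext (by simpa using h)) hRl (fun i => by have := i.2; omega) e x
      (δ := fun i t => |mo R (rd R d (i + 1)) t - mo R (rd R d i) t|) (fun i t => abs_nonneg _)
    have e1 : ∀ f, T7 f = ∑ i : Fin d, ∑ θ : Fin R, ∑ t : Fin R,
        if pl e x R (i + 1) θ t = f then
          |mo R (rd R d (i + 1)) t - mo R (rd R d i) t| / R else 0 := by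
      intro f
      rw [hT7]
      exact Finset.sum_range fun i => ∑ θ : Fin R, ∑ t : Fin R,
        if pl e x R (i + 1) θ t = f then
          |mo R (rd R d (i + 1)) t - mo R (rd R d i) t| / R else 0
    simp only [e1]
    refine h4.trans ?_
    rw [Fin.sum_univ_eq_sum_range (fun i => ∑ t ∈ Finset.range R,
      2 * |mo R (rd R d (i + 1)) t - mo R (rd R d i) t| ^ 2 / ((t : ℝ) + 1)) d]
    exact steps_sum hR d
  refine (Finset.sum_le_sum fun f _ => h3 f).trans ?_
  rw [← Finset.mul_sum, ← Finset.mul_sum]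
  simp only [Finset.sum_add_distrib]
  have hHS : 9 * SS u e x R d ≤ 5 * Hm R * SS u e x R d := by
    have := mul_le_mul_of_nonneg_right (show (9 : ℝ) ≤ 5 * Hm R by linarith) hS0
    linarith
  have hc0 : (1 : ℝ) ≤ (1 + 6 * Real.sqrt k) ^ 2 := by
    have := Real.sqrt_nonneg (k : ℝ)
    nlinarith
  have hfin : ∑ f, T3 f ^ 2 + ∑ f, T4 f ^ 2 + ∑ f, T5 f ^ 2 +
      ∑ f, T6 f ^ 2 + ∑ f, T7 f ^ 2 ≤ 65 * Hm R * SS u e x R d +
        16 * (1 + 6 * Real.sqrt k) ^ 2 * (1 + d / (R : ℝ) ^ 2) := by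
    have e1 : 16 * (1 + 6 * Real.sqrt k) ^ 2 * (1 + d / (R : ℝ) ^ 2) =
        (1 + 6 * Real.sqrt k) ^ 2 * (8 + 4 * (d / (R : ℝ) ^ 2)) +
        8 * (1 + 6 * Real.sqrt k) ^ 2 + 12 * ((1 + 6 * Real.sqrt k) ^ 2 * (d / (R : ℝ) ^ 2)) := by
      ring
    have e2 : 0 ≤ (1 + 6 * Real.sqrt k) ^ 2 * (d / (R : ℝ) ^ 2) := by positivity
    rw [e1]
    linarith
  have := mul_le_mul_of_nonneg_left hfin (show 0 ≤ ‖Y‖ ^ 2 * 5 by positivity)
  linarith

end

end Pool.Agent.Y13.YM
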