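import Mathlib
import Pool.Agent.Y13.YM.Grad
import Pool.Agent.H906R3.YM.Trial

/-!
# Representations; the noise of the fat string is bounded by plaquette energies
-/

open MeasureTheory Matrix
open scoped Matrix.Norms.Frobenius ContDiff

namespace Pool.Agent.Y13.YM

open Pool.Agent.H906R3.YM (Mat Ed eT LD plqT we we_eq ip ip_apply)

set_option linter.unusedSectionVars false

noncomputable section

variable {G : Type*} [Group G] [TopologicalSpace G] {N n k l : ℕ} {L : LD G N n}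

/-- A smooth unitary representation. -/
structure RepD (L : LD G N n) (k : ℕ) where
  rep : G →* Mat k
  ext : Mat N → Mat k
  smooth : ContDiff ℝ ∞ ext
  ext_eq : ∀ g, rep g = ext (L.rho g)
  unit : ∀ g, Un (rep g)

lemma RepD.inv (P : RepD L k) (g : G) : P.rep g⁻¹ = (P.rep g)ᴴ := by
  have h1 : P.rep g⁻¹ * P.rep g = 1 := by rw [← map_mul, inv_mul_cancel, map_one]
  calc P.rep g⁻¹ = P.rep g⁻¹ * (P.rep g * (P.rep g)ᴴ) := by rw [(P.unit g).r, mul_one]
    _ = (P.rep g)ᴴ := by rw [← mul_assoc, h1, one_mul]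

/-- the derived representation on the basis -/
def RepD.Y (P : RepD L k) (a : Fin n) : Mat k := fderiv ℝ P.ext 1 (L.X a)

lemma RepD.deriv_ex (P : RepD L k) (a : Fin n) :
    HasDerivAt (fun t => P.rep (L.ex a t)) (P.Y a) 0 := by
  have h1 : (fun t => P.rep (L.ex a t)) = fun t => P.ext (L.rho (L.ex a t)) :=
    funext fun t => P.ext_eq _
  rw [h1]
  have h2 : HasFDerivAt P.ext (fderiv ℝ P.ext 1) (L.rho (L.ex a 0)) := by
    rw [L.ex_zero, map_one]
    exact (P.smooth.differentiable (by simp)).differentiableAt.hasFDerivAt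
  exact h2.comp_hasDerivAt (0 : ℝ) (L.deriv_ex a)

lemma RepD.skew (P : RepD L k) (a : Fin n) : (P.Y a)ᴴ = -P.Y a := by
  have h1 := skew_log (P.deriv_ex a) (fun s => P.unit _)
  rwa [L.ex_zero, map_one, conjTranspose_one, mul_one] at h1

/-- the link matrices in the representation -/
def RepD.cf (P : RepD L k) {E : Type*} (U : E → G) (e : E) : Mat k := P.rep (U e)

lemma RepD.cf_un (P : RepD L k) {E : Type*} (U : E → G) (e : E) : Un (P.cf U e) := P.unit _

/-- derivative of the link matrices -/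
lemma RepD.cf_deriv (P : RepD L k) {E : Type*} [Fintype E] [DecidableEq E] (U : E → G) (f e : E)
    (a : Fin n) : HasDerivAt (fun s => P.cf (L.shift f a s U) e)
      (if e = f then P.Y a * P.cf U e else 0) 0 := by
  unfold RepD.cf LD.shift
  split_ifs with h
  · subst h
    have h1 : (fun s => P.rep ((Pi.mulSingle e (L.ex a s) * U : E → G) e)) =
        fun s => P.rep (L.ex a s) * P.rep (U e) := by
      funext s; simp
    rw [h1]
    exact (P.deriv_ex a).mul_const _
  · have h1 : (fun s => P.rep ((Pi.mulSingle f (L.ex a s) * U : E → G) e)) =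
        fun _ => P.rep (U e) := by
      funext s
      rw [Pi.mul_apply, Pi.mulSingle_eq_of_ne h, one_mul]
    rw [h1]
    exact hasDerivAt_const _ _

lemma we_norm (g : G) : we L g = 1 / 2 * ‖L.rho g - 1‖ ^ 2 := by
  rw [norm_sub_rev, nsq, Pool.Agent.H906R3.YM.we_ip, ip_apply]

/-- the representation is Lipschitz -/
lemma RepD.lip (P : RepD L k) : ∃ κ : ℝ, 0 ≤ κ ∧ ∀ g, ‖P.rep g - 1‖ ^ 2 ≤ κ * we L g := by
  set K : Set (Mat N × Mat N) := Metric.closedBall 0 (Real.sqrt N) ×ˢ Metric.closedBall 0 1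
    with hK
  have hKc : IsCompact K := (isCompact_closedBall _ _).prod (isCompact_closedBall _ _)
  have hcont : Continuous fun p : Mat N × Mat N => ‖fderiv ℝ P.ext p.1 p.2‖ :=
    (P.smooth.continuous_fderiv_apply (by simp)).norm
  obtain ⟨C, hC⟩ := (hKc.image hcont).bddAbove
  have hC1 : ∀ M v : Mat N, ‖M‖ ≤ Real.sqrt N → ‖fderiv ℝ P.ext M v‖ ≤ C * ‖v‖ := by
    intro M v hM
    rcases eq_or_ne v 0 with h | h
    · rw [h]; simp
    · have hv : 0 < ‖v‖ := norm_pos_iff.2 h
      have h1 : ‖fderiv ℝ P.ext M (‖v‖⁻¹ • v)‖ ≤ C := by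
        refine hC ⟨(M, ‖v‖⁻¹ • v), ⟨mem_closedBall_zero_iff.2 hM, mem_closedBall_zero_iff.2 ?_⟩,
          rfl⟩
        rw [norm_smul, norm_inv, norm_norm, inv_mul_cancel₀ hv.ne']
      rw [map_smul, norm_smul, norm_inv, norm_norm, inv_mul_le_iff₀ hv] at h1
      linarith
  have hlip : ∀ g, ‖P.rep g - 1‖ ≤ C * ‖L.rho g - 1‖ := by
    intro g
    have hder : ∀ t ∈ Set.Icc (0 : ℝ) 1, HasDerivWithinAt
        (fun t : ℝ => P.ext (1 + t • (L.rho g - 1)))
        (fderiv ℝ P.ext (1 + t • (L.rho g - 1)) (L.rho g - 1)) (Set.Icc 0 1) t := by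
      intro t _
      have h2 : HasFDerivAt P.ext (fderiv ℝ P.ext (1 + t • (L.rho g - 1)))
          (1 + t • (L.rho g - 1)) :=
        (P.smooth.differentiable (by simp)).differentiableAt.hasFDerivAt
      have h3 : HasDerivAt (fun t : ℝ => 1 + t • (L.rho g - 1)) (L.rho g - 1) t := by
        have := ((hasDerivAt_id t).smul_const (L.rho g - 1)).const_add (1 : Mat N)
        rw [one_smul] at this
        exact this
      exact (h2.comp_hasDerivAt t h3).hasDerivWithinAt
    have h1 := norm_image_sub_le_of_norm_deriv_le_segment_01' hder (C := C * ‖L.rho g - 1‖)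
      (fun t ht => hC1 _ _ (by
        have e1 : (1 : Mat N) + t • (L.rho g - 1) = (1 - t) • 1 + t • L.rho g := by
          rw [smul_sub, sub_smul, one_smul]; abel
        rw [e1]
        refine (norm_add_le _ _).trans ?_
        rw [norm_smul, norm_smul, norm_un Un.one, norm_un (L.unit g : Un _),
          Real.norm_of_nonneg (by linarith [ht.2]), Real.norm_of_nonneg ht.1]
        linarith))
    simp only [one_smul, zero_smul, add_zero, add_sub_cancel] at h1
    rw [← P.ext_eq, ← map_one L.rho, ← P.ext_eq, map_one] at h1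
    rw [map_one] at h1
    exact h1
  refine ⟨2 * C ^ 2, by positivity, fun g => ?_⟩
  rw [we_norm]
  have h2 := pow_le_pow_left₀ (norm_nonneg _) (hlip g) 2
  rw [mul_pow] at h2
  linarith

/-- The noise of the fat string. -/
lemma eta_sq_le (P : RepD L k) {κ : ℝ} (hκ : ∀ g, ‖P.rep g - 1‖ ^ 2 ≤ κ * we L g)
    (U : Ed 3 l → G) (e : Fin 3) (x : Fin 3 → ZMod l) {R : ℕ} (i : ℕ)
    (z : Fin R × Fin R) : eta (P.cf U) e x R i z ^ 2 ≤
      R * ∑ t ∈ Finset.range R, κ * we L (plqT U (pl e x R i z.2 t).1 (pl e x R i z.2 t).2 e) := by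
  have hz := z.2.2
  have h1 := strip (u := P.cf U) (P.cf_un U) (v := fun t => P.cf U (lg e x R i z.2 t))
    (fun t => P.cf_un U _) (pl e x R i z.2) (pl e x R (i + 1) z.2) z.1
  have h0 : lg e x R i z.2 0 = lg e x R i 0 0 := by
    rw [lg_zero (by omega)]
    unfold lg
    rw [pa_zero hz, pb_zero]
  have h2 : eta (P.cf U) e x R i z = ‖pc (P.cf U) (pl e x R i z.2) z.1 *
      P.cf U (lg e x R i z.2 z.1) * (pc (P.cf U) (pl e x R (i + 1) z.2) z.1)ᴴ -
      P.cf U (lg e x R i z.2 0)‖ := by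
    rw [h0]; rfl
  rw [← h2] at h1
  have h3 : ∀ t, ‖P.cf U (pl e x R i z.2 t) * P.cf U (lg e x R i z.2 (t + 1)) *
      (P.cf U (pl e x R (i + 1) z.2 t))ᴴ * (P.cf U (lg e x R i z.2 t))ᴴ - 1‖ =
      ‖P.rep (plqT U (pl e x R i z.2 t).1 (pl e x R i z.2 t).2 e) - 1‖ := by
    intro t
    congr 2
    unfold RepD.cf plqT
    rw [map_mul, map_mul, map_mul, P.inv, P.inv]
    have e1 : (pl e x R i z.2 t).1 + eT (pl e x R i z.2 t).2 =
        (lg e x R i z.2 (t + 1)).1 := pl_next hz
    have e2 : ((pl e x R i z.2 t).1 + eT e, (pl e x R i z.2 t).2) = pl e x R (i + 1) z.2 t := by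
      refine Prod.ext ?_ rfl
      exact st_succ e x i _ _
    rw [e1, e2]
    rfl
  have h4 : eta (P.cf U) e x R i z ≤ ∑ t ∈ Finset.range (z.1 : ℕ),
      ‖P.rep (plqT U (pl e x R i z.2 t).1 (pl e x R i z.2 t).2 e) - 1‖ :=
    h1.trans (le_of_eq (Finset.sum_congr rfl fun t _ => h3 t))
  have h5 := pow_le_pow_left₀ (eta_nonneg _ _ _ _ _ _) h4 2
  have h6 := sq_sum_le_card_mul_sum_sq (s := Finset.range (z.1 : ℕ))
    (f := fun t => ‖P.rep (plqT U (pl e x R i z.2 t).1 (pl e x R i z.2 t).2 e) - 1‖)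
  rw [Finset.card_range] at h6
  refine h5.trans (h6.trans ?_)
  have hzR : ((z.1 : ℕ) : ℝ) ≤ R := by exact_mod_cast z.1.2.le
  have h7 : ∑ t ∈ Finset.range (z.1 : ℕ),
      ‖P.rep (plqT U (pl e x R i z.2 t).1 (pl e x R i z.2 t).2 e) - 1‖ ^ 2 ≤
      ∑ t ∈ Finset.range R, κ * we L (plqT U (pl e x R i z.2 t).1 (pl e x R i z.2 t).2 e) := by
    refine (Finset.sum_le_sum_of_subset_of_nonneg (Finset.range_mono z.1.2.le)
      fun _ _ _ => sq_nonneg _).trans ?_
    exact Finset.sum_le_sum fun t _ => hκ _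
  exact mul_le_mul hzR h7 (Finset.sum_nonneg fun _ _ => sq_nonneg _) (Nat.cast_nonneg _)

end

end Pool.Agent.Y13.YM
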