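import Mathlib
import Pool.Agent.Y13.YM.Noise
import Pool.Agent.H906R3.YM.E0inv

/-!
# The Haar measure of small balls is doubling; mean energy of one link
-/

open MeasureTheory Matrix
open scoped Matrix.Norms.Frobenius ContDiff ENNReal

namespace Pool.Agent.Y13.YM

open Pool.Agent.H906R3.YM

set_option linter.unusedSectionVars false
set_option maxHeartbeats 400000

noncomputable section

variable {G : Type*} [Group G] [TopologicalSpace G] {N n : ℕ} {L : LD G N n}
  [IsTopologicalGroup G] [CompactSpace G] [SecondCountableTopology G]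
  [MeasurableSpace G] [BorelSpace G] (μ : Measure G) [IsProbabilityMeasure μ]
  [μ.IsMulLeftInvariant]

/-- number of balls -/
def dbc (N : ℕ) : ℕ := 5 ^ Module.finrank ℝ (Mat N)

lemma norm_rho_sub (g h : G) : ‖L.rho (g⁻¹ * h) - 1‖ = ‖L.rho h - L.rho g‖ := by
  have h1 : L.rho (g⁻¹ * h) - 1 = (L.rho g)ᴴ * (L.rho h - L.rho g) := by
    rw [map_mul, L.rho_inv, mul_sub, L.unit']
  rw [h1, norm_ul (show Un (L.rho g)ᴴ from (show Un (L.rho g) from L.unit g).ct)]

/-- separated sets are small -/
lemma sep_card {r : ℝ} (hr : 0 < r) (s : Finset G) (hs : ∀ g ∈ s, ‖L.rho g - 1‖ < 2 * r)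
    (h : ∀ g ∈ s, ∀ g' ∈ s, g ≠ g' → r ≤ ‖L.rho g - L.rho g'‖) : s.card ≤ dbc N := by
  classical
  have hinj : Set.InjOn (fun g : G => (r⁻¹ • (L.rho g - 1) : Mat N)) s := by
    intro g hg g' hg' he
    by_contra hne
    have h1 := h g hg g' hg' hne
    have h2 : L.rho g - 1 = L.rho g' - 1 := by
      have h3 := congrArg (fun v : Mat N => r • v) he
      simpa [smul_smul, hr.ne'] using h3
    have h4 : L.rho g - L.rho g' = 0 := by
      have : L.rho g = L.rho g' := by simpa using h2
      rw [this, sub_self]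
    rw [h4, norm_zero] at h1
    linarith
  have h1 := Besicovitch.card_le_of_separated (E := Mat N)
    (s.image fun g => (r⁻¹ • (L.rho g - 1) : Mat N)) (by
      intro c hc
      obtain ⟨g, hg, rfl⟩ := Finset.mem_image.1 hc
      rw [norm_smul, norm_inv, Real.norm_of_nonneg hr.le, inv_mul_le_iff₀ hr]
      have := hs g hg
      linarith) (by
      intro c hc d hd hcd
      obtain ⟨g, hg, rfl⟩ := Finset.mem_image.1 hc
      obtain ⟨g', hg', rfl⟩ := Finset.mem_image.1 hd
      have hne : g ≠ g' := fun hh => hcd (by rw [hh])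
      rw [← smul_sub, norm_smul, norm_inv, Real.norm_of_nonneg hr.le, le_inv_mul_iff₀ hr,
        mul_one]
      have h2 : L.rho g - 1 - (L.rho g' - 1) = L.rho g - L.rho g' := by abel
      rw [h2]
      exact h g hg g' hg' hne)
  rw [Finset.card_image_of_injOn hinj] at h1
  exact h1

/-- doubling -/
lemma ball_dbl {r : ℝ} (hr : 0 < r) : μ {g : G | ‖L.rho g - 1‖ < 2 * r} ≤
    (dbc N : ℝ≥0∞) * μ {g : G | ‖L.rho g - 1‖ < r} := by
  classical
  -- a maximal separated set
  set A : Set ℕ := {m | ∃ s : Finset G, s.card = m ∧ (∀ g ∈ s, ‖L.rho g - 1‖ < 2 * r) ∧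
    ∀ g ∈ s, ∀ g' ∈ s, g ≠ g' → r ≤ ‖L.rho g - L.rho g'‖} with hA
  have hne : A.Nonempty := ⟨0, ∅, by simp⟩
  have hbd : BddAbove A := by
    refine ⟨dbc N, ?_⟩
    rintro m ⟨s, rfl, h1, h2⟩
    exact sep_card hr s h1 h2
  obtain ⟨s, hs, h1, h2⟩ := Nat.sSup_mem hne hbd
  have hcov : {g : G | ‖L.rho g - 1‖ < 2 * r} ⊆
      ⋃ g' ∈ s, (fun g => g'⁻¹ * g) ⁻¹' {g : G | ‖L.rho g - 1‖ < r} := by
    intro g hg
    by_contra hc
    have h3 : ∀ g' ∈ s, r ≤ ‖L.rho g - L.rho g'‖ := by
      intro g' hg'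
      by_contra h4
      rw [not_le] at h4
      refine hc (Set.mem_biUnion hg' ?_)
      show ‖L.rho (g'⁻¹ * g) - 1‖ < r
      rw [norm_rho_sub]
      exact h4
    have hgs : g ∉ s := by
      intro h4
      have := h3 g h4
      rw [sub_self, norm_zero] at this
      linarith
    have h5 : s.card + 1 ∈ A := by
      refine ⟨insert g s, Finset.card_insert_of_notMem hgs, ?_, ?_⟩
      · intro g' hg'
        rcases Finset.mem_insert.1 hg' with h | h
        · rw [h]; exact hg
        · exact h1 g' h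
      · intro a ha b hb hab
        rcases Finset.mem_insert.1 ha with h | h <;> rcases Finset.mem_insert.1 hb with h' | h'
        · exact absurd (h.trans h'.symm) hab
        · rw [h]; exact h3 b h'
        · rw [h', norm_sub_rev]; exact h3 a h
        · exact h2 a h b h' hab
    have h6 := le_csSup hbd h5
    omega
  refine (measure_mono hcov).trans ((measure_biUnion_finset_le _ _).trans ?_)
  have h7 : ∀ g' ∈ s, μ ((fun g => g'⁻¹ * g) ⁻¹' {g : G | ‖L.rho g - 1‖ < r}) =
      μ {g : G | ‖L.rho g - 1‖ < r} := fun g' _ => measure_preimage_mul μ g'⁻¹ _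
  rw [Finset.sum_congr rfl h7, Finset.sum_const, nsmul_eq_mul]
  refine mul_le_mul_left ?_ _
  exact_mod_cast sep_card hr s h1 h2

lemma we_cont : Continuous fun g : G => we L g := by
  unfold we
  exact Complex.continuous_re.comp ((continuous_const.sub L.cont).matrix_trace)

lemma we_dbl {s : ℝ} (hs : 0 < s) : μ {g : G | we L g < s} ≤
    (dbc N : ℝ≥0∞) * μ {g : G | 4 * we L g < s} := by
  have h1 := ball_dbl (L := L) μ (r := Real.sqrt (s / 2)) (by positivity)
  have e1 : {g : G | ‖L.rho g - 1‖ < 2 * Real.sqrt (s / 2)} = {g : G | we L g < s} := by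
    ext g
    show ‖L.rho g - 1‖ < 2 * Real.sqrt (s / 2) ↔ we L g < s
    rw [we_norm, ← Real.sqrt_sq (norm_nonneg (L.rho g - 1)),
      show 2 * Real.sqrt (s / 2) = Real.sqrt (2 * s) by
        rw [show 2 * s = 2 ^ 2 * (s / 2) by ring, Real.sqrt_mul (by norm_num),
          Real.sqrt_sq (by norm_num)],
      Real.sqrt_lt_sqrt_iff (sq_nonneg _), Real.sqrt_sq (norm_nonneg _)]
    constructor <;> intro h <;> linarith
  have e2 : {g : G | ‖L.rho g - 1‖ < Real.sqrt (s / 2)} = {g : G | 4 * we L g < s} := by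
    ext g
    show ‖L.rho g - 1‖ < Real.sqrt (s / 2) ↔ 4 * we L g < s
    rw [we_norm, ← Real.sqrt_sq (norm_nonneg (L.rho g - 1)),
      Real.sqrt_lt_sqrt_iff (sq_nonneg _), Real.sqrt_sq (norm_nonneg _)]
    constructor <;> intro h <;> linarith
  rw [e1, e2] at h1
  exact h1

/-- comparison of one link partition functions -/
lemma z_dbl {κ : ℝ} (hκ : 0 < κ) : ∫ g, Real.exp (-(κ * we L g)) ∂μ ≤
    dbc N * ∫ g, Real.exp (-(4 * κ * we L g)) ∂μ := by
  have hc := we_cont (L := L)
  have hi : ∀ c : ℝ, Integrable (fun g => Real.exp (-(c * we L g))) μ := fun c =>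
    (Real.continuous_exp.comp (continuous_const.mul hc).neg).integrable_of_hasCompactSupport
      (HasCompactSupport.of_compactSpace _)
  have h1 : ∫⁻ g, ENNReal.ofReal (Real.exp (-(κ * we L g))) ∂μ ≤
      (dbc N : ℝ≥0∞) * ∫⁻ g, ENNReal.ofReal (Real.exp (-(4 * κ * we L g))) ∂μ := by
    rw [lintegral_eq_lintegral_meas_lt μ
      (Filter.Eventually.of_forall fun g => (Real.exp_pos _).le) (hi κ).aemeasurable,
      lintegral_eq_lintegral_meas_lt μ
      (Filter.Eventually.of_forall fun g => (Real.exp_pos _).le) (hi (4 * κ)).aemeasurable,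
      ← lintegral_const_mul' _ _ (ENNReal.natCast_ne_top _)]
    refine setLIntegral_mono' measurableSet_Ioi fun t ht => ?_
    have ht0 : 0 < t := ht
    have e1 : {g : G | t < Real.exp (-(κ * we L g))} = {g : G | we L g < -Real.log t / κ} := by
      ext g
      show t < Real.exp (-(κ * we L g)) ↔ we L g < -Real.log t / κ
      rw [← Real.log_lt_iff_lt_exp ht0, lt_div_iff₀ hκ]
      constructor <;> intro h <;> linarith
    have e2 : {g : G | t < Real.exp (-(4 * κ * we L g))} =
        {g : G | 4 * we L g < -Real.log t / κ} := by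
      ext g
      show t < Real.exp (-(4 * κ * we L g)) ↔ 4 * we L g < -Real.log t / κ
      rw [← Real.log_lt_iff_lt_exp ht0, lt_div_iff₀ hκ]
      constructor <;> intro h <;> linarith
    rw [e1, e2]
    rcases lt_or_ge 0 (-Real.log t / κ) with h | h
    · exact we_dbl μ h
    · have e3 : {g : G | we L g < -Real.log t / κ} = ∅ := by
        refine Set.eq_empty_of_forall_notMem fun g hg => ?_
        have hg' : we L g < -Real.log t / κ := hg
        exact absurd hg' (not_lt.2 (h.trans (we_nonneg _)))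
      rw [e3, measure_empty]
      exact bot_le
  rw [← ofReal_integral_eq_lintegral_ofReal (hi κ)
    (Filter.Eventually.of_forall fun g => (Real.exp_pos _).le),
    ← ofReal_integral_eq_lintegral_ofReal (hi (4 * κ))
    (Filter.Eventually.of_forall fun g => (Real.exp_pos _).le)] at h1
  have h2 : (dbc N : ℝ≥0∞) * ENNReal.ofReal (∫ g, Real.exp (-(4 * κ * we L g)) ∂μ) =
      ENNReal.ofReal (dbc N * ∫ g, Real.exp (-(4 * κ * we L g)) ∂μ) := by
    rw [ENNReal.ofReal_mul (Nat.cast_nonneg _), ENNReal.ofReal_natCast]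
  rw [h2] at h1
  exact (ENNReal.ofReal_le_ofReal_iff (mul_nonneg (Nat.cast_nonneg _)
    (integral_nonneg fun g => (Real.exp_pos _).le))).1 h1

/-- the mean energy of one link -/
lemma m1_bound {κ : ℝ} (hκ : 0 < κ) : ∫ g, we L g * Real.exp (-(2 * κ) * we L g) ∂μ ≤
    dbc N / κ * ∫ g, Real.exp (-(2 * κ) * we L g) ∂μ := by
  have hc := we_cont (L := L)
  have hi : ∀ c : ℝ, Integrable (fun g => Real.exp (-(c * we L g))) μ := fun c =>
    (Real.continuous_exp.comp (continuous_const.mul hc).neg).integrable_of_hasCompactSupport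
      (HasCompactSupport.of_compactSpace _)
  have hi2 : Integrable (fun g => we L g * Real.exp (-(2 * κ) * we L g)) μ :=
    (hc.mul (Real.continuous_exp.comp (continuous_const.mul hc))).integrable_of_hasCompactSupport
      (HasCompactSupport.of_compactSpace _)
  have h1 : ∫ g, we L g * Real.exp (-(2 * κ) * we L g) ∂μ ≤
      1 / κ * ∫ g, Real.exp (-(κ * we L g)) ∂μ := by
    rw [← integral_const_mul]
    refine integral_mono hi2 ((hi κ).const_mul _) fun g => ?_
    show we L g * Real.exp (-(2 * κ) * we L g) ≤ 1 / κ * Real.exp (-(κ * we L g))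
    have h2 : Real.exp (-(2 * κ) * we L g) =
        Real.exp (-(κ * we L g)) * Real.exp (-(κ * we L g)) := by
      rw [← Real.exp_add]; congr 1; ring
    have h3 : κ * we L g * Real.exp (-(κ * we L g)) ≤ 1 := by
      have h4 := Real.add_one_le_exp (κ * we L g)
      have h5 : Real.exp (κ * we L g) * Real.exp (-(κ * we L g)) = 1 := by
        rw [← Real.exp_add, add_neg_cancel, Real.exp_zero]
      have h6 := mul_le_mul_of_nonneg_right h4 (Real.exp_pos (-(κ * we L g))).le
      rw [h5] at h6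
      have h7 := Real.exp_pos (-(κ * we L g))
      nlinarith
    have h8 := mul_le_mul_of_nonneg_right h3 (Real.exp_pos (-(κ * we L g))).le
    rw [h2, one_div, ← div_eq_inv_mul, le_div_iff₀ hκ]
    linarith
  have h2 : ∫ g, Real.exp (-(4 * κ * we L g)) ∂μ ≤ ∫ g, Real.exp (-(2 * κ) * we L g) ∂μ := by
    have h3 := hi (2 * κ)
    have e1 : (fun g => Real.exp (-(2 * κ) * we L g)) = fun g => Real.exp (-(2 * κ * we L g)) := by
      funext g; congr 1; ring
    rw [e1]
    refine integral_mono (hi (4 * κ)) h3 fun g => Real.exp_le_exp.2 ?_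
    have := we_nonneg (L := L) g
    nlinarith [mul_nonneg hκ.le this]
  have h3 := z_dbl (L := L) μ hκ
  have h4 := h3.trans (mul_le_mul_of_nonneg_left h2 (Nat.cast_nonneg _))
  have h5 := mul_le_mul_of_nonneg_left h4 (show 0 ≤ 1 / κ by positivity)
  refine h1.trans (h5.trans (le_of_eq ?_))
  ring

end

end Pool.Agent.Y13.YM
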