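import Mathlib
import Pool.Agent.Y13.YM.Dbl

/-!
# Continuous unitary representations have smooth extensions
-/

open MeasureTheory Matrix Filter Topology
open scoped Matrix.Norms.Frobenius ContDiff ENNReal

namespace Pool.Agent.Y13.YM

open Pool.Agent.H906R3.YM

set_option linter.unusedSectionVars false
set_option maxHeartbeats 400000

noncomputable section

variable {G : Type*} [Group G] [TopologicalSpace G] {N n k : ℕ} {L : LD G N n}
  [IsTopologicalGroup G] [CompactSpace G]

/-- the linear part of the exponent -/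
def El (L : LD G N n) : Mat N →ₗ[ℝ] C(G, ℝ) where
  toFun M := ⟨fun h => ip M (L.rho h), (ip M).continuous.comp L.cont⟩
  map_add' M M' := by
    ext h
    exact ip_add_left M M' _
  map_smul' c M := by
    ext h
    show ip (c • M) (L.rho h) = c * ip M (L.rho h)
    rw [ip_comm, map_smul, smul_eq_mul, ip_comm]

/-- the kernel -/
def Ke (L : LD G N n) (β : ℝ) (M : Mat N) : C(G, ℝ) :=
  NormedSpace.exp ((-β) • (algebraMap ℝ C(G, ℝ) N - LinearMap.toContinuousLinearMap (El L) M))

lemma contDiff_Ke (β : ℝ) : ContDiff ℝ ∞ (Ke L β) := by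
  have h1 : ContDiff ℝ ∞ (NormedSpace.exp : C(G, ℝ) → C(G, ℝ)) := by
    rw [contDiff_iff_contDiffAt]
    exact fun x => (NormedSpace.exp_analytic (𝕂 := ℝ) x).contDiffAt
  refine h1.comp ?_
  exact (contDiff_const.sub (LinearMap.toContinuousLinearMap (El L)).contDiff).const_smul _

lemma exp_evG (x : C(G, ℝ)) (h : G) :
    (NormedSpace.exp x : C(G, ℝ)) h = Real.exp (x h) := by
  have h1 := NormedSpace.map_exp (Pi.evalRingHom (fun _ : G => ℝ) h |>.comp
    (ContinuousMap.coeFnRingHom : C(G, ℝ) →+* (G → ℝ)))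
    (continuous_eval_const h) x
  rw [← Real.exp_eq_exp_ℝ] at h1
  exact h1

lemma Ke_apply (β : ℝ) (g h : G) : Ke L β (L.rho g) h = Real.exp (-(β * we L (g⁻¹ * h))) := by
  unfold Ke
  rw [exp_evG]
  congr 1
  show (-β) * ((N : ℝ) - ip (L.rho g) (L.rho h)) = -(β * we L (g⁻¹ * h))
  have h1 : we L (g⁻¹ * h) = N - ip (L.rho g) (L.rho h) := by
    unfold we
    rw [map_mul, L.rho_inv, trace_sub, trace_one, Complex.sub_re, ip_apply]
    simp
  rw [h1]; ring

variable [SecondCountableTopology G] [MeasurableSpace G] [BorelSpace G]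
  (μ : Measure G) [IsProbabilityMeasure μ]

section abs

variable {V : Type*} [NormedAddCommGroup V] [NormedSpace ℝ V] [CompleteSpace V]

lemma int_smul {φ : G → V} (hφ : Continuous φ) (f : C(G, ℝ)) :
    Integrable (fun h => f h • φ h) μ :=
  (f.continuous.smul hφ).integrable_of_hasCompactSupport (HasCompactSupport.of_compactSpace _)

/-- integration against a bounded continuous vector function -/
def TI {φ : G → V} (hφ : Continuous φ) {C : ℝ} (hC : ∀ g, ‖φ g‖ ≤ C) :
    C(G, ℝ) →L[ℝ] V :=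
  LinearMap.mkContinuous
    { toFun := fun f => ∫ h, f h • φ h ∂μ
      map_add' := fun f f' => by
        rw [← integral_add (int_smul μ hφ f) (int_smul μ hφ f')]
        exact integral_congr_ae (Eventually.of_forall fun h => add_smul _ _ _)
      map_smul' := fun c f => by
        rw [RingHom.id_apply, ← integral_smul]
        exact integral_congr_ae (Eventually.of_forall fun h => by
          show (c * f h) • φ h = c • f h • φ h
          rw [smul_smul]) } C (fun f => by
    refine (norm_integral_le_of_norm_le_const (C := C * ‖f‖) (Eventually.of_forall fun h => ?_)).trans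
      ?_
    · rw [norm_smul, mul_comm]
      exact mul_le_mul (hC h) (f.norm_coe_le_norm h) (norm_nonneg _) ((norm_nonneg _).trans (hC h))
    · simp)

lemma TI_apply {φ : G → V} (hφ : Continuous φ) {C : ℝ} (hC : ∀ g, ‖φ g‖ ≤ C) (f : C(G, ℝ)) :
    TI μ hφ hC f = ∫ h, f h • φ h ∂μ := rfl

/-- translation of the kernel -/
lemma TI_left [μ.IsMulLeftInvariant] {φ : G → V} (hφ : Continuous φ) {C : ℝ}
    (hC : ∀ g, ‖φ g‖ ≤ C) (β : ℝ) (g : G) (A : V →L[ℝ] V) (hA : ∀ h, φ (g * h) = A (φ h)) :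
    TI μ hφ hC (Ke L β (L.rho g)) = A (TI μ hφ hC (Ke L β (L.rho 1))) := by
  rw [TI_apply, TI_apply, ← ContinuousLinearMap.integral_comp_comm A (int_smul μ hφ _)]
  have e3 := integral_mul_left_eq_self (μ := μ)
    (fun h => Real.exp (-(β * we L (g⁻¹ * h))) • φ h) g
  refine Eq.trans ?_ (e3.symm.trans ?_)
  · refine integral_congr_ae (Eventually.of_forall fun h => ?_)
    show Ke L β (L.rho g) h • φ h = _
    rw [Ke_apply]
  · refine integral_congr_ae (Eventually.of_forall fun h => ?_)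
    show Real.exp (-(β * we L (g⁻¹ * (g * h)))) • φ (g * h) = A (Ke L β (L.rho 1) h • φ h)
    rw [inv_mul_cancel_left, map_smul, Ke_apply, inv_one, one_mul, hA]

/-- concentration at the unit -/
lemma conc {φ : G → V} (hφ : Continuous φ) {C : ℝ} (hC : ∀ g, ‖φ g‖ ≤ C) (v : V) {K δ β : ℝ}
    (hK : ∀ h, ‖φ h - v‖ ≤ K) (hδ : ∀ h, we L h < δ → ‖φ h - v‖ < 1 / 4) (hβ0 : 0 < β)
    {z m : ℝ} (hzdef : z = ∫ h, Real.exp (-(β * we L h)) ∂μ)
    (hzlow : Real.exp (-(β * (δ / 2))) * m ≤ z) (hz0 : 0 < z)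
    (hβ : K * Real.exp (-(β * (δ / 2))) ≤ m / 4) (hK0 : 0 ≤ K) :
    ‖z⁻¹ • TI μ hφ hC (Ke L β (L.rho 1)) - v‖ < 1 := by
  have hwc := we_cont (L := L)
  have hint : Integrable (fun h => Real.exp (-(β * we L h))) μ :=
    (Real.continuous_exp.comp (continuous_const.mul hwc).neg).integrable_of_hasCompactSupport
      (HasCompactSupport.of_compactSpace _)
  have hk : ∀ h, Ke L β (L.rho 1) h = Real.exp (-(β * we L h)) := fun h => by
    rw [Ke_apply, inv_one, one_mul]
  have e1 : z⁻¹ • TI μ hφ hC (Ke L β (L.rho 1)) - v =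
      z⁻¹ • ∫ h, Ke L β (L.rho 1) h • (φ h - v) ∂μ := by
    have e2 : ∫ h, Ke L β (L.rho 1) h • (φ h - v) ∂μ =
        TI μ hφ hC (Ke L β (L.rho 1)) - ∫ h, Ke L β (L.rho 1) h • v ∂μ := by
      rw [TI_apply, ← integral_sub (int_smul μ hφ _) (int_smul μ continuous_const _)]
      exact integral_congr_ae (Eventually.of_forall fun h => smul_sub _ _ _)
    have e3 : ∫ h, Ke L β (L.rho 1) h • v ∂μ = z • v := by
      rw [integral_smul_const, hzdef]
      congr 1
      exact integral_congr_ae (Eventually.of_forall hk)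
    rw [e2, e3, smul_sub, smul_smul, inv_mul_cancel₀ hz0.ne', one_smul]
  have e3 : ‖∫ h, Ke L β (L.rho 1) h • (φ h - v) ∂μ‖ ≤ z / 2 := by
    have e4 : ∀ h, ‖Ke L β (L.rho 1) h • (φ h - v)‖ ≤
        1 / 4 * Real.exp (-(β * we L h)) + K * Real.exp (-(β * δ)) := by
      intro h
      rw [norm_smul, hk, Real.norm_of_nonneg (Real.exp_pos _).le]
      rcases lt_or_ge (we L h) δ with h1 | h1
      · have h2 := (hδ h h1).le
        have h3 := mul_le_mul_of_nonneg_left h2 (Real.exp_pos (-(β * we L h))).le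
        have h4 : 0 ≤ K * Real.exp (-(β * δ)) := by positivity
        linarith
      · have h3 : Real.exp (-(β * we L h)) ≤ Real.exp (-(β * δ)) := by
          refine Real.exp_le_exp.2 ?_
          have := mul_le_mul_of_nonneg_left h1 hβ0.le
          linarith
        have h4 := mul_le_mul h3 (hK h) (norm_nonneg _) (Real.exp_pos _).le
        have h5 := Real.exp_pos (-(β * we L h))
        linarith
    have e5 := norm_integral_le_integral_norm (μ := μ)
      (fun h => Ke L β (L.rho 1) h • (φ h - v))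
    have e6 : ∫ h, ‖Ke L β (L.rho 1) h • (φ h - v)‖ ∂μ ≤
        ∫ h, (1 / 4 * Real.exp (-(β * we L h)) + K * Real.exp (-(β * δ))) ∂μ :=
      integral_mono (int_smul μ (hφ.sub continuous_const) _).norm
        ((hint.const_mul _).add (integrable_const _)) e4
    rw [integral_add (hint.const_mul _) (integrable_const _), integral_const_mul,
      integral_const, ← hzdef] at e6
    simp only [probReal_univ, one_smul] at e6
    have e7 : K * Real.exp (-(β * δ)) ≤ z / 4 := by
      have e8 : Real.exp (-(β * δ)) =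
          Real.exp (-(β * (δ / 2))) * Real.exp (-(β * (δ / 2))) := by
        rw [← Real.exp_add]; congr 1; ring
      have e9 := mul_le_mul_of_nonneg_left hβ (Real.exp_pos (-(β * (δ / 2)))).le
      rw [e8]
      linarith
    linarith
  rw [e1, norm_smul, norm_inv, Real.norm_of_nonneg hz0.le]
  have e10 : z⁻¹ * ‖∫ h, Ke L β (L.rho 1) h • (φ h - v) ∂μ‖ ≤ z⁻¹ * (z / 2) :=
    mul_le_mul_of_nonneg_left e3 (inv_nonneg.2 hz0.le)
  have e11 : z⁻¹ * (z / 2) = 1 / 2 := by field_simp
  linarith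

end abs

variable [μ.IsMulLeftInvariant] [μ.IsOpenPosMeasure]

include μ in
/-- Every continuous unitary representation has a smooth extension. -/
theorem smooth_ext (L : LD G N n) (hinj : Function.Injective L.rho) (ρ : G →* Mat k)
    (hc : Continuous ρ) (hu : ∀ g, Un (ρ g)) :
    ∃ f : Mat N → Mat k, ContDiff ℝ ∞ f ∧ ∀ g, ρ g = f (L.rho g) := by
  have hCb : ∀ g, ‖ρ g‖ ≤ Real.sqrt k := fun g => (norm_un (hu g)).le
  have hwc := we_cont (L := L)
  -- a neighbourhood of 1
  obtain ⟨δ, hδ0, hδ⟩ : ∃ δ : ℝ, 0 < δ ∧ ∀ h, we L h < δ → ‖ρ h - 1‖ < 1 / 4 := by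
    set S : Set G := {h | 1 / 4 ≤ ‖ρ h - 1‖} with hS
    have hcl : IsClosed S := isClosed_le continuous_const (hc.sub continuous_const).norm
    rcases S.eq_empty_or_nonempty with he | hne
    · refine ⟨1, one_pos, fun h _ => ?_⟩
      by_contra hh
      rw [not_lt] at hh
      have : h ∈ S := hh
      rw [he] at this
      exact this
    · obtain ⟨h0, hh0, hmin⟩ := hcl.isCompact.exists_isMinOn hne hwc.continuousOn
      refine ⟨we L h0, ?_, fun h hh => ?_⟩
      · rcases (we_nonneg (L := L) h0).eq_or_lt with h1 | h1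
        · exfalso
          have h2 := we_zero h1.symm
          have h3 : h0 = 1 := hinj (by rw [h2, map_one])
          have h4 : 1 / 4 ≤ ‖ρ h0 - 1‖ := hh0
          rw [h3, map_one, sub_self, norm_zero] at h4
          norm_num at h4
        · exact h1
      · by_contra hcon
        rw [not_lt] at hcon
        exact absurd (hmin hcon) (not_le.2 hh)
  -- mass near 1
  obtain ⟨m, hm⟩ : ∃ m : ℝ, m = μ.real {h | we L h < δ / 2} := ⟨_, rfl⟩
  have hm0 : 0 < m := by
    rw [hm]
    have hop : IsOpen {h : G | we L h < δ / 2} := isOpen_lt hwc continuous_const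
    have hne : ({h : G | we L h < δ / 2}).Nonempty := ⟨1, by
      show we L 1 < δ / 2
      unfold we
      rw [map_one, sub_self, trace_zero]
      simpa using hδ0⟩
    exact ENNReal.toReal_pos (hop.measure_pos μ hne).ne' (measure_ne_top _ _)
  have hint : ∀ β : ℝ, Integrable (fun h => Real.exp (-(β * we L h))) μ := fun β =>
    (Real.continuous_exp.comp (continuous_const.mul hwc).neg).integrable_of_hasCompactSupport
      (HasCompactSupport.of_compactSpace _)
  have hz : ∀ β : ℝ, 0 < β → Real.exp (-(β * (δ / 2))) * m ≤ ∫ h, Real.exp (-(β * we L h)) ∂μ := by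
    intro β hβ
    have hms : MeasurableSet {h : G | we L h < δ / 2} :=
      (isOpen_lt hwc continuous_const).measurableSet
    have h1 : ∫ h in {h : G | we L h < δ / 2}, Real.exp (-(β * (δ / 2))) ∂μ ≤
        ∫ h in {h : G | we L h < δ / 2}, Real.exp (-(β * we L h)) ∂μ := by
      refine setIntegral_mono_on (integrable_const _).integrableOn (hint β).integrableOn hms
        fun h hh => Real.exp_le_exp.2 ?_
      have hh' : we L h < δ / 2 := hh
      have := mul_le_mul_of_nonneg_left hh'.le hβ.le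
      linarith
    rw [setIntegral_const, smul_eq_mul, mul_comm, ← hm] at h1
    exact h1.trans (setIntegral_le_integral (hint β)
      (Eventually.of_forall fun h => (Real.exp_pos _).le))
  -- choice of β
  obtain ⟨β, hβ0, hβ⟩ : ∃ β : ℝ, 0 < β ∧ 2 * Real.sqrt k * Real.exp (-(β * (δ / 2))) ≤ m / 4 := by
    have h1 : Tendsto (fun β : ℝ => 2 * Real.sqrt k * Real.exp (-(β * (δ / 2)))) atTop
        (𝓝 (2 * Real.sqrt k * 0)) := by
      refine Tendsto.const_mul _ (Real.tendsto_exp_neg_atTop_nhds_zero.comp ?_)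
      exact tendsto_id.atTop_mul_const (by linarith)
    rw [mul_zero] at h1
    have h2 := (h1.eventually (ge_mem_nhds (show (0 : ℝ) < m / 4 by linarith))).and
      (eventually_gt_atTop 0)
    obtain ⟨β, h3, h4⟩ := h2.exists
    exact ⟨β, h4, h3⟩
  obtain ⟨z, hzdef⟩ : ∃ z : ℝ, z = ∫ h, Real.exp (-(β * we L h)) ∂μ := ⟨_, rfl⟩
  have hzlow := hz β hβ0
  rw [← hzdef] at hzlow
  have hz0 : 0 < z := lt_of_lt_of_le (mul_pos (Real.exp_pos _) hm0) hzlow
  -- the operator
  obtain ⟨T, hT⟩ : ∃ T : C(G, ℝ) →L[ℝ] Mat k, T = TI (V := Mat k) μ hc hCb := ⟨_, rfl⟩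
  have hAn : ‖z⁻¹ • T (Ke L β (L.rho 1)) - 1‖ < 1 := by
    rw [hT]
    exact conc (V := Mat k) μ hc hCb 1 (K := 2 * Real.sqrt k)
      (fun h => norm_un_sub (hu h) Un.one) hδ hβ0 hzdef hzlow hz0 hβ (by positivity)
  obtain ⟨A, hA⟩ : ∃ A : Mat k, A = z⁻¹ • T (Ke L β (L.rho 1)) := ⟨_, rfl⟩
  rw [← hA] at hAn
  have hunit : IsUnit A := by
    have h1 : IsUnit (1 - (1 - A)) := by
      refine isUnit_one_sub_of_norm_lt_one ?_
      rw [norm_sub_rev]; exact hAn
    rwa [sub_sub_cancel] at h1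
  obtain ⟨A', hA'⟩ := hunit
  refine ⟨fun M => z⁻¹ • T (Ke L β M) * (↑A'⁻¹ : Mat k), ?_, fun g => ?_⟩
  · exact (((T.contDiff.comp (contDiff_Ke β)).const_smul z⁻¹)).mul contDiff_const
  · have hTl : T (Ke L β (L.rho g)) = ρ g * T (Ke L β (L.rho 1)) := by
      rw [hT]
      exact TI_left (V := Mat k) (L := L) μ hc hCb β g
        (LinearMap.toContinuousLinearMap (LinearMap.mulLeft ℝ (ρ g))) (fun h => map_mul ρ g h)
    have h1 : z⁻¹ • T (Ke L β (L.rho g)) = ρ g * A := by
      rw [hA, hTl, mul_smul_comm]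
    show ρ g = z⁻¹ • T (Ke L β (L.rho g)) * (↑A'⁻¹ : Mat k)
    rw [h1, ← hA', mul_assoc, Units.mul_inv, mul_one]

end

end Pool.Agent.Y13.YM
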