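import Mathlib
import Pool.Agent.Y13.YM.Noise

/-!
# The string between two sites
-/

open MeasureTheory Matrix
open scoped Matrix.Norms.Frobenius ContDiff

namespace Pool.Agent.Y13.YM

open Pool.Agent.H906R3.YM (Mat Ed eT LD plqT we we_eq ip ip_apply Pl VT VT_apply we_nonneg we_inv)

set_option linter.unusedSectionVars false

noncomputable section

variable {k l : ℕ}

/-- beginning of the straight piece -/
def bg (e : Fin 3) (x : Fin 3 → ZMod l) (m : ℤ) : Fin 3 → ZMod l :=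
  if 0 ≤ m then x else x - m.natAbs • eT e

/-- straight piece in the direction `e`, `m` steps -/
def fz (u : Ed 3 l → Mat k) (e : Fin 3) (x : Fin 3 → ZMod l) (R : ℕ) (m : ℤ) : Mat k :=
  if 0 ≤ m then fat u e (bg e x m) R m.natAbs else (fat u e (bg e x m) R m.natAbs)ᴴ

lemma fz_un {u : Ed 3 l → Mat k} (hu : ∀ e, Un (u e)) (e : Fin 3) (x : Fin 3 → ZMod l)
    (R : ℕ) (m : ℤ) : Un (fz u e x R m) := by
  unfold fz
  split_ifs
  · exact fat_un hu _ _ _ _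
  · exact (fat_un hu _ _ _ _).ct

lemma contDiff_fz {W : Type*} [NormedAddCommGroup W] [NormedSpace ℝ W]
    {u : Ed 3 l → W → Mat k} (hu : ∀ e, ContDiff ℝ ∞ (u e)) (e : Fin 3)
    (x : Fin 3 → ZMod l) (R : ℕ) (m : ℤ) : ContDiff ℝ ∞ fun v => fz (fun e => u e v) e x R m := by
  unfold fz
  split_ifs
  · exact contDiff_fat hu _ _ _ _
  · exact contDiff_ct (contDiff_fat hu _ _ _ _)

lemma fz_cov {u u' : Ed 3 l → Mat k} {g : (Fin 3 → ZMod l) → Mat k} (hg : ∀ y, Un (g y))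
    (hu : ∀ f, u' f = g f.1 * u f * (g (f.1 + eT f.2))ᴴ) (e : Fin 3) (x : Fin 3 → ZMod l)
    {R : ℕ} (hR : 1 ≤ R) (m : ℤ) :
    fz u' e x R m = g x * fz u e x R m * (g (x + m • eT e))ᴴ := by
  unfold fz bg
  by_cases h : 0 ≤ m
  · simp only [h, if_true]
    rw [fat_cov hg hu e x hR]
    have : x + m.natAbs • eT e = x + m • eT e := by
      conv_rhs => rw [← Int.natAbs_of_nonneg h]
      rw [natCast_zsmul]
    rw [this]
  · simp only [h, if_false]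
    rw [fat_cov hg hu e _ hR, conjTranspose_mul, conjTranspose_mul, conjTranspose_conjTranspose,
      sub_add_cancel]
    have : x - m.natAbs • eT e = x + m • eT e := by
      have h1 : m = -(m.natAbs : ℤ) := by
        rw [Int.ofNat_natAbs_of_nonpos (by omega)]; ring
      conv_rhs => rw [h1]
      rw [neg_smul, natCast_zsmul, sub_eq_add_neg]
    rw [this]
    simp only [Matrix.mul_assoc]

/-- corners of the string -/
def cn (x : Fin 3 → ZMod l) (m : Fin 3 → ℤ) (j : Fin 3) : Fin 3 → ZMod l :=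
  if j = 0 then x else if j = 1 then x + m 0 • eT 0 else x + m 0 • eT 0 + m 1 • eT 1

/-- The string from `x` with displacement `m`. -/
def str (u : Ed 3 l → Mat k) (x : Fin 3 → ZMod l) (R : ℕ) (m : Fin 3 → ℤ) : Mat k :=
  fz u 0 (cn x m 0) R (m 0) * fz u 1 (cn x m 1) R (m 1) * fz u 2 (cn x m 2) R (m 2)

lemma str_un {u : Ed 3 l → Mat k} (hu : ∀ e, Un (u e)) (x : Fin 3 → ZMod l)
    (R : ℕ) (m : Fin 3 → ℤ) : Un (str u x R m) :=
  ((fz_un hu _ _ _ _).mul (fz_un hu _ _ _ _)).mul (fz_un hu _ _ _ _)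

lemma contDiff_str {W : Type*} [NormedAddCommGroup W] [NormedSpace ℝ W]
    {u : Ed 3 l → W → Mat k} (hu : ∀ e, ContDiff ℝ ∞ (u e))
    (x : Fin 3 → ZMod l) (R : ℕ) (m : Fin 3 → ℤ) :
    ContDiff ℝ ∞ fun v => str (fun e => u e v) x R m :=
  ((contDiff_fz hu _ _ _ _).mul (contDiff_fz hu _ _ _ _)).mul (contDiff_fz hu _ _ _ _)

/-- endpoint -/
def ep (x : Fin 3 → ZMod l) (m : Fin 3 → ℤ) : Fin 3 → ZMod l :=
  x + m 0 • eT 0 + m 1 • eT 1 + m 2 • eT 2

lemma str_cov {u u' : Ed 3 l → Mat k} {g : (Fin 3 → ZMod l) → Mat k} (hg : ∀ y, Un (g y))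
    (hu : ∀ f, u' f = g f.1 * u f * (g (f.1 + eT f.2))ᴴ) (x : Fin 3 → ZMod l)
    {R : ℕ} (hR : 1 ≤ R) (m : Fin 3 → ℤ) :
    str u' x R m = g x * str u x R m * (g (ep x m))ᴴ := by
  unfold str
  rw [fz_cov hg hu 0 _ hR, fz_cov hg hu 1 _ hR, fz_cov hg hu 2 _ hR]
  have e0 : cn x m 0 = x := rfl
  have e1 : cn x m 0 + m 0 • eT 0 = cn x m 1 := rfl
  have e2 : cn x m 1 + m 1 • eT 1 = cn x m 2 := rfl
  have e3 : cn x m 2 + m 2 • eT 2 = ep x m := rfl
  rw [e1, e2, e3, e0]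
  have h1 := (hg (cn x m 1)).l
  have h2 := (hg (cn x m 2)).l
  calc g x * fz u 0 x R (m 0) * (g (cn x m 1))ᴴ * (g (cn x m 1) * fz u 1 (cn x m 1) R (m 1) *
        (g (cn x m 2))ᴴ) * (g (cn x m 2) * fz u 2 (cn x m 2) R (m 2) * (g (ep x m))ᴴ)
      = g x * fz u 0 x R (m 0) * ((g (cn x m 1))ᴴ * g (cn x m 1)) * fz u 1 (cn x m 1) R (m 1) *
        ((g (cn x m 2))ᴴ * g (cn x m 2)) * fz u 2 (cn x m 2) R (m 2) * (g (ep x m))ᴴ := by
        simp only [Matrix.mul_assoc]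
    _ = _ := by rw [h1, h2, Matrix.mul_one, Matrix.mul_one]; simp only [Matrix.mul_assoc]

/-- total noise of the string -/
def NS (u : Ed 3 l → Mat k) (x : Fin 3 → ZMod l) (R : ℕ) (m : Fin 3 → ℤ) : ℝ :=
  ∑ j : Fin 3, SS u j (bg j (cn x m j) (m j)) R (m j).natAbs

/-- length of the string -/
def len (m : Fin 3 → ℤ) : ℝ := ∑ j : Fin 3, ((m j).natAbs : ℝ)

variable [NeZero l]

lemma fz_grad {u : Ed 3 l → Mat k} {c : Ed 3 l → Ed 3 l → ℝ → Mat k}
    (hc : ∀ f e s, Un (c f e s)) (hc0 : ∀ f e, c f e 0 = u e) {Y : Mat k}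
    (hd : ∀ f e, HasDerivAt (c f e) (if e = f then Y * c f e 0 else 0) 0)
    (e : Fin 3) (x : Fin 3 → ZMod l) {R : ℕ} (hR : 1 ≤ R) (hRl : R ≤ l) {m : ℤ}
    (hm : m.natAbs < l) :
    ∃ F' : Ed 3 l → Mat k,
      (∀ f, HasDerivAt (fun s => fz (fun e' => c f e' s) e x R m) (F' f) 0) ∧
      ∑ f, ‖F' f‖ ^ 2 ≤ 5 * ‖Y‖ ^ 2 * (65 * Hm R * SS u e (bg e x m) R m.natAbs +
        16 * (1 + 6 * Real.sqrt k) ^ 2 * (1 + m.natAbs / (R : ℝ) ^ 2)) := by
  obtain ⟨F', h1, h2⟩ := fat_grad hc hc0 hd e (bg e x m) hR hRl hm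
  unfold fz
  by_cases h : 0 ≤ m
  · simp only [h, if_true]
    exact ⟨F', h1, h2⟩
  · simp only [h, if_false]
    refine ⟨fun f => (F' f)ᴴ, fun f => hasDerivAt_ct (h1 f), ?_⟩
    simp only [norm_ct]
    exact h2

/-- the gradient of the string -/
theorem str_grad {u : Ed 3 l → Mat k} {c : Ed 3 l → Ed 3 l → ℝ → Mat k}
    (hc : ∀ f e s, Un (c f e s)) (hc0 : ∀ f e, c f e 0 = u e) {Y : Mat k}
    (hd : ∀ f e, HasDerivAt (c f e) (if e = f then Y * c f e 0 else 0) 0)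
    (x : Fin 3 → ZMod l) {R : ℕ} (hR : 1 ≤ R) (hRl : R ≤ l) {m : Fin 3 → ℤ}
    (hm : ∀ j, (m j).natAbs < l) :
    ∃ F' : Ed 3 l → Mat k,
      (∀ f, HasDerivAt (fun s => str (fun e' => c f e' s) x R m) (F' f) 0) ∧
      ∑ f, ‖F' f‖ ^ 2 ≤ 15 * ‖Y‖ ^ 2 * (65 * Hm R * NS u x R m +
        16 * (1 + 6 * Real.sqrt k) ^ 2 * (3 + len m / (R : ℝ) ^ 2)) := by
  obtain ⟨A', a1, a2⟩ := fz_grad hc hc0 hd 0 (cn x m 0) hR hRl (hm 0)
  obtain ⟨B', b1, b2⟩ := fz_grad hc hc0 hd 1 (cn x m 1) hR hRl (hm 1)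
  obtain ⟨C', c1, c2⟩ := fz_grad hc hc0 hd 2 (cn x m 2) hR hRl (hm 2)
  have hcu : ∀ f, (fun e' => c f e' 0) = u := fun f => funext (hc0 f)
  have hun : ∀ e, Un (u e) := fun e => by rw [← hc0 e e]; exact hc e e 0
  set A := fz u 0 (cn x m 0) R (m 0) with hA
  set B := fz u 1 (cn x m 1) R (m 1) with hB
  set C := fz u 2 (cn x m 2) R (m 2) with hC
  have hAu : Un A := fz_un hun _ _ _ _
  have hBu : Un B := fz_un hun _ _ _ _
  have hCu : Un C := fz_un hun _ _ _ _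
  refine ⟨fun f => (A' f * B + A * B' f) * C + A * B * C' f, fun f => ?_, ?_⟩
  · have h1 := ((a1 f).mul (b1 f)).mul (c1 f)
    simp only [hcu, Pi.mul_apply] at h1
    exact h1
  · have h2 : ∀ f, ‖(A' f * B + A * B' f) * C + A * B * C' f‖ ^ 2 ≤
        3 * (‖A' f‖ ^ 2 + ‖B' f‖ ^ 2 + ‖C' f‖ ^ 2) := by
      intro f
      have h3 : ‖(A' f * B + A * B' f) * C + A * B * C' f‖ ≤ ‖A' f‖ + ‖B' f‖ + ‖C' f‖ := by
        refine (norm_add_le _ _).trans ?_
        rw [norm_ur hCu, norm_ul (hAu.mul hBu)]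
        have := norm_add_le (A' f * B) (A * B' f)
        rw [norm_ur hBu, norm_ul hAu] at this
        linarith
      have h4 := pow_le_pow_left₀ (norm_nonneg _) h3 2
      nlinarith [sq_nonneg (‖A' f‖ - ‖B' f‖), sq_nonneg (‖A' f‖ - ‖C' f‖),
        sq_nonneg (‖B' f‖ - ‖C' f‖)]
    refine (Finset.sum_le_sum fun f _ => h2 f).trans ?_
    rw [← Finset.mul_sum, Finset.sum_add_distrib, Finset.sum_add_distrib]
    have hNS : NS u x R m = SS u 0 (bg 0 (cn x m 0) (m 0)) R (m 0).natAbs +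
        SS u 1 (bg 1 (cn x m 1) (m 1)) R (m 1).natAbs +
        SS u 2 (bg 2 (cn x m 2) (m 2)) R (m 2).natAbs := Fin.sum_univ_three _
    have hlen : len m = ((m 0).natAbs : ℝ) + ((m 1).natAbs : ℝ) + ((m 2).natAbs : ℝ) :=
      Fin.sum_univ_three _
    have h5 : 15 * ‖Y‖ ^ 2 * (65 * Hm R * NS u x R m +
        16 * (1 + 6 * Real.sqrt k) ^ 2 * (3 + len m / (R : ℝ) ^ 2)) =
        3 * (5 * ‖Y‖ ^ 2 * (65 * Hm R * SS u 0 (bg 0 (cn x m 0) (m 0)) R (m 0).natAbs +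
        16 * (1 + 6 * Real.sqrt k) ^ 2 * (1 + (m 0).natAbs / (R : ℝ) ^ 2)) +
        5 * ‖Y‖ ^ 2 * (65 * Hm R * SS u 1 (bg 1 (cn x m 1) (m 1)) R (m 1).natAbs +
        16 * (1 + 6 * Real.sqrt k) ^ 2 * (1 + (m 1).natAbs / (R : ℝ) ^ 2)) +
        5 * ‖Y‖ ^ 2 * (65 * Hm R * SS u 2 (bg 2 (cn x m 2) (m 2)) R (m 2).natAbs +
        16 * (1 + 6 * Real.sqrt k) ^ 2 * (1 + (m 2).natAbs / (R : ℝ) ^ 2))) := by
      rw [hNS, hlen]; ring
    rw [h5]
    linarith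

/-! ### noise and plaquette energies -/

section noise

variable {G : Type*} [Group G] [TopologicalSpace G] {N n : ℕ} {L : LD G N n}

/-- translation of the configurations -/
def tr (s : Fin 3 → ZMod l) (U : Ed 3 l → G) : Ed 3 l → G := fun f => U (f.1 + s, f.2)

lemma plqT_tr (s : Fin 3 → ZMod l) (U : Ed 3 l → G) (x : Fin 3 → ZMod l) (i j : Fin 3) :
    plqT (tr s U) x i j = plqT U (x + s) i j := by
  unfold plqT tr
  dsimp only
  rw [add_right_comm x (eT i) s, add_right_comm x (eT j) s]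

/-- the plaquettes of one orientation -/
lemma sum_we_le (U : Ed 3 l → G) {i j : Fin 3} (hij : i ≠ j) (x : Fin 3 → ZMod l) :
    ∑ s : Fin 3 → ZMod l, we L (plqT U (x + s) i j) ≤ L.ev U (VT L 3 l) := by
  classical
  have h0 : ∑ s : Fin 3 → ZMod l, we L (plqT U (x + s) i j) =
      ∑ s : Fin 3 → ZMod l, we L (plqT U s i j) :=
    Fintype.sum_equiv (Equiv.addLeft x) _ _ fun s => rfl
  have hswap : ∀ s, we L (plqT U s i j) = we L (plqT U s j i) := by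
    intro s
    have : plqT U s j i = (plqT U s i j)⁻¹ := by unfold plqT; group
    rw [this, we_inv]
  have key : ∀ a b : Fin 3, a < b → ∑ s : Fin 3 → ZMod l, we L (plqT U s a b) ≤
      L.ev U (VT L 3 l) := by
    intro a b hab
    rw [VT_apply]
    have hinj : Function.Injective (fun s : Fin 3 → ZMod l => (⟨(s, a, b), hab⟩ : Pl 3 l)) := by
      intro s s' h
      exact congrArg (fun p : Pl 3 l => p.1.1) h
    have h1 : ∑ s : Fin 3 → ZMod l, we L (plqT U s a b) =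
        ∑ p ∈ Finset.univ.map ⟨fun s : Fin 3 → ZMod l => (⟨(s, a, b), hab⟩ : Pl 3 l), hinj⟩,
          we L (plqT U p.1.1 p.1.2.1 p.1.2.2) := by
      rw [Finset.sum_map]; rfl
    rw [h1]
    exact Finset.sum_le_sum_of_subset_of_nonneg (Finset.subset_univ _) fun _ _ _ => we_nonneg _
  rw [h0]
  rcases lt_or_gt_of_ne hij with h | h
  · exact key i j h
  · rw [Finset.sum_congr rfl fun s _ => hswap s]
    exact key j i h

lemma pl_dir (e : Fin 3) (x : Fin 3 → ZMod l) (R i θ t : ℕ) : (pl e x R i θ t).2 ≠ e := by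
  obtain ⟨h1, h2, -⟩ := fin3 e
  unfold pl
  dsimp only
  split_ifs
  · exact h2.symm
  · exact h1.symm

/-- the noise summed over the translations -/
lemma SS_sum (P : RepD L k) {κ : ℝ} (hκ0 : 0 ≤ κ) (hκ : ∀ g, ‖P.rep g - 1‖ ^ 2 ≤ κ * we L g)
    (U : Ed 3 l → G) (e : Fin 3) (x : Fin 3 → ZMod l) {R : ℕ} (hR : 1 ≤ R) (d : ℕ) :
    ∑ s, SS (P.cf (tr s U)) e x R d ≤ d * (R : ℝ) ^ 2 * κ * L.ev U (VT L 3 l) := by
  have h1 : ∀ s, SS (P.cf (tr s U)) e x R d ≤ ∑ i ∈ Finset.range d, ∑ z, wR R (rd R d i) z *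
      (R * ∑ t ∈ Finset.range R, κ *
        we L (plqT U ((pl e x R i z.2 t).1 + s) (pl e x R i z.2 t).2 e)) := by
    intro s
    unfold SS
    refine Finset.sum_le_sum fun i _ => Finset.sum_le_sum fun z _ => ?_
    refine mul_le_mul_of_nonneg_left ?_ (wR_nonneg R _ z)
    have := eta_sq_le P hκ (tr s U) e x i z
    simpa only [plqT_tr] using this
  refine (Finset.sum_le_sum fun s _ => h1 s).trans ?_
  rw [Finset.sum_comm]
  have h2 : ∀ i ∈ Finset.range d, ∑ s : Fin 3 → ZMod l, ∑ z, wR R (rd R d i) z *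
      (R * ∑ t ∈ Finset.range R, κ *
        we L (plqT U ((pl e x R i z.2 t).1 + s) (pl e x R i z.2 t).2 e)) ≤
      (R : ℝ) ^ 2 * κ * L.ev U (VT L 3 l) := by
    intro i _
    rw [Finset.sum_comm]
    have h3 : ∀ z : Fin R × Fin R, ∑ s : Fin 3 → ZMod l, wR R (rd R d i) z *
        (R * ∑ t ∈ Finset.range R, κ *
          we L (plqT U ((pl e x R i z.2 t).1 + s) (pl e x R i z.2 t).2 e)) ≤
        wR R (rd R d i) z * ((R : ℝ) ^ 2 * κ * L.ev U (VT L 3 l)) := by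
      intro z
      rw [← Finset.mul_sum]
      refine mul_le_mul_of_nonneg_left ?_ (wR_nonneg R _ z)
      rw [← Finset.mul_sum, Finset.sum_comm]
      have h4 : ∀ t ∈ Finset.range R, ∑ s : Fin 3 → ZMod l, κ *
          we L (plqT U ((pl e x R i z.2 t).1 + s) (pl e x R i z.2 t).2 e) ≤
          κ * L.ev U (VT L 3 l) := by
        intro t _
        rw [← Finset.mul_sum]
        exact mul_le_mul_of_nonneg_left (sum_we_le U (pl_dir e x R i z.2 t) _) hκ0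
      have h5 := Finset.sum_le_sum h4
      rw [Finset.sum_const, Finset.card_range, nsmul_eq_mul] at h5
      have h6 := mul_le_mul_of_nonneg_left h5 (Nat.cast_nonneg (α := ℝ) R)
      refine h6.trans (le_of_eq (by ring))
    refine (Finset.sum_le_sum fun z _ => h3 z).trans (le_of_eq ?_)
    rw [← Finset.sum_mul, wrd_sum hR, one_mul]
  refine (Finset.sum_le_sum h2).trans (le_of_eq ?_)
  rw [Finset.sum_const, Finset.card_range, nsmul_eq_mul]
  ring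

lemma NS_sum (P : RepD L k) {κ : ℝ} (hκ0 : 0 ≤ κ) (hκ : ∀ g, ‖P.rep g - 1‖ ^ 2 ≤ κ * we L g)
    (U : Ed 3 l → G) (x : Fin 3 → ZMod l) {R : ℕ} (hR : 1 ≤ R) (m : Fin 3 → ℤ) :
    ∑ s, NS (P.cf (tr s U)) x R m ≤ len m * (R : ℝ) ^ 2 * κ * L.ev U (VT L 3 l) := by
  unfold NS
  rw [Finset.sum_comm]
  refine (Finset.sum_le_sum fun j _ => SS_sum P hκ0 hκ U j _ hR _).trans (le_of_eq ?_)
  unfold len
  rw [Finset.sum_mul, Finset.sum_mul, Finset.sum_mul]

end noise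

end

end Pool.Agent.Y13.YM
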