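import Mathlib
import Pool.Agent.Y13.YM.Str
import Pool.Agent.H906R3.YM.Equi

/-!
# Energies of charged trial states
-/

open MeasureTheory Matrix
open scoped Matrix.Norms.Frobenius ContDiff

namespace Pool.Agent.Y13.YM

open Pool.Agent.H906R3.YM

set_option linter.unusedSectionVars false
set_option maxHeartbeats 400000

noncomputable section

variable {G : Type*} [Group G] [TopologicalSpace G] {N n k l : ℕ} {L : LD G N n}

lemma Gam_unit {A : Type*} [CommRing A] [Algebra ℝ A] {J : Type*} [Fintype J]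
    {D : J → Derivation ℝ A A} {K : Type*} [Fintype K] (f : K → A) (κ : ℝ)
    (h : ∑ c, f c * f c = algebraMap ℝ A κ) (w : A) :
    ∑ c, Gam D (f c * w) (f c * w) = κ • Gam D w w + (∑ c, Gam D (f c) (f c)) * (w * w) := by
  have h1 : ∀ c, Gam D (f c * w) (f c * w) = (f c * f c) * Gam D w w +
      w * Gam D w (f c * f c) + Gam D (f c) (f c) * (w * w) := by
    intro c
    rw [Gam_mul (f c * w) (f c) w, Gam_comm (f c * w) w, Gam_comm (f c * w) (f c),
      Gam_mul w (f c) w, Gam_mul (f c) (f c) w, Gam_mul w (f c) (f c), Gam_comm (f c) w]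
    ring
  have h2 : ∑ c, Gam D w (f c * f c) = 0 := by
    rw [← Gam_sum, h]
    unfold Gam
    refine Finset.sum_eq_zero fun j _ => ?_
    rw [Derivation.map_algebraMap, mul_zero]
  rw [Finset.sum_congr rfl fun c _ => h1 c, Finset.sum_add_distrib, Finset.sum_add_distrib,
    ← Finset.sum_mul, ← Finset.mul_sum, h2, mul_zero, add_zero, h, ← Finset.sum_mul,
    Algebra.smul_def]

/-- smooth functions with values in `k × k` matrices -/
def SmK (L : LD G N n) {E : Type*} [Fintype E] (F : (E → G) → Mat k) : Prop :=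
  ∃ Ft : (E → Mat N) → Mat k, ContDiff ℝ ∞ Ft ∧ ∀ U, F U = Ft (L.mat U)

section

variable {E : Type*} [Fintype E] [DecidableEq E]

/-- real coordinates of a smooth matrix function -/
def cdm {F : (E → G) → Mat k} (hF : SmK L F) (c : Fin k × Fin k × Bool) : Sm L E :=
  ⟨fun U => co c (F U), by
    obtain ⟨f, hf, h⟩ := hF
    exact ⟨fun M => co c (f M), (co c).contDiff.comp hf, fun U => by simp only [h]⟩⟩

lemma Dv_cdm {F : (E → G) → Mat k} (hF : SmK L F) (c : Fin k × Fin k × Bool) (j : E × Fin n)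
    (U : E → G) {Y : Mat k} (hY : HasDerivAt (fun t => F (L.shift j.1 j.2 t U)) Y 0) :
    (L.Dv j (cdm hF c)).1 U = co c Y := by
  rw [Dv_apply]
  unfold LD.dF
  exact ((co c).hasFDerivAt.comp_hasDerivAt (0 : ℝ) hY).deriv

lemma sum_co (M : Mat k) : ∑ c, co c M ^ 2 = ‖M‖ ^ 2 := by rw [sum_co_sq, nsq]

end

variable [NeZero l]

/-! ### translations -/

/-- translation of links -/
def ts (s : Fin 3 → ZMod l) (f : Ed 3 l) : Ed 3 l := (f.1 + s, f.2)

lemma ts_inj (s : Fin 3 → ZMod l) : Function.Injective (ts s) := by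
  intro f f' h
  have h1 := congrArg Prod.fst h
  have h2 := congrArg Prod.snd h
  exact Prod.ext (add_right_cancel (b := s) h1) h2

lemma ts_bij (s : Fin 3 → ZMod l) : Function.Bijective (ts s) :=
  Finite.injective_iff_bijective.1 (ts_inj s)

/-- translation of functions -/
def tS (L : LD G N n) (s : Fin 3 → ZMod l) : Sm L (Ed 3 l) →ₐ[ℝ] Sm L (Ed 3 l) := pull (ts s)

lemma tS_apply (s : Fin 3 → ZMod l) (F : Sm L (Ed 3 l)) (U : Ed 3 l → G) :
    (tS L s F).1 U = F.1 (tr s U) := rfl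

lemma Gam_tS (s : Fin 3 → ZMod l) (F H : Sm L (Ed 3 l)) :
    Gam L.Dv (tS L s F) (tS L s H) = tS L s (Gam L.Dv F H) := by
  unfold Gam
  rw [map_sum]
  have hb : Function.Bijective (fun j : Ed 3 l × Fin n => (ts s j.1, j.2)) := by
    refine Finite.injective_iff_bijective.1 fun j j' h => ?_
    have h1 := congrArg Prod.fst h
    have h2 := congrArg Prod.snd h
    exact Prod.ext (ts_inj s h1) h2
  rw [← Function.Bijective.sum_comp hb]
  refine Finset.sum_congr rfl fun j _ => ?_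
  rw [map_mul]
  have h1 := Dv_pull (L := L) (ts_inj s) j F
  have h2 := Dv_pull (L := L) (ts_inj s) j H
  unfold tS
  rw [h1, h2]

lemma tS_VT (s : Fin 3 → ZMod l) : tS L s (VT L 3 l) = VT L 3 l := by
  refine ev_ext fun U => ?_
  have h1 : L.ev U (tS L s (VT L 3 l)) = L.ev (tr s U) (VT L 3 l) := rfl
  rw [h1, VT_apply, VT_apply]
  simp only [plqT_tr]
  have hb : Function.Bijective (fun p : Pl 3 l => (⟨(p.1.1 + s, p.1.2), p.2⟩ : Pl 3 l)) := by
    refine Finite.injective_iff_bijective.1 fun p p' h => ?_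
    have h0 := congrArg Subtype.val h
    have h2 := congrArg Prod.fst h0
    have h3 := congrArg Prod.snd h0
    exact Subtype.ext (Prod.ext (add_right_cancel (b := s) h2) h3)
  exact Function.Bijective.sum_comp hb (fun p : Pl 3 l => we L (plqT U p.1.1 p.1.2.1 p.1.2.2))

lemma VTn (U : Ed 3 l → G) : 0 ≤ L.ev U (VT L 3 l) := by
  rw [VT_apply]; exact Finset.sum_nonneg fun _ _ => we_nonneg _

lemma tr_gt (s : Fin 3 → ZMod l) (γ : (Fin 3 → ZMod l) → G) (U : Ed 3 l → G) :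
    tr s (gt γ U) = gt (fun x => γ (x + s)) (tr s U) := by
  funext f
  unfold tr gt
  dsimp only
  rw [add_right_comm f.1 s (eT f.2)]

lemma Inv_tS (s : Fin 3 → ZMod l) {u : Sm L (Ed 3 l)} (hu : Inv u) : Inv (tS L s u) := by
  intro γ
  refine ev_ext fun U => ?_
  show u.1 (tr s (gt γ U)) = u.1 (tr s U)
  rw [tr_gt]
  exact congrArg (fun v : Sm L (Ed 3 l) => v.1 (tr s U)) (hu (fun x => γ (x + s)))

variable [IsTopologicalGroup G] [CompactSpace G] [SecondCountableTopology G]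
  [MeasurableSpace G] [BorelSpace G] (μ : Measure G) [IsProbabilityMeasure μ]
  [μ.IsMulLeftInvariant]

lemma integral_tr (s : Fin 3 → ZMod l) (F : (Ed 3 l → G) → ℝ) :
    ∫ U, F (tr s U) ∂(ME μ (Ed 3 l)) = ∫ U, F U ∂(ME μ (Ed 3 l)) := by
  set E : Ed 3 l ≃ Ed 3 l := ⟨fun e => (e.1 - s, e.2), fun e => (e.1 + s, e.2),
    fun e => by simp, fun e => by simp⟩ with hE
  have h1 := measurePreserving_piCongrLeft (fun _ : Ed 3 l => μ) E
  have h2 : ((MeasurableEquiv.piCongrLeft (fun _ : Ed 3 l => G) E) :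
      (Ed 3 l → G) → (Ed 3 l → G)) = tr s := by
    funext U e
    have h6 : e = E (e.1 + s, e.2) := by simp [hE]
    conv_lhs => rw [h6]
    exact Equiv.piCongrLeft_apply_apply (fun _ : Ed 3 l => G) E U (e.1 + s, e.2)
  have h3 := h1.integral_comp (MeasurableEquiv.measurableEmbedding _) F
  rw [← h3, ← h2]

lemma I_tS (s : Fin 3 → ZMod l) (F : Sm L (Ed 3 l)) : L.I μ (tS L s F) = L.I μ F :=
  integral_tr μ s F.1

/-- the energy -/
def en (g : ℝ) (u : Sm L (Ed 3 l)) : ℝ :=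
  g ^ 2 / 2 * L.I μ (Gam L.Dv u u) + 1 / g ^ 2 * L.I μ (VT L 3 l * (u * u))

lemma en_tS (g : ℝ) (s : Fin 3 → ZMod l) (u : Sm L (Ed 3 l)) : en μ g (tS L s u) = en μ g u := by
  unfold en
  rw [Gam_tS, I_tS]
  have h1 : VT L 3 l * (tS L s u * tS L s u) = tS L s (VT L 3 l * (u * u)) := by
    rw [map_mul, map_mul, tS_VT]
  rw [h1, I_tS]

lemma en_smul (g c : ℝ) (u : Sm L (Ed 3 l)) : en μ g (c • u) = c ^ 2 * en μ g u := by
  unfold en
  rw [Gam_smul, Gam_comm, Gam_smul, mul_smul_comm, smul_mul_assoc, mul_smul_comm, mul_smul_comm,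
    map_smul, map_smul, map_smul, map_smul]
  simp only [smul_eq_mul]
  ring

lemma en_nonneg (g : ℝ) (u : Sm L (Ed 3 l)) : 0 ≤ en μ g u := by
  unfold en
  have h1 : 0 ≤ L.I μ (Gam L.Dv u u) := by
    unfold Gam
    rw [map_sum]
    exact Finset.sum_nonneg fun j _ => I_sq_nonneg μ _
  have h2 : 0 ≤ L.I μ (VT L 3 l * (u * u)) := I_nonneg μ fun U => by
    rw [map_mul, map_mul]
    exact mul_nonneg (VTn U) (mul_self_nonneg _)
  positivity

/-! ### the trial state -/

/-- the string as a function of the configuration -/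
def strF (P : RepD L k) (x : Fin 3 → ZMod l) (R : ℕ) (m : Fin 3 → ℤ) (U : Ed 3 l → G) : Mat k :=
  str (P.cf U) x R m

lemma strF_sm (P : RepD L k) (x : Fin 3 → ZMod l) (R : ℕ) (m : Fin 3 → ℤ) :
    SmK L (strF P x R m) := by
  have h : ∀ e : Ed 3 l, ContDiff ℝ ∞ (fun M : Ed 3 l → Mat N => P.ext (M e)) := fun e =>
    P.smooth.comp (contDiff_apply ℝ (Mat N) e)
  refine ⟨fun M => str (fun e => P.ext (M e)) x R m, contDiff_str h x R m, fun U => ?_⟩
  unfold strF
  have h2 : P.cf U = fun e => P.ext (L.mat U e) := funext fun e => P.ext_eq _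
  rw [h2]

lemma strF_cov (P : RepD L k) (x : Fin 3 → ZMod l) {R : ℕ} (hR : 1 ≤ R) (m : Fin 3 → ℤ)
    (γ : (Fin 3 → ZMod l) → G) (U : Ed 3 l → G) :
    strF P x R m (gt γ U) = P.rep (γ x) * strF P x R m U * (P.rep (γ (ep x m)))ᴴ := by
  unfold strF
  refine str_cov (g := fun y => P.rep (γ y)) (fun y => P.unit _) (fun f => ?_) x hR m
  unfold RepD.cf gt
  rw [map_mul, map_mul, P.inv]

/-- sum of the squares of the derivatives of the matrix entries -/
def GF (P : RepD L k) (x : Fin 3 → ZMod l) (R : ℕ) (m : Fin 3 → ℤ) : Sm L (Ed 3 l) :=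
  ∑ c, Gam L.Dv (cdm (strF_sm P x R m) c) (cdm (strF_sm P x R m) c)

lemma GF_le (P : RepD L k) (x : Fin 3 → ZMod l) {R : ℕ} (hR : 1 ≤ R) (hRl : R ≤ l)
    {m : Fin 3 → ℤ} (hm : ∀ j, (m j).natAbs < l) (U : Ed 3 l → G) :
    L.ev U (GF P x R m) ≤ 15 * (∑ a, ‖P.Y a‖ ^ 2) * (65 * Hm R * NS (P.cf U) x R m +
        16 * (1 + 6 * Real.sqrt k) ^ 2 * (3 + len m / (R : ℝ) ^ 2)) := by
  have h1 : ∀ a : Fin n, ∃ F' : Ed 3 l → Mat k,
      (∀ f, HasDerivAt (fun s => strF P x R m (L.shift f a s U)) (F' f) 0) ∧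
      ∑ f, ‖F' f‖ ^ 2 ≤ 15 * ‖P.Y a‖ ^ 2 * (65 * Hm R * NS (P.cf U) x R m +
        16 * (1 + 6 * Real.sqrt k) ^ 2 * (3 + len m / (R : ℝ) ^ 2)) := by
    intro a
    exact str_grad (u := P.cf U) (c := fun f e s => P.cf (L.shift f a s U) e)
      (fun f e s => P.cf_un _ _) (fun f e => by rw [L.shift_zero])
      (fun f e => by
        have := P.cf_deriv U f e a
        simpa only [L.shift_zero] using this) x hR hRl hm
  choose F' h2 h3 using h1
  unfold GF Gam
  rw [map_sum]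
  simp only [map_sum, map_mul]
  rw [Finset.sum_comm]
  have h4 : ∀ j : Ed 3 l × Fin n, ∑ c, L.ev U (L.Dv j (cdm (strF_sm P x R m) c)) *
      L.ev U (L.Dv j (cdm (strF_sm P x R m) c)) = ‖F' j.2 j.1‖ ^ 2 := by
    intro j
    rw [← sum_co]
    refine Finset.sum_congr rfl fun c _ => ?_
    have := Dv_cdm (strF_sm P x R m) c j U (h2 j.2 j.1)
    rw [ev_apply, this, sq]
  rw [Finset.sum_congr rfl fun j _ => h4 j, Fintype.sum_prod_type, Finset.sum_comm]
  refine (Finset.sum_le_sum fun a _ => h3 a).trans (le_of_eq ?_)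
  rw [← Finset.sum_mul, ← Finset.mul_sum]

/-- the energy of the trial state -/
lemma trial_en (P : RepD L k) (x : Fin 3 → ZMod l) (R : ℕ) (m : Fin 3 → ℤ) (g : ℝ)
    (w : Sm L (Ed 3 l)) : ∑ c, en μ g (cdm (strF_sm P x R m) c * w) =
      k * en μ g w + g ^ 2 / 2 * L.I μ (GF P x R m * (w * w)) := by
  have hsq : ∑ c, cdm (strF_sm P x R m) c * cdm (strF_sm P x R m) c =
      algebraMap ℝ (Sm L (Ed 3 l)) k := by
    refine ev_ext fun U => ?_
    rw [map_sum]
    have h1 : ∀ c, L.ev U (cdm (strF_sm P x R m) c * cdm (strF_sm P x R m) c) =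
        co c (strF P x R m U) ^ 2 := fun c => by
      rw [map_mul, sq]; rfl
    have h2 : ‖strF P x R m U‖ = Real.sqrt k := norm_un (str_un (P.cf_un U) x R m)
    rw [Finset.sum_congr rfl fun c _ => h1 c, sum_co, h2, Real.sq_sqrt (Nat.cast_nonneg k)]
    rfl
  have h1 := Gam_unit (D := L.Dv (E := Ed 3 l)) (fun c => cdm (strF_sm P x R m) c) k hsq w
  unfold en
  rw [Finset.sum_add_distrib, ← Finset.mul_sum, ← Finset.mul_sum, ← map_sum, ← map_sum, h1]
  have h2 : ∑ c, VT L 3 l * (cdm (strF_sm P x R m) c * w * (cdm (strF_sm P x R m) c * w)) =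
      (k : ℝ) • (VT L 3 l * (w * w)) := by
    have h3 : ∀ c, VT L 3 l * (cdm (strF_sm P x R m) c * w * (cdm (strF_sm P x R m) c * w)) =
        (cdm (strF_sm P x R m) c * cdm (strF_sm P x R m) c) * (VT L 3 l * (w * w)) :=
      fun c => by ring
    rw [Finset.sum_congr rfl fun c _ => h3 c, ← Finset.sum_mul, hsq, Algebra.smul_def]
  rw [h2, map_add, map_smul, map_smul, smul_eq_mul, smul_eq_mul]
  have h3 : GF P x R m = ∑ c, Gam L.Dv (cdm (strF_sm P x R m) c) (cdm (strF_sm P x R m) c) := rfl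
  rw [← h3]
  ring

/-- the trial state in a good position -/
theorem trial_pos (P : RepD L k) {κ : ℝ} (hκ0 : 0 ≤ κ)
    (hκ : ∀ g, ‖P.rep g - 1‖ ^ 2 ≤ κ * we L g) (x : Fin 3 → ZMod l) {R : ℕ} (hR : 1 ≤ R)
    (hRl : R ≤ l) {m : Fin 3 → ℤ} (hm : ∀ j, (m j).natAbs < l) (w : Sm L (Ed 3 l)) :
    ∃ s : Fin 3 → ZMod l, (l : ℝ) ^ 3 * L.I μ (GF P x R m * (tS L s w * tS L s w)) ≤
      15 * (∑ a, ‖P.Y a‖ ^ 2) * (
        16 * (1 + 6 * Real.sqrt k) ^ 2 * (3 + len m / (R : ℝ) ^ 2) * (l : ℝ) ^ 3 * L.I μ (w * w) +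
        65 * Hm R * (len m * (R : ℝ) ^ 2 * κ) * L.I μ (VT L 3 l * (w * w))) := by
  classical
  set YY := ∑ a, ‖P.Y a‖ ^ 2 with hYY
  set c0 := 16 * (1 + 6 * Real.sqrt k) ^ 2 * (3 + len m / (R : ℝ) ^ 2) with hc0
  set B := 15 * YY * (c0 * (l : ℝ) ^ 3 * L.I μ (w * w) +
        65 * Hm R * (len m * (R : ℝ) ^ 2 * κ) * L.I μ (VT L 3 l * (w * w))) with hB
  have hHm : 0 ≤ Hm R := by linarith [Hm_ge hR]
  have hYY0 : 0 ≤ YY := Finset.sum_nonneg fun _ _ => sq_nonneg _
  have hcard : (Finset.univ : Finset (Fin 3 → ZMod l)).card = l ^ 3 := by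
    rw [Finset.card_univ, Fintype.card_fun, Fintype.card_fin, ZMod.card]
  have hsum : ∑ s : Fin 3 → ZMod l, L.I μ (GF P x R m * (tS L (-s) w * tS L (-s) w)) ≤ B := by
    have h1 : ∀ s : Fin 3 → ZMod l, L.I μ (GF P x R m * (tS L (-s) w * tS L (-s) w)) =
        L.I μ (tS L s (GF P x R m) * (w * w)) := by
      intro s
      have h2 : tS L s (tS L (-s) w) = w := by
        refine ev_ext fun U => ?_
        show w.1 (tr (-s) (tr s U)) = w.1 U
        refine congrArg w.1 (funext fun f => ?_)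
        unfold tr
        simp
      have h3 : tS L s (GF P x R m * (tS L (-s) w * tS L (-s) w)) =
          tS L s (GF P x R m) * (w * w) := by
        rw [map_mul, map_mul, h2]
      rw [← h3, I_tS]
    rw [Finset.sum_congr rfl fun s _ => h1 s, ← map_sum, ← Finset.sum_mul]
    have h3 : L.I μ ((∑ s : Fin 3 → ZMod l, tS L s (GF P x R m)) * (w * w)) ≤
        L.I μ ((15 * YY) • ((c0 * (l : ℝ) ^ 3) • (w * w) +
          (65 * Hm R * (len m * (R : ℝ) ^ 2 * κ)) • (VT L 3 l * (w * w)))) := by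
      refine I_mono μ fun U => ?_
      rw [map_mul, map_smul, map_add, map_smul, map_smul, map_mul (L.ev U) (VT L 3 l), map_sum,
        smul_eq_mul, smul_eq_mul, smul_eq_mul]
      have hw0 : 0 ≤ L.ev U (w * w) := by rw [map_mul]; exact mul_self_nonneg _
      have h4 : ∀ s : Fin 3 → ZMod l, L.ev U (tS L s (GF P x R m)) ≤
          15 * YY * (65 * Hm R * NS (P.cf (tr s U)) x R m + c0) := fun s =>
        GF_le P x hR hRl hm (tr s U)
      have h5 := Finset.sum_le_sum fun s (_ : s ∈ Finset.univ) => h4 s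
      rw [← Finset.mul_sum, Finset.sum_add_distrib, ← Finset.mul_sum,
        Finset.sum_const, hcard, nsmul_eq_mul] at h5
      have h6 := NS_sum P hκ0 hκ U x hR m
      have h7 : 15 * YY * (65 * Hm R * ∑ s, NS (P.cf (tr s U)) x R m +
          ((l ^ 3 : ℕ) : ℝ) * c0) ≤
          15 * YY * (c0 * (l : ℝ) ^ 3 +
            65 * Hm R * (len m * (R : ℝ) ^ 2 * κ) * L.ev U (VT L 3 l)) := by
        refine mul_le_mul_of_nonneg_left ?_ (by positivity)
        push_cast
        have h8 := mul_le_mul_of_nonneg_left h6 (show 0 ≤ 65 * Hm R by positivity)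
        linarith
      have h8 := mul_le_mul_of_nonneg_right (h5.trans h7) hw0
      refine h8.trans (le_of_eq ?_)
      ring
    refine h3.trans (le_of_eq ?_)
    rw [map_smul, map_add, map_smul, map_smul, hB]
    simp only [smul_eq_mul]
  obtain ⟨s, -, hs⟩ := Finset.exists_le_of_sum_le (s := (Finset.univ : Finset (Fin 3 → ZMod l)))
    (f := fun s => L.I μ (GF P x R m * (tS L (-s) w * tS L (-s) w)))
    (g := fun _ => B / (l : ℝ) ^ 3) Finset.univ_nonempty (by
      rw [Finset.sum_const, hcard, nsmul_eq_mul]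
      have hl : (l : ℝ) ≠ 0 := by exact_mod_cast NeZero.ne l
      push_cast
      rw [mul_div_cancel₀ _ (pow_ne_zero 3 hl)]
      exact hsum)
  refine ⟨-s, ?_⟩
  have hl : (0 : ℝ) < (l : ℝ) ^ 3 := by
    have : 0 < l := Nat.pos_of_ne_zero (NeZero.ne l)
    positivity
  have h9 := mul_le_mul_of_nonneg_left hs hl.le
  rw [mul_div_cancel₀ _ hl.ne'] at h9
  exact h9

end

end Pool.Agent.Y13.YM
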