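import Mathlib
import Pool.Agent.Y13.YM.En

/-!
# Lower bound of the energies of charged states
-/

open MeasureTheory Matrix
open scoped Matrix.Norms.Frobenius ContDiff

namespace Pool.Agent.Y13.YM

open Pool.Agent.H906R3.YM

set_option linter.unusedSectionVars false
set_option maxHeartbeats 400000

noncomputable section

variable {G : Type*} [Group G] [TopologicalSpace G] {N n k l : ℕ} {L : LD G N n}

/-- derivative of an extension along a link -/
def DX (L : LD G N n) (Ft : (Ed 3 l → Mat N) → Mat k) [NeZero l] (U : Ed 3 l → G)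
    (e : Ed 3 l) (a : Fin n) : Mat k := fderiv ℝ Ft (L.mat U) (L.vf e a (L.mat U))

variable [NeZero l]

lemma DX_deriv {Ft : (Ed 3 l → Mat N) → Mat k} (hs : ContDiff ℝ ∞ Ft) {F : (Ed 3 l → G) → Mat k}
    (hF : ∀ U, F U = Ft (L.mat U)) (U : Ed 3 l → G) (e : Ed 3 l) (a : Fin n) :
    HasDerivAt (fun t => F (L.shift e a t U)) (DX L Ft U e a) 0 := by
  have h1 : (fun t => F (L.shift e a t U)) = fun t => Ft (L.mat (L.shift e a t U)) :=
    funext fun t => hF _
  rw [h1]
  have h2 : HasFDerivAt Ft (fderiv ℝ Ft (L.mat U)) (L.mat (L.shift e a 0 U)) := by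
    rw [L.shift_zero]
    exact (hs.differentiable (by simp)).differentiableAt.hasFDerivAt
  exact h2.comp_hasDerivAt (0 : ℝ) (L.hasDerivAt_mat e a U)

/-- a gauge transformation at one site -/
def g1 (L : LD G N n) (x : Fin 3 → ZMod l) (a : Fin n) (t : ℝ) : (Fin 3 → ZMod l) → G :=
  Pi.mulSingle x (L.ex a t)

lemma g1_deriv (x y : Fin 3 → ZMod l) (a : Fin n) :
    HasDerivAt (fun t => L.rho (g1 L x a t y)) (if y = x then L.X a else 0) 0 := by
  unfold g1
  split_ifs with h
  · subst h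
    simp only [Pi.mulSingle_eq_same]
    exact L.deriv_ex a
  · simp only [Pi.mulSingle_eq_of_ne h, map_one]
    exact hasDerivAt_const _ _

lemma g1_zero (x : Fin 3 → ZMod l) (a : Fin n) : g1 L x a 0 = 1 := by
  unfold g1
  rw [L.ex_zero, Pi.mulSingle_one]

lemma gt_one (U : Ed 3 l → G) : gt (1 : (Fin 3 → ZMod l) → G) U = U := by
  funext e
  simp [gt]

/-- the generator of the gauge transformations -/
def gz (L : LD G N n) (x : Fin 3 → ZMod l) (a : Fin n) (U : Ed 3 l → G) : Ed 3 l → Mat N :=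
  ∑ e : Ed 3 l, ((if e.1 = x then L.vf e a (L.mat U) else 0) -
    (if e.1 + eT e.2 = x then ∑ b, L.adm (U e) b a • L.vf e b (L.mat U) else 0))

lemma gz_apply (x : Fin 3 → ZMod l) (a : Fin n) (U : Ed 3 l → G) (e : Ed 3 l) :
    gz L x a U e = (if e.1 = x then L.X a * L.rho (U e) else 0) -
      (if e.1 + eT e.2 = x then L.rho (U e) * L.X a else 0) := by
  have h0 : ∀ (e' : Ed 3 l) (b : Fin n), L.vf e' b (L.mat U) e =
      if e' = e then L.X b * L.rho (U e) else 0 := by
    intro e' b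
    unfold LD.vf
    split_ifs with h
    · subst h; rw [Pi.single_eq_same]; rfl
    · rw [Pi.single_eq_of_ne (fun hh => h hh.symm)]
  unfold gz
  rw [Finset.sum_apply, Finset.sum_eq_single e]
  · rw [Pi.sub_apply]
    congr 1
    · split_ifs
      · rw [h0, if_pos rfl]
      · rfl
    · split_ifs
      · rw [Finset.sum_apply]
        have h1 : ∀ b, (L.adm (U e) b a • L.vf e b (L.mat U)) e =
            L.adm (U e) b a • L.X b * L.rho (U e) := fun b => by
          rw [Pi.smul_apply, h0, if_pos rfl, smul_mul_assoc]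
        rw [Finset.sum_congr rfl fun b _ => h1 b, ← Finset.sum_mul, ← conj_eq, mul_assoc,
          L.unit', mul_one]
      · rfl
  · intro e' _ he'
    rw [Pi.sub_apply]
    have h1 : (if e'.1 = x then L.vf e' a (L.mat U) else 0 : Ed 3 l → Mat N) e = 0 := by
      split_ifs
      · rw [h0, if_neg he']
      · rfl
    have h2 : (if e'.1 + eT e'.2 = x then ∑ b, L.adm (U e') b a • L.vf e' b (L.mat U) else 0 :
        Ed 3 l → Mat N) e = 0 := by
      split_ifs
      · rw [Finset.sum_apply]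
        refine Finset.sum_eq_zero fun b _ => ?_
        rw [Pi.smul_apply, h0, if_neg he', smul_zero]
      · rfl
    rw [h1, h2, sub_zero]
  · intro h; exact absurd (Finset.mem_univ _) h

lemma mat_gt_deriv (x : Fin 3 → ZMod l) (a : Fin n) (U : Ed 3 l → G) :
    HasDerivAt (fun t => L.mat (gt (g1 L x a t) U)) (gz L x a U) 0 := by
  refine hasDerivAt_pi.2 fun e => ?_
  rw [gz_apply]
  have h1 : (fun t => L.mat (gt (g1 L x a t) U) e) = fun t =>
      L.rho (g1 L x a t e.1) * L.rho (U e) * (L.rho (g1 L x a t (e.1 + eT e.2)))ᴴ := by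
    funext t
    unfold LD.mat gt
    rw [map_mul, map_mul, L.rho_inv]
  rw [h1]
  have h2 := ((g1_deriv (L := L) x e.1 a).mul_const (L.rho (U e))).mul
    (hasDerivAt_ct (g1_deriv (L := L) x (e.1 + eT e.2) a))
  refine h2.congr_deriv ?_
  rw [g1_zero]
  simp only [Pi.one_apply, map_one, conjTranspose_one, mul_one, one_mul]
  rw [sub_eq_add_neg]
  congr 1
  · split_ifs
    · rfl
    · rw [zero_mul]
  · split_ifs
    · rw [skew (L := L) a, mul_neg]
    · rw [conjTranspose_zero, mul_zero, neg_zero]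

/-- the Gauss law -/
lemma gauss {Ft : (Ed 3 l → Mat N) → Mat k} (hs : ContDiff ℝ ∞ Ft) {F : (Ed 3 l → G) → Mat k}
    (hF : ∀ U, F U = Ft (L.mat U)) (P : RepD L k) {x y : Fin 3 → ZMod l} (hxy : x ≠ y)
    (hc : ∀ γ U, F (gt γ U) = P.rep (γ x) * F U * (P.rep (γ y))ᴴ) (U : Ed 3 l → G) (a : Fin n) :
    P.Y a * F U = ∑ e : Ed 3 l, ((if e.1 = x then DX L Ft U e a else 0) -
      (if e.1 + eT e.2 = x then ∑ b, L.adm (U e) b a • DX L Ft U e b else 0)) := by
  have h1 : HasDerivAt (fun t => F (gt (g1 L x a t) U)) (P.Y a * F U) 0 := by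
    have e1 : (fun t => F (gt (g1 L x a t) U)) = fun t => P.rep (L.ex a t) * F U := by
      funext t
      rw [hc]
      unfold g1
      rw [Pi.mulSingle_eq_same, Pi.mulSingle_eq_of_ne hxy.symm, map_one, conjTranspose_one,
        mul_one]
    rw [e1]
    exact (P.deriv_ex a).mul_const _
  have h2 : HasDerivAt (fun t => F (gt (g1 L x a t) U))
      (fderiv ℝ Ft (L.mat U) (gz L x a U)) 0 := by
    have e1 : (fun t => F (gt (g1 L x a t) U)) = fun t => Ft (L.mat (gt (g1 L x a t) U)) :=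
      funext fun t => hF _
    rw [e1]
    have h3 : HasFDerivAt Ft (fderiv ℝ Ft (L.mat U)) (L.mat (gt (g1 L x a 0) U)) := by
      rw [g1_zero, gt_one]
      exact (hs.differentiable (by simp)).differentiableAt.hasFDerivAt
    exact h3.comp_hasDerivAt (0 : ℝ) (mat_gt_deriv x a U)
  rw [h1.unique h2]
  unfold gz
  rw [map_sum]
  refine Finset.sum_congr rfl fun e _ => ?_
  rw [map_sub]
  congr 1
  · split_ifs
    · rfl
    · rw [map_zero]
  · split_ifs
    · rw [map_sum]
      exact Finset.sum_congr rfl fun b _ => by rw [map_smul]; rfl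
    · rw [map_zero]

lemma nsq_sum_le {S : Type*} (s : Finset S) (v : S → Mat k) :
    ‖∑ i ∈ s, v i‖ ^ 2 ≤ s.card * ∑ i ∈ s, ‖v i‖ ^ 2 := by
  have h1 := norm_sum_le s v
  have h2 := pow_le_pow_left₀ (norm_nonneg _) h1 2
  refine h2.trans ?_
  have h3 := sq_sum_le_card_mul_sum_sq (s := s) (f := fun i => ‖v i‖)
  exact_mod_cast h3

lemma orth_sum (g : G) (w : Fin n → Mat k) :
    ∑ a, ‖∑ b, L.adm g b a • w b‖ ^ 2 = ∑ b, ‖w b‖ ^ 2 := by
  have h1 : ∀ a, ‖∑ b, L.adm g b a • w b‖ ^ 2 =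
      ∑ c, ∑ b, ∑ b', L.adm g b a * L.adm g b' a * (co c (w b) * co c (w b')) := by
    intro a
    rw [← sum_co]
    refine Finset.sum_congr rfl fun c _ => ?_
    rw [map_sum, sq, Finset.sum_mul_sum]
    refine Finset.sum_congr rfl fun b _ => Finset.sum_congr rfl fun b' _ => ?_
    rw [map_smul, map_smul, smul_eq_mul, smul_eq_mul]
    ring
  rw [Finset.sum_congr rfl fun a _ => h1 a]
  have h2 : ∀ b, ‖w b‖ ^ 2 = ∑ c, co c (w b) ^ 2 := fun b => (sum_co _).symm
  rw [Finset.sum_congr rfl fun b _ => h2 b, Finset.sum_comm, Finset.sum_comm (s := Finset.univ)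
    (t := Finset.univ) (f := fun (b : Fin n) c => co c (w b) ^ 2)]
  refine Finset.sum_congr rfl fun c _ => ?_
  rw [Finset.sum_comm]
  refine Finset.sum_congr rfl fun b _ => ?_
  rw [Finset.sum_comm]
  have h3 : ∀ b', ∑ a, L.adm g b a * L.adm g b' a * (co c (w b) * co c (w b')) =
      (if b = b' then 1 else 0) * (co c (w b) * co c (w b')) := by
    intro b'
    rw [← Finset.sum_mul, sum_adm_adm]
  rw [Finset.sum_congr rfl fun b' _ => h3 b', Finset.sum_eq_single b]
  · rw [if_pos rfl, one_mul, sq]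
  · intro b' _ hb'
    rw [if_neg (fun h => hb' h.symm), zero_mul]
  · intro h; exact absurd (Finset.mem_univ _) h

lemma card_out (x : Fin 3 → ZMod l) :
    (Finset.univ.filter fun e : Ed 3 l => e.1 = x ∨ e.1 + eT e.2 = x).card ≤ 6 := by
  classical
  have h1 : (Finset.univ.filter fun e : Ed 3 l => e.1 = x ∨ e.1 + eT e.2 = x) ⊆
      (Finset.univ.image fun i : Fin 3 => ((x, i) : Ed 3 l)) ∪
        (Finset.univ.image fun i : Fin 3 => ((x - eT i, i) : Ed 3 l)) := by
    intro e he
    rw [Finset.mem_filter] at he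
    rw [Finset.mem_union, Finset.mem_image, Finset.mem_image]
    rcases he.2 with h | h
    · exact Or.inl ⟨e.2, Finset.mem_univ _, Prod.ext h.symm rfl⟩
    · exact Or.inr ⟨e.2, Finset.mem_univ _, Prod.ext (by rw [← h]; simp) rfl⟩
  refine (Finset.card_le_card h1).trans ((Finset.card_union_le _ _).trans ?_)
  have h2 := Finset.card_image_le (s := (Finset.univ : Finset (Fin 3)))
    (f := fun i : Fin 3 => ((x, i) : Ed 3 l))
  have h3 := Finset.card_image_le (s := (Finset.univ : Finset (Fin 3)))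
    (f := fun i : Fin 3 => ((x - eT i, i) : Ed 3 l))
  simp only [Finset.card_univ, Fintype.card_fin] at h2 h3
  omega

/-- the electric energy of a charge -/
lemma gauss_le {Ft : (Ed 3 l → Mat N) → Mat k} (hs : ContDiff ℝ ∞ Ft)
    {F : (Ed 3 l → G) → Mat k} (hF : ∀ U, F U = Ft (L.mat U)) (P : RepD L k)
    {x y : Fin 3 → ZMod l} (hl : 2 ≤ l) (hxy : x ≠ y)
    (hc : ∀ γ U, F (gt γ U) = P.rep (γ x) * F U * (P.rep (γ y))ᴴ) (U : Ed 3 l → G)
    (T : Mat k →ₗ[ℝ] Mat k) :
    ∑ a, ‖T (P.Y a * F U)‖ ^ 2 ≤ 6 * ∑ e : Ed 3 l, ∑ a, ‖T (DX L Ft U e a)‖ ^ 2 := by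
  classical
  have hne : ∀ i : Fin 3, ∀ z : Fin 3 → ZMod l, z + eT i ≠ z := by
    intro i z h
    have h1 : (eT i : Fin 3 → ZMod l) = 0 := by
      have := congrArg (fun v => v - z) h
      simpa using this
    have h2 := congrFun h1 i
    rw [eT_same] at h2
    haveI : Fact (1 < l) := ⟨by omega⟩
    exact one_ne_zero h2
  set S := Finset.univ.filter fun e : Ed 3 l => e.1 = x ∨ e.1 + eT e.2 = x with hS
  set v : Ed 3 l → Fin n → Mat k := fun e a => (if e.1 = x then DX L Ft U e a else 0) -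
      (if e.1 + eT e.2 = x then ∑ b, L.adm (U e) b a • DX L Ft U e b else 0) with hv
  have h1 : ∀ a, T (P.Y a * F U) = ∑ e ∈ S, T (v e a) := by
    intro a
    rw [gauss hs hF P hxy hc U a, map_sum]
    symm
    refine Finset.sum_subset (Finset.subset_univ _) fun e _ he => ?_
    have h2 : ¬(e.1 = x ∨ e.1 + eT e.2 = x) := by
      intro h; exact he (Finset.mem_filter.2 ⟨Finset.mem_univ _, h⟩)
    rw [not_or] at h2
    rw [hv]
    dsimp only
    rw [if_neg h2.1, if_neg h2.2, sub_zero, map_zero]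
  have h3 : ∀ a, ‖T (P.Y a * F U)‖ ^ 2 ≤ 6 * ∑ e ∈ S, ‖T (v e a)‖ ^ 2 := by
    intro a
    rw [h1]
    refine (nsq_sum_le _ _).trans ?_
    have h4 : ((S.card : ℕ) : ℝ) ≤ 6 := by exact_mod_cast card_out x
    exact mul_le_mul_of_nonneg_right h4 (Finset.sum_nonneg fun _ _ => sq_nonneg _)
  refine (Finset.sum_le_sum fun a _ => h3 a).trans ?_
  rw [← Finset.mul_sum, Finset.sum_comm]
  refine mul_le_mul_of_nonneg_left ?_ (by norm_num)
  have h5 : ∀ e ∈ S, ∑ a, ‖T (v e a)‖ ^ 2 = ∑ a, ‖T (DX L Ft U e a)‖ ^ 2 := by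
    intro e he
    rw [hS, Finset.mem_filter] at he
    rcases he.2 with h | h
    · have h6 : ¬(e.1 + eT e.2 = x) := by rw [h]; exact hne _ _
      refine Finset.sum_congr rfl fun a _ => ?_
      rw [hv]
      dsimp only
      rw [if_pos h, if_neg h6, sub_zero]
    · have h6 : ¬(e.1 = x) := by
        intro h7; rw [← h7] at h; exact hne _ _ h
      have h7 : ∀ a, T (v e a) = -∑ b, L.adm (U e) b a • T (DX L Ft U e b) := by
        intro a
        rw [hv]
        dsimp only
        rw [if_neg h6, if_pos h, zero_sub, map_neg, map_sum]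
        congr 1
        exact Finset.sum_congr rfl fun b _ => map_smul _ _ _
      rw [Finset.sum_congr rfl fun a _ => by rw [h7 a, norm_neg]]
      exact orth_sum (L := L) (U e) fun b => T (DX L Ft U e b)
  rw [Finset.sum_congr rfl h5]
  exact Finset.sum_le_sum_of_subset_of_nonneg (Finset.subset_univ _) fun e _ _ =>
    Finset.sum_nonneg fun _ _ => sq_nonneg _

end

end Pool.Agent.Y13.YM
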