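import Mathlib
import Pool.Agent.Y13.YM.Low
import Pool.Agent.W793.YM.Meas

/-!
# Lower bound of the energies of charged states: the vacuum part
-/

open MeasureTheory Matrix
open scoped Matrix.Norms.Frobenius ContDiff

namespace Pool.Agent.Y13.YM

open Pool.Agent.H906R3.YM

set_option linter.unusedSectionVars false
set_option maxHeartbeats 400000

noncomputable section

variable {G : Type*} [Group G] [TopologicalSpace G] {N n k l : ℕ} {L : LD G N n}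

/-- real inner product of matrices -/
def rp (A B : Mat k) : ℝ := ∑ c, co c A * co c B

lemma rp_self (A : Mat k) : rp A A = ‖A‖ ^ 2 := by
  rw [← sum_co]
  exact Finset.sum_congr rfl fun c _ => (sq _).symm

lemma rp_skew (A Y : Mat k) (hY : Yᴴ = -Y) : rp A (Y * A) = 0 := by
  unfold rp
  rw [Pool.Agent.W793.YM.sum_co_mul]
  have h1 : A * (Y * A)ᴴ = -(A * Aᴴ * Y) := by
    rw [conjTranspose_mul, hY, Matrix.mul_neg, Matrix.mul_neg, Matrix.mul_assoc]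
  have h2 : trace (A * Aᴴ * Y) = -star (trace (A * Aᴴ * Y)) := by
    rw [← trace_conjTranspose, conjTranspose_mul, hY, conjTranspose_mul,
      conjTranspose_conjTranspose, Matrix.neg_mul, trace_neg, neg_neg, trace_mul_comm]
  have h3 := congrArg Complex.re h2
  rw [Complex.neg_re] at h3
  have h4 : (star (trace (A * Aᴴ * Y))).re = (trace (A * Aᴴ * Y)).re := by simp
  rw [h4] at h3
  rw [h1, trace_neg, Complex.neg_re]
  linarith

/-- the linear map which removes the radial part -/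
def Tr (A : Mat k) (α : ℝ) : Mat k →ₗ[ℝ] Mat k where
  toFun v := v - (α * rp A v) • A
  map_add' v w := by
    have : rp A (v + w) = rp A v + rp A w := by
      unfold rp
      rw [← Finset.sum_add_distrib]
      exact Finset.sum_congr rfl fun c _ => by rw [map_add]; ring
    rw [this, mul_add, add_smul]; abel
  map_smul' s v := by
    have : rp A (s • v) = s * rp A v := by
      unfold rp
      rw [Finset.mul_sum]
      exact Finset.sum_congr rfl fun c _ => by rw [map_smul, smul_eq_mul]; ring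
    rw [this, RingHom.id_apply, smul_sub, smul_smul]
    congr 2; ring

lemma Tr_apply (A : Mat k) (α : ℝ) (v : Mat k) : Tr A α v = v - (α * rp A v) • A := rfl

lemma Tr_norm (A : Mat k) (α : ℝ) (v : Mat k) :
    ‖Tr A α v‖ ^ 2 = ‖v‖ ^ 2 - (2 * α - α ^ 2 * ‖A‖ ^ 2) * rp A v ^ 2 := by
  rw [← sum_co, ← sum_co, ← sum_co, Tr_apply]
  set s := α * rp A v with hs
  have h1 : ∀ c, co c (v - s • A) ^ 2 = co c v ^ 2 - 2 * s * (co c A * co c v) +
      s ^ 2 * co c A ^ 2 := by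
    intro c
    rw [map_sub, map_smul, smul_eq_mul]; ring
  rw [Finset.sum_congr rfl fun c _ => h1 c, Finset.sum_add_distrib, Finset.sum_sub_distrib,
    ← Finset.mul_sum, ← Finset.mul_sum]
  have h2 : ∑ c, co c A * co c v = rp A v := rfl
  rw [h2, hs]
  ring

variable [NeZero l]

variable [IsTopologicalGroup G] [CompactSpace G] [SecondCountableTopology G]
  [MeasurableSpace G] [BorelSpace G] (μ : Measure G) [IsProbabilityMeasure μ]
  [μ.IsMulLeftInvariant]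

lemma I_VT_add {C : Type*} [Fintype C] (V : Sm L (Ed 3 l)) (s : ℝ) (f : C → Sm L (Ed 3 l)) :
    L.I μ (V * (algebraMap ℝ (Sm L (Ed 3 l)) s + ∑ c, f c * f c)) = s * L.I μ V +
      ∑ c, L.I μ (V * (f c * f c)) := by
  have h1 : V * (algebraMap ℝ (Sm L (Ed 3 l)) s + ∑ c, f c * f c) =
      s • V + ∑ c, V * (f c * f c) := by
    rw [mul_add, Finset.mul_sum, Algebra.smul_def, mul_comm V]
  rw [h1, map_add, map_smul, map_sum, smul_eq_mul]

lemma en_sum {C : Type*} [Fintype C] (g : ℝ) (f : C → Sm L (Ed 3 l)) :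
    ∑ c, en μ g (f c) = g ^ 2 / 2 * ∑ c, L.I μ (Gam L.Dv (f c) (f c)) +
      1 / g ^ 2 * ∑ c, L.I μ (VT L 3 l * (f c * f c)) := by
  unfold en
  rw [Finset.sum_add_distrib, Finset.mul_sum, Finset.mul_sum]

section

variable {Ft : (Ed 3 l → Mat N) → Mat k} (hs : ContDiff ℝ ∞ Ft) {F : (Ed 3 l → G) → Mat k}
  (hF : ∀ U, F U = Ft (L.mat U)) (hK : SmK L F)

include hs hF

/-- pointwise bound -/
lemma pt_low (P : RepD L k) {x y : Fin 3 → ZMod l} (hl : 2 ≤ l) (hxy : x ≠ y)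
    (hc : ∀ γ U, F (gt γ U) = P.rep (γ x) * F U * (P.rep (γ y))ᴴ)
    {cas : ℝ} (hcas : ∀ M : Mat k, cas * ‖M‖ ^ 2 ≤ ∑ a, ‖P.Y a * M‖ ^ 2)
    (ε : ℝ) (hε : 0 < ε) (U : Ed 3 l → G) :
    L.ev U (Gam L.Dv (rad (fun c => cdm hK c) ε hε) (rad (fun c => cdm hK c) ε hε)) +
      cas / 6 * ‖F U‖ ^ 2 ≤ ∑ c, L.ev U (Gam L.Dv (cdm hK c) (cdm hK c)) := by
  set r := rad (fun c => cdm hK c) ε hε with hr
  have hrr := rad_mul (L := L) (fun c => cdm hK c) ε hε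
  have hDc : ∀ (j : Ed 3 l × Fin n) c, L.ev U (L.Dv j (cdm hK c)) = co c (DX L Ft U j.1 j.2) :=
    fun j c => by
      rw [ev_apply]
      exact Dv_cdm hK c j U (DX_deriv hs hF U j.1 j.2)
  set ρ := L.ev U r with hρ
  have hρ0 : 0 < ρ := Real.sqrt_pos.2 (rad_pos_arg (fun c => cdm hK c) ε hε U)
  have hρ2 : ρ ^ 2 = ε ^ 2 + ‖F U‖ ^ 2 := by
    have h1 := congrArg (L.ev U) hrr
    rw [map_mul, map_add, map_sum, ← hr] at h1
    have h2 : L.ev U (algebraMap ℝ (Sm L (Ed 3 l)) (ε ^ 2)) = ε ^ 2 := rfl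
    rw [h2] at h1
    rw [sq, hρ, h1, ← sum_co]
    congr 1
    refine Finset.sum_congr rfl fun c _ => ?_
    rw [map_mul, sq]; rfl
  set α := 1 / (ρ * (ρ + ε)) with hα
  have hα1 : 2 * α - α ^ 2 * ‖F U‖ ^ 2 = 1 / ρ ^ 2 := by
    have h1 : ‖F U‖ ^ 2 = (ρ - ε) * (ρ + ε) := by linarith
    rw [h1, hα]
    have h2 : ρ ≠ 0 := hρ0.ne'
    have h3 : ρ + ε ≠ 0 := by positivity
    field_simp
    ring
  have hrad : ∀ j, ρ * L.ev U (L.Dv j r) = rp (F U) (DX L Ft U j.1 j.2) := by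
    intro j
    have h1 := congrArg (L.ev U) (r_mul_D hrr (L.Dv j))
    rw [map_mul, map_sum, ← hr, ← hρ] at h1
    rw [h1]
    unfold rp
    refine Finset.sum_congr rfl fun c _ => ?_
    rw [map_mul, hDc]; rfl
  have hG := gauss_le hs hF P hl hxy hc U (Tr (F U) α)
  have e1 : ∀ a, Tr (F U) α (P.Y a * F U) = P.Y a * F U := by
    intro a
    rw [Tr_apply, rp_skew _ _ (P.skew a), mul_zero, zero_smul, sub_zero]
  have e2 : ∀ (e : Ed 3 l) (a : Fin n), ‖Tr (F U) α (DX L Ft U e a)‖ ^ 2 =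
      ∑ c, L.ev U (L.Dv (e, a) (cdm hK c)) * L.ev U (L.Dv (e, a) (cdm hK c)) -
        L.ev U (L.Dv (e, a) r) * L.ev U (L.Dv (e, a) r) := by
    intro e a
    rw [Tr_norm, hα1, ← hrad (e, a), ← sum_co]
    have h1 : 1 / ρ ^ 2 * (ρ * L.ev U (L.Dv (e, a) r)) ^ 2 =
        L.ev U (L.Dv (e, a) r) * L.ev U (L.Dv (e, a) r) := by
      field_simp
    rw [h1]
    congr 1
    refine Finset.sum_congr rfl fun c _ => ?_
    rw [hDc, sq]
  rw [Finset.sum_congr rfl fun a _ => by rw [e1 a]] at hG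
  rw [Finset.sum_congr rfl fun e _ => Finset.sum_congr rfl fun a _ => e2 e a] at hG
  have h5 := (hcas (F U)).trans hG
  have h6 : ∑ c, L.ev U (Gam L.Dv (cdm hK c) (cdm hK c)) =
      ∑ e : Ed 3 l, ∑ a : Fin n, ∑ c, L.ev U (L.Dv (e, a) (cdm hK c)) *
        L.ev U (L.Dv (e, a) (cdm hK c)) := by
    unfold Gam
    simp only [map_sum, map_mul]
    rw [Finset.sum_comm, Fintype.sum_prod_type]
  have h7 : L.ev U (Gam L.Dv r r) = ∑ e : Ed 3 l, ∑ a : Fin n,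
      L.ev U (L.Dv (e, a) r) * L.ev U (L.Dv (e, a) r) := by
    unfold Gam
    simp only [map_sum, map_mul]
    rw [Fintype.sum_prod_type]
  simp only [Finset.sum_sub_distrib] at h5
  rw [← h6, ← h7] at h5
  linarith

lemma rad_inv (P : RepD L k) {x y : Fin 3 → ZMod l}
    (hc : ∀ γ U, F (gt γ U) = P.rep (γ x) * F U * (P.rep (γ y))ᴴ) (ε : ℝ) (hε : 0 < ε) :
    Inv (rad (fun c => cdm hK c) ε hε) := by
  intro γ
  refine ev_ext fun U => ?_
  have a1 : ∀ W : Ed 3 l → G, L.ev W (rad (fun c => cdm hK c) ε hε) =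
      Real.sqrt (ε ^ 2 + ‖F W‖ ^ 2) := by
    intro W
    rw [← sum_co]
    show Real.sqrt _ = _
    congr 2
    refine Finset.sum_congr rfl fun c _ => ?_
    rw [sq]; rfl
  show L.ev (gt γ U) (rad (fun c => cdm hK c) ε hε) = L.ev U (rad (fun c => cdm hK c) ε hε)
  rw [a1, a1, hc, norm_ur (P.unit _).ct, norm_ul (P.unit _)]

lemma int_low (P : RepD L k) {x y : Fin 3 → ZMod l} (hl : 2 ≤ l) (hxy : x ≠ y)
    (hc : ∀ γ U, F (gt γ U) = P.rep (γ x) * F U * (P.rep (γ y))ᴴ)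
    {cas : ℝ} (hcas : ∀ M : Mat k, cas * ‖M‖ ^ 2 ≤ ∑ a, ‖P.Y a * M‖ ^ 2)
    (ε : ℝ) (hε : 0 < ε) :
    L.I μ (Gam L.Dv (rad (fun c => cdm hK c) ε hε) (rad (fun c => cdm hK c) ε hε)) +
      cas / 6 * ∑ c, L.I μ (cdm hK c * cdm hK c) ≤
        ∑ c, L.I μ (Gam L.Dv (cdm hK c) (cdm hK c)) := by
  rw [Finset.mul_sum, ← map_sum]
  have a4 : L.I μ (Gam L.Dv (rad (fun c => cdm hK c) ε hε) (rad (fun c => cdm hK c) ε hε)) +
      ∑ c, cas / 6 * L.I μ (cdm hK c * cdm hK c) =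
      L.I μ (Gam L.Dv (rad (fun c => cdm hK c) ε hε) (rad (fun c => cdm hK c) ε hε) +
        ∑ c, (cas / 6) • (cdm hK c * cdm hK c)) := by
    rw [map_add, map_sum]
    simp only [map_smul, smul_eq_mul]
  rw [a4]
  refine I_mono μ fun U => ?_
  rw [map_add, map_sum, map_sum]
  have a5 := pt_low hs hF hK P hl hxy hc hcas ε hε U
  have a6 : ∑ c, L.ev U ((cas / 6) • (cdm hK c * cdm hK c)) = cas / 6 * ‖F U‖ ^ 2 := by
    rw [← sum_co, Finset.mul_sum]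
    refine Finset.sum_congr rfl fun c _ => ?_
    rw [map_smul, smul_eq_mul, map_mul, sq]; rfl
  rw [a6]
  exact a5

lemma low_arith {E0 g cas ε S Gr Gc Vr V1 Vc : ℝ}
    (h1 : E0 * (ε ^ 2 + S) ≤ g ^ 2 / 2 * Gr + 1 / g ^ 2 * Vr)
    (h2 : Gr + cas / 6 * S ≤ Gc) (h3 : Vr = ε ^ 2 * V1 + Vc) :
    (E0 + g ^ 2 * cas / 12) * S ≤ g ^ 2 / 2 * Gc + 1 / g ^ 2 * Vc +
      ε ^ 2 * (1 / g ^ 2 * V1 - E0) := by
  have a8 := mul_le_mul_of_nonneg_left h2 (show (0 : ℝ) ≤ g ^ 2 / 2 by positivity)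
  rw [h3] at h1
  have e1 : g ^ 2 / 2 * (Gr + cas / 6 * S) = g ^ 2 / 2 * Gr + g ^ 2 * cas / 12 * S := by ring
  have e2 : 1 / g ^ 2 * (ε ^ 2 * V1 + Vc) = ε ^ 2 * (1 / g ^ 2 * V1) + 1 / g ^ 2 * Vc := by ring
  have e3 : E0 * (ε ^ 2 + S) = ε ^ 2 * E0 + E0 * S := by ring
  have e4 : (E0 + g ^ 2 * cas / 12) * S = E0 * S + g ^ 2 * cas / 12 * S := by ring
  have e5 : ε ^ 2 * (1 / g ^ 2 * V1 - E0) = ε ^ 2 * (1 / g ^ 2 * V1) - ε ^ 2 * E0 := by ring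
  rw [e1] at a8
  rw [e2, e3] at h1
  rw [e4, e5]
  linarith

lemma low_eps (P : RepD L k) {x y : Fin 3 → ZMod l} (hl : 2 ≤ l) (hxy : x ≠ y)
    (hc : ∀ γ U, F (gt γ U) = P.rep (γ x) * F U * (P.rep (γ y))ᴴ)
    {cas : ℝ} (hcas : ∀ M : Mat k, cas * ‖M‖ ^ 2 ≤ ∑ a, ‖P.Y a * M‖ ^ 2) {g E0 : ℝ}
    (hE : ∀ u : Sm L (Ed 3 l), Inv u → E0 * L.I μ (u * u) ≤ en μ g u) (ε : ℝ) (hε : 0 < ε) :
    (E0 + g ^ 2 * cas / 12) * ∑ c, L.I μ (cdm hK c * cdm hK c) ≤ ∑ c, en μ g (cdm hK c) +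
      ε ^ 2 * (1 / g ^ 2 * L.I μ (VT L 3 l) - E0) := by
  have a1 := hE _ (rad_inv hs hF hK P hc ε hε)
  have a3 := int_low μ hs hF hK P hl hxy hc hcas ε hε
  rw [en_sum μ g fun c => cdm hK c]
  have hrr := rad_mul (L := L) (fun c => cdm hK c) ε hε
  have a2 : L.I μ (rad (fun c => cdm hK c) ε hε * rad (fun c => cdm hK c) ε hε) =
      ε ^ 2 + ∑ c, L.I μ (cdm hK c * cdm hK c) := by
    have hone : L.I μ (algebraMap ℝ (Sm L (Ed 3 l)) (ε ^ 2)) = ε ^ 2 := by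
      rw [Algebra.algebraMap_eq_smul_one, map_smul, I_one, smul_eq_mul, mul_one]
    rw [hrr, map_add, hone, map_sum]
  have a7 : L.I μ (VT L 3 l * (rad (fun c => cdm hK c) ε hε * rad (fun c => cdm hK c) ε hε)) =
      ε ^ 2 * L.I μ (VT L 3 l) + ∑ c, L.I μ (VT L 3 l * (cdm hK c * cdm hK c)) := by
    rw [hrr]; exact I_VT_add μ _ _ _
  rw [a2] at a1
  exact low_arith hs hF a1 a3 a7

/-- The energy of a charged state. -/
theorem low (P : RepD L k) {x y : Fin 3 → ZMod l} (hl : 2 ≤ l) (hxy : x ≠ y)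
    (hc : ∀ γ U, F (gt γ U) = P.rep (γ x) * F U * (P.rep (γ y))ᴴ)
    {cas : ℝ} (hcas : ∀ M : Mat k, cas * ‖M‖ ^ 2 ≤ ∑ a, ‖P.Y a * M‖ ^ 2) {g E0 : ℝ}
    (hE : ∀ u : Sm L (Ed 3 l), Inv u → E0 * L.I μ (u * u) ≤ en μ g u) :
    (E0 + g ^ 2 * cas / 12) * ∑ c, L.I μ (cdm hK c * cdm hK c) ≤ ∑ c, en μ g (cdm hK c) := by
  obtain ⟨A, hA⟩ : ∃ A : ℝ, A = 1 / g ^ 2 * L.I μ (VT L 3 l) - E0 := ⟨_, rfl⟩
  refine le_of_forall_pos_le_add fun δ hδ => ?_
  have h2 : 0 < δ / (|A| + 1) := by positivity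
  have h3 := low_eps μ hs hF hK P hl hxy hc hcas hE (Real.sqrt (δ / (|A| + 1)))
    (Real.sqrt_pos.2 h2)
  rw [Real.sq_sqrt h2.le, ← hA] at h3
  have h4 : δ / (|A| + 1) * A ≤ δ := by
    rw [div_mul_eq_mul_div, div_le_iff₀ (by positivity)]
    have := le_abs_self A
    nlinarith
  linarith

end

end

end Pool.Agent.Y13.YM
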