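import Mathlib
import Pool.Agent.Y13.YM.En

/-!
# The trial state as a matrix valued function
-/

open MeasureTheory Matrix
open scoped Matrix.Norms.Frobenius ContDiff

namespace Pool.Agent.Y13.YM

open Pool.Agent.H906R3.YM

set_option linter.unusedSectionVars false
set_option maxHeartbeats 400000

noncomputable section

variable {G : Type*} [Group G] [TopologicalSpace G] {N n k l : ℕ} {L : LD G N n} [NeZero l]

/-- displacement with the shortest path -/
def dm (x y : Fin 3 → ZMod l) : Fin 3 → ℤ := fun j => (y j - x j).valMinAbs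

lemma ep_dm (x y : Fin 3 → ZMod l) : ep x (dm x y) = y := by
  funext j
  unfold ep
  have h1 : ∀ i : Fin 3, (dm x y i • (eT i : Fin 3 → ZMod l)) j =
      if i = j then y j - x j else 0 := by
    intro i
    rw [Pi.smul_apply]
    split_ifs with h
    · subst h
      rw [eT_same, zsmul_one]
      unfold dm
      exact ZMod.coe_valMinAbs _
    · rw [eT_ne h, smul_zero]
  rw [Pi.add_apply, Pi.add_apply, Pi.add_apply, h1, h1, h1]
  fin_cases j <;> simp

lemma dm_lt (x y : Fin 3 → ZMod l) (j : Fin 3) : (dm x y j).natAbs < l := by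
  unfold dm
  have h := ZMod.natAbs_valMinAbs_le (y j - x j)
  have hl : 0 < l := Nat.pos_of_ne_zero (NeZero.ne l)
  omega

variable [IsTopologicalGroup G] [CompactSpace G] [SecondCountableTopology G]
  [MeasurableSpace G] [BorelSpace G] (μ : Measure G) [IsProbabilityMeasure μ]
  [μ.IsMulLeftInvariant]

/-- From the bound of the gradient to the energy of a normalised charged state. -/
theorem assemble (P : RepD L k) (hk : 0 < k) (x : Fin 3 → ZMod l) {R : ℕ} (hR : 1 ≤ R)
    (m : Fin 3 → ℤ) {g A Q : ℝ} {w : Sm L (Ed 3 l)} (hw : Inv w)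
    (hw1 : L.I μ (w * w) = 1) (hwE : en μ g w ≤ A)
    (hs : ∃ s, L.I μ (GF P x R m * (tS L s w * tS L s w)) ≤ Q) :
    ∃ (F : (Ed 3 l → G) → Mat k) (hF : SmK L F),
      (∀ γ U, F (gt γ U) = P.rep (γ x) * F U * (P.rep (γ (ep x m)))ᴴ) ∧
      ∑ c, L.I μ (cdm hF c * cdm hF c) = 1 ∧
      ∑ c, en μ g (cdm hF c) ≤ A + g ^ 2 / (2 * k) * Q := by
  obtain ⟨s, hs⟩ := hs
  set v := tS L s w with hv
  have hvinv : Inv v := Inv_tS s hw
  have hv1 : L.I μ (v * v) = 1 := by rw [hv, ← map_mul, I_tS, hw1]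
  have hvE : en μ g v ≤ A := by rw [hv, en_tS]; exact hwE
  have hkr : (0 : ℝ) < k := by exact_mod_cast hk
  set c0 : ℝ := (Real.sqrt k)⁻¹ with hc0
  have hc02 : c0 ^ 2 = 1 / k := by rw [hc0, inv_pow, Real.sq_sqrt hkr.le, one_div]
  set F : (Ed 3 l → G) → Mat k := fun U => (c0 * v.1 U) • strF P x R m U with hFdef
  have hF : SmK L F := by
    obtain ⟨f, hf, h⟩ := strF_sm P x R m
    obtain ⟨fv, hfv, h'⟩ := v.2
    refine ⟨fun M => (c0 * fv M) • f M, (contDiff_const.mul hfv).smul hf, fun U => ?_⟩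
    rw [hFdef]
    dsimp only
    rw [h, h']
  have hcd : ∀ c, cdm hF c = c0 • (cdm (strF_sm P x R m) c * v) := by
    intro c
    refine ev_ext fun U => ?_
    rw [map_smul, map_mul, smul_eq_mul]
    show co c ((c0 * v.1 U) • strF P x R m U) = c0 * (co c (strF P x R m U) * v.1 U)
    rw [map_smul, smul_eq_mul]
    ring
  refine ⟨F, hF, ?_, ?_, ?_⟩
  · intro γ U
    rw [hFdef]
    dsimp only
    rw [strF_cov P x hR m γ U]
    have h1 : v.1 (gt γ U) = v.1 U := congrArg (fun u : Sm L (Ed 3 l) => u.1 U) (hvinv γ)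
    rw [h1, Matrix.mul_smul, Matrix.smul_mul]
  · have h1 : ∀ c, L.I μ (cdm hF c * cdm hF c) = c0 ^ 2 * L.I μ
        ((cdm (strF_sm P x R m) c * cdm (strF_sm P x R m) c) * (v * v)) := by
      intro c
      have h2 : cdm hF c * cdm hF c = (c0 ^ 2) •
          ((cdm (strF_sm P x R m) c * cdm (strF_sm P x R m) c) * (v * v)) := by
        refine ev_ext fun U => ?_
        rw [hcd]
        simp only [map_mul, map_smul, smul_eq_mul]
        ring
      rw [h2, map_smul, smul_eq_mul]
    rw [Finset.sum_congr rfl fun c _ => h1 c, ← Finset.mul_sum, ← map_sum, ← Finset.sum_mul]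
    have hsq : ∑ c, cdm (strF_sm P x R m) c * cdm (strF_sm P x R m) c =
        algebraMap ℝ (Sm L (Ed 3 l)) k := by
      refine ev_ext fun U => ?_
      rw [map_sum]
      have h1 : ∀ c, L.ev U (cdm (strF_sm P x R m) c * cdm (strF_sm P x R m) c) =
          co c (strF P x R m U) ^ 2 := fun c => by
        rw [map_mul, sq]; rfl
      have h2 : ‖strF P x R m U‖ = Real.sqrt k := norm_un (str_un (P.cf_un U) x R m)
      rw [Finset.sum_congr rfl fun c _ => h1 c, sum_co, h2, Real.sq_sqrt (Nat.cast_nonneg k)]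
      rfl
    rw [hsq, ← Algebra.smul_def, map_smul, hv1, hc02, smul_eq_mul, mul_one]
    field_simp
  · have h1 : ∀ c, en μ g (cdm hF c) = c0 ^ 2 * en μ g (cdm (strF_sm P x R m) c * v) := by
      intro c
      rw [hcd, en_smul]
    rw [Finset.sum_congr rfl fun c _ => h1 c, ← Finset.mul_sum, trial_en, hc02]
    have h2 : 1 / (k : ℝ) * (k * en μ g v + g ^ 2 / 2 * L.I μ (GF P x R m * (v * v))) =
        en μ g v + g ^ 2 / (2 * k) * L.I μ (GF P x R m * (v * v)) := by
      field_simp
    rw [h2]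
    have h3 := mul_le_mul_of_nonneg_left hs (show 0 ≤ g ^ 2 / (2 * (k : ℝ)) by positivity)
    linarith

end

end Pool.Agent.Y13.YM
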