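import Mathlib
import Pool.Agent.Y13.YM.Dbl

/-!
# The gauge average of a product state
-/

open MeasureTheory Matrix
open scoped Matrix.Norms.Frobenius ContDiff ENNReal

namespace Pool.Agent.Y13.YM

open Pool.Agent.H906R3.YM

set_option linter.unusedSectionVars false
set_option maxHeartbeats 400000

noncomputable section

variable {G : Type*} [Group G] [TopologicalSpace G] {N n D l : ℕ} {L : LD G N n} [NeZero l]
  [IsTopologicalGroup G] [CompactSpace G]

/-- the group of gauge transformations -/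
abbrev Gg (G : Type*) (D l : ℕ) := (Fin D → ZMod l) → G

lemma gt_cont : Continuous fun p : Gg G D l × (Ed D l → G) => gt p.1 p.2 := by
  refine continuous_pi fun e => ?_
  exact (((continuous_apply e.1).comp continuous_fst).mul
    ((continuous_apply e).comp continuous_snd)).mul
    ((continuous_apply (e.1 + eT e.2)).comp continuous_fst).inv

lemma gt_gt (γ η : Gg G D l) (U : Ed D l → G) : gt γ (gt η U) = gt (γ * η) U := by
  funext e
  unfold gt
  simp only [Pi.mul_apply, _root_.mul_inv_rev]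
  group

/-- the linear part of the exponent, as a function of the gauge transformation -/
def Bl (L : LD G N n) (D l : ℕ) [NeZero l] : (Ed D l → Mat N) →ₗ[ℝ] C(Gg G D l, ℝ) where
  toFun M := ⟨fun γ => ∑ e, ip 1 (gtM L γ M e), by
    refine continuous_finsetSum _ fun e _ => (ip 1).continuous.comp ?_
    show Continuous fun γ : Gg G D l =>
      L.rho (γ e.1) * M e * (L.rho (γ (e.1 + eT e.2)))ᴴ
    exact ((L.cont.comp (continuous_apply _)).mul continuous_const).mul
      ((ctL N).continuous.comp (L.cont.comp (continuous_apply _)))⟩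
  map_add' M M' := by
    ext γ
    show ∑ e, ip 1 (gtM L γ (M + M') e) = ∑ e, ip 1 (gtM L γ M e) + ∑ e, ip 1 (gtM L γ M' e)
    rw [map_add, ← Finset.sum_add_distrib]
    exact Finset.sum_congr rfl fun e _ => by rw [Pi.add_apply, map_add]
  map_smul' c M := by
    ext γ
    show ∑ e, ip 1 (gtM L γ (c • M) e) = c * ∑ e, ip 1 (gtM L γ M e)
    rw [map_smul, Finset.mul_sum]
    exact Finset.sum_congr rfl fun e _ => by rw [Pi.smul_apply, map_smul, smul_eq_mul]

/-- continuous version -/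
def Bc (L : LD G N n) (D l : ℕ) [NeZero l] : (Ed D l → Mat N) →L[ℝ] C(Gg G D l, ℝ) :=
  LinearMap.toContinuousLinearMap (Bl L D l)

/-- the exponent -/
def Ex (L : LD G N n) (D l : ℕ) [NeZero l] (κ : ℝ) (M : Ed D l → Mat N) : C(Gg G D l, ℝ) :=
  (-(2 * κ)) • (algebraMap ℝ C(Gg G D l, ℝ) (Fintype.card (Ed D l) * N) - Bc L D l M)

/-- the density as a function of the gauge transformation -/
def Ph (L : LD G N n) (D l : ℕ) [NeZero l] (κ : ℝ) (M : Ed D l → Mat N) : C(Gg G D l, ℝ) :=
  NormedSpace.exp (Ex L D l κ M)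

lemma contDiff_Ph (κ : ℝ) : ContDiff ℝ ∞ (Ph L D l κ) := by
  have h1 : ContDiff ℝ ∞ (NormedSpace.exp : C(Gg G D l, ℝ) → C(Gg G D l, ℝ)) := by
    rw [contDiff_iff_contDiffAt]
    exact fun x => (NormedSpace.exp_analytic (𝕂 := ℝ) x).contDiffAt
  refine h1.comp ?_
  exact (contDiff_const.sub (Bc L D l).contDiff).const_smul _

lemma exp_ev (x : C(Gg G D l, ℝ)) (γ : Gg G D l) :
    (NormedSpace.exp x : C(Gg G D l, ℝ)) γ = Real.exp (x γ) := by
  have h1 := NormedSpace.map_exp (Pi.evalRingHom (fun _ : Gg G D l => ℝ) γ |>.comp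
    (ContinuousMap.coeFnRingHom : C(Gg G D l, ℝ) →+* (Gg G D l → ℝ)))
    (continuous_eval_const γ) x
  rw [← Real.exp_eq_exp_ℝ] at h1
  exact h1

variable [SecondCountableTopology G] [MeasurableSpace G] [BorelSpace G]

lemma Ph_mat (κ : ℝ) (U : Ed D l → G) (γ : Gg G D l) :
    Ph L D l κ (L.mat U) γ =
      L.ev (gt γ U) (expS (tex L (Ed D l) κ) * expS (tex L (Ed D l) κ)) := by
  unfold Ph
  rw [exp_ev, texp_sq, ← Real.exp_sum, ← Finset.mul_sum]
  congr 1
  show (-(2 * κ)) * ((Fintype.card (Ed D l) * N : ℝ) - ∑ e, ip 1 (gtM L γ (L.mat U) e)) = _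
  congr 1
  rw [← mat_gt]
  have h1 : ∀ e : Ed D l, we L (gt γ U e) = N - ip 1 (L.mat (gt γ U) e) := by
    intro e
    unfold we
    rw [trace_sub, trace_one, Complex.sub_re, ip_apply, conjTranspose_one, one_mul]
    simp [LD.mat]
  rw [Finset.sum_congr rfl fun e _ => h1 e, Finset.sum_sub_distrib, Finset.sum_const,
    Finset.card_univ, nsmul_eq_mul]

lemma Ph_pos (κ : ℝ) (M : Ed D l → Mat N) (γ : Gg G D l) :
    Real.exp (-‖Ex L D l κ M‖) ≤ Ph L D l κ M γ := by
  unfold Ph
  rw [exp_ev]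
  refine Real.exp_le_exp.2 ?_
  have h1 := (Ex L D l κ M).norm_coe_le_norm γ
  rw [Real.norm_eq_abs] at h1
  exact (abs_le.1 h1).1

variable (μ : Measure G) [IsProbabilityMeasure μ]

lemma int_C (f : C(Gg G D l, ℝ)) : Integrable f (ME μ (Fin D → ZMod l)) :=
  f.continuous.integrable_of_hasCompactSupport (HasCompactSupport.of_compactSpace _)

/-- the mean over the gauge group -/
def cI (D l : ℕ) [NeZero l] : C(Gg G D l, ℝ) →L[ℝ] ℝ :=
  LinearMap.mkContinuous
    { toFun := fun f => ∫ γ, f γ ∂(ME μ (Fin D → ZMod l))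
      map_add' := fun f h => integral_add (int_C μ f) (int_C μ h)
      map_smul' := fun c f => integral_const_mul c _ } 1 (fun f => by
    rw [one_mul]
    refine (norm_integral_le_of_norm_le_const (C := ‖f‖) (Filter.Eventually.of_forall fun γ =>
      f.norm_coe_le_norm γ)).trans ?_
    simp)

lemma cI_apply (f : C(Gg G D l, ℝ)) : cI μ D l f = ∫ γ, f γ ∂(ME μ (Fin D → ZMod l)) := rfl

lemma cI_pos (κ : ℝ) (M : Ed D l → Mat N) : 0 < cI μ D l (Ph L D l κ M) := by
  rw [cI_apply]
  refine lt_of_lt_of_le (Real.exp_pos (-‖Ex L D l κ M‖)) ?_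
  have h1 : ∫ _γ : Gg G D l, Real.exp (-‖Ex L D l κ M‖) ∂(ME μ (Fin D → ZMod l)) ≤
      ∫ γ, Ph L D l κ M γ ∂(ME μ (Fin D → ZMod l)) :=
    integral_mono (integrable_const _) (int_C μ _) fun γ => Ph_pos κ M γ
  simpa using h1

/-- the product state -/
def ps (L : LD G N n) (D l : ℕ) [NeZero l] (κ : ℝ) : Sm L (Ed D l) := expS (tex L (Ed D l) κ)

/-- the averaged density -/
def pA (L : LD G N n) (D l : ℕ) [NeZero l] (κ : ℝ) : Sm L (Ed D l) :=
  ⟨fun U => ∫ γ, L.ev (gt γ U) (ps L D l κ * ps L D l κ) ∂(ME μ (Fin D → ZMod l)),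
    fun M => cI μ D l (Ph L D l κ M), (cI μ D l).contDiff.comp (contDiff_Ph κ), fun U =>
      integral_congr_ae (Filter.Eventually.of_forall fun γ => (Ph_mat κ U γ).symm)⟩

lemma pA_eq (κ : ℝ) (U : Ed D l → G) :
    L.ev U (pA μ L D l κ) = cI μ D l (Ph L D l κ (L.mat U)) := by
  rw [cI_apply]
  exact integral_congr_ae (Filter.Eventually.of_forall fun γ => (Ph_mat κ U γ).symm)

lemma pA_pos (κ : ℝ) (U : Ed D l → G) : 0 < L.ev U (pA μ L D l κ) := by
  rw [pA_eq]; exact cI_pos μ κ _

/-- the averaged state -/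
def wA (L : LD G N n) (D l : ℕ) [NeZero l] (κ : ℝ) : Sm L (Ed D l) :=
  ⟨fun U => Real.sqrt ((pA μ L D l κ).1 U),
    fun M => Real.sqrt (cI μ D l (Ph L D l κ M)),
    ((cI μ D l).contDiff.comp (contDiff_Ph κ)).sqrt fun M => (cI_pos μ κ M).ne', fun U => by
      show Real.sqrt (L.ev U (pA μ L D l κ)) = _
      rw [pA_eq]⟩

lemma wA_sq (κ : ℝ) : wA μ L D l κ * wA μ L D l κ = pA μ L D l κ := by
  refine ev_ext fun U => ?_
  rw [map_mul]
  exact Real.mul_self_sqrt (pA_pos μ κ U).le

/-- integration over the gauge group and the configurations -/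
lemma fub [μ.IsMulLeftInvariant] [μ.IsMulRightInvariant] (H : Sm L (Ed D l)) :
    ∫ U, ∫ γ, H.1 (gt γ U) ∂(ME μ (Fin D → ZMod l)) ∂(ME μ (Ed D l)) = L.I μ H := by
  have hc : Continuous fun p : Gg G D l × (Ed D l → G) => H.1 (gt p.1 p.2) :=
    (Sm_cont H).comp gt_cont
  have hint : Integrable (Function.uncurry fun (U : Ed D l → G) (γ : Gg G D l) => H.1 (gt γ U))
      ((ME μ (Ed D l)).prod (ME μ (Fin D → ZMod l))) :=
    (hc.comp continuous_swap).integrable_of_hasCompactSupport
      (HasCompactSupport.of_compactSpace _)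
  rw [integral_integral_swap hint]
  have h1 : ∀ γ : Gg G D l, ∫ U, H.1 (gt γ U) ∂(ME μ (Ed D l)) = L.I μ H := by
    intro γ
    have h2 : MeasurePreserving (fun U : Ed D l → G => gt γ U) (ME μ (Ed D l)) (ME μ (Ed D l)) := by
      refine measurePreserving_pi (fun _ : Ed D l => μ) (fun _ => μ)
        (f := fun (e : Ed D l) (g : G) => γ e.1 * g * (γ (e.1 + eT e.2))⁻¹) fun e => ?_
      exact (measurePreserving_mul_right μ _).comp (measurePreserving_mul_left μ _)
    have h3 : MeasurableEmbedding (fun U : Ed D l → G => gt γ U) := by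
      have hc1 : Continuous fun U : Ed D l → G => gt γ U := gt_cont.comp (Continuous.prodMk_right γ)
      have hc2 : Continuous fun U : Ed D l → G => gt γ⁻¹ U :=
        gt_cont.comp (Continuous.prodMk_right γ⁻¹)
      have hg1 : ∀ U : Ed D l → G, gt (1 : Gg G D l) U = U := fun U => by
        funext e; simp [gt]
      let h : (Ed D l → G) ≃ₜ (Ed D l → G) :=
        { toFun := fun U => gt γ U
          invFun := fun U => gt γ⁻¹ U
          left_inv := fun U => by
            show gt γ⁻¹ (gt γ U) = U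
            rw [gt_gt, inv_mul_cancel, hg1]
          right_inv := fun U => by
            show gt γ (gt γ⁻¹ U) = U
            rw [gt_gt, mul_inv_cancel, hg1]
          continuous_toFun := hc1
          continuous_invFun := hc2 }
      exact h.measurableEmbedding
    exact h2.integral_comp h3 H.1
  rw [integral_congr_ae (Filter.Eventually.of_forall h1), integral_const]
  simp

lemma wA_inv [μ.IsMulRightInvariant] (κ : ℝ) : Inv (wA μ L D l κ) := by
  intro η
  refine ev_ext fun U => ?_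
  show Real.sqrt ((pA μ L D l κ).1 (gt η U)) = Real.sqrt ((pA μ L D l κ).1 U)
  congr 1
  show ∫ γ, L.ev (gt γ (gt η U)) (ps L D l κ * ps L D l κ) ∂(ME μ (Fin D → ZMod l)) =
    ∫ γ, L.ev (gt γ U) (ps L D l κ * ps L D l κ) ∂(ME μ (Fin D → ZMod l))
  simp only [gt_gt]
  exact integral_mul_right_eq_self (μ := ME μ (Fin D → ZMod l))
    (fun γ : Gg G D l => L.ev (gt γ U) (ps L D l κ * ps L D l κ)) η

/-- integrals with gauge invariant functions -/
lemma I_pA [μ.IsMulLeftInvariant] [μ.IsMulRightInvariant] (κ : ℝ) {F : Sm L (Ed D l)}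
    (hF : Inv F) : L.I μ (F * pA μ L D l κ) = L.I μ (F * (ps L D l κ * ps L D l κ)) := by
  rw [← fub μ (F * (ps L D l κ * ps L D l κ)), I_apply]
  refine integral_congr_ae (Filter.Eventually.of_forall fun U => ?_)
  show F.1 U * ∫ γ, L.ev (gt γ U) (ps L D l κ * ps L D l κ) ∂(ME μ (Fin D → ZMod l)) =
    ∫ γ, F.1 (gt γ U) * L.ev (gt γ U) (ps L D l κ * ps L D l κ) ∂(ME μ (Fin D → ZMod l))
  rw [← integral_const_mul]
  refine integral_congr_ae (Filter.Eventually.of_forall fun γ => ?_)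
  have h1 : F.1 (gt γ U) = F.1 U := congrArg (fun v : Sm L (Ed D l) => v.1 U) (hF γ)
  show F.1 U * _ = F.1 (gt γ U) * _
  rw [h1]

end

end Pool.Agent.Y13.YM
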