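import Mathlib
import Pool.Agent.Y13.YM.Avg

/-!
# Upper bound of the vacuum energy, proportional to the volume and uniform in the coupling
-/

open MeasureTheory Matrix
open scoped Matrix.Norms.Frobenius ContDiff ENNReal

namespace Pool.Agent.Y13.YM

open Pool.Agent.H906R3.YM

set_option linter.unusedSectionVars false
set_option maxHeartbeats 400000

noncomputable section

variable {G : Type*} [Group G] [TopologicalSpace G] {N n D l : ℕ} {L : LD G N n} [NeZero l]
  [IsTopologicalGroup G] [CompactSpace G] [SecondCountableTopology G] [MeasurableSpace G]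
  [BorelSpace G] (μ : Measure G) [IsProbabilityMeasure μ]

/-- derivative of the density -/
def dPh (L : LD G N n) (D l : ℕ) [NeZero l] (κ : ℝ) (U : Ed D l → G) (j : Ed D l × Fin n) :
    C(Gg G D l, ℝ) := fderiv ℝ (Ph L D l κ) (L.mat U) (L.vf j.1 j.2 (L.mat U))

lemma dPh_deriv (κ : ℝ) (U : Ed D l → G) (j : Ed D l × Fin n) :
    HasDerivAt (fun t => Ph L D l κ (L.mat (L.shift j.1 j.2 t U))) (dPh L D l κ U j) 0 := by
  have h2 : HasFDerivAt (Ph L D l κ) (fderiv ℝ (Ph L D l κ) (L.mat U))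
      (L.mat (L.shift j.1 j.2 0 U)) := by
    rw [L.shift_zero]
    exact ((contDiff_Ph κ).differentiable (by simp)).differentiableAt.hasFDerivAt
  exact h2.comp_hasDerivAt (0 : ℝ) (L.hasDerivAt_mat j.1 j.2 U)

lemma dPh_apply (κ : ℝ) (U : Ed D l → G) (j : Ed D l × Fin n) (γ : Gg G D l) :
    dPh L D l κ U j γ = L.ev U (L.Dv j (gs γ (ps L D l κ * ps L D l κ))) := by
  have h1 := (ContinuousMap.evalCLM ℝ γ : C(Gg G D l, ℝ) →L[ℝ] ℝ).hasFDerivAt.comp_hasDerivAt
    (0 : ℝ) (dPh_deriv (L := L) κ U j)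
  have h2 : ((ContinuousMap.evalCLM ℝ γ : C(Gg G D l, ℝ) →L[ℝ] ℝ) ∘ fun t =>
      Ph L D l κ (L.mat (L.shift j.1 j.2 t U))) = fun t =>
      (gs γ (ps L D l κ * ps L D l κ)).1 (L.shift j.1 j.2 t U) := by
    funext t
    exact Ph_mat κ _ γ
  rw [h2] at h1
  exact h1.deriv.symm

lemma D_pA (κ : ℝ) (U : Ed D l → G) (j : Ed D l × Fin n) :
    L.ev U (L.Dv j (pA μ L D l κ)) = cI μ D l (dPh L D l κ U j) := by
  have h1 := (cI μ D l).hasFDerivAt.comp_hasDerivAt (0 : ℝ) (dPh_deriv (L := L) κ U j)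
  have h2 : ((cI μ D l : C(Gg G D l, ℝ) → ℝ) ∘ fun t =>
      Ph L D l κ (L.mat (L.shift j.1 j.2 t U))) = fun t =>
      (pA μ L D l κ).1 (L.shift j.1 j.2 t U) := by
    funext t
    exact (pA_eq μ κ _).symm
  rw [h2] at h1
  exact h1.deriv

lemma adm_cont (b a : Fin n) : Continuous fun g : G => L.adm g b a := by
  unfold LD.adm
  exact (ip (L.X b)).continuous.comp ((L.cont.mul continuous_const).mul
    ((ctL N).continuous.comp L.cont))

lemma b_cont (F : Sm L (Ed D l)) (U : Ed D l → G) (j : Ed D l × Fin n) :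
    Continuous fun γ : Gg G D l => L.ev U (L.Dv j (gs γ F)) := by
  obtain ⟨e, a⟩ := j
  have h1 : (fun γ : Gg G D l => L.ev U (L.Dv (e, a) (gs γ F))) = fun γ : Gg G D l =>
      ∑ b, L.adm (γ e.1) b a * (L.Dv (e, b) F).1 (gt γ U) := by
    funext γ
    rw [Dv_gs, map_sum]
    exact Finset.sum_congr rfl fun b _ => by rw [map_smul, smul_eq_mul]; rfl
  rw [h1]
  refine continuous_finsetSum _ fun b _ => ?_
  exact ((adm_cont b a).comp (continuous_apply e.1)).mul ((Sm_cont _).comp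
    (gt_cont.comp (Continuous.prodMk_left U)))

lemma a_cont (F : Sm L (Ed D l)) (U : Ed D l → G) :
    Continuous fun γ : Gg G D l => F.1 (gt γ U) :=
  (Sm_cont F).comp (gt_cont.comp (Continuous.prodMk_left U))

lemma int_G {f : Gg G D l → ℝ} (hf : Continuous f) : Integrable f (ME μ (Fin D → ZMod l)) :=
  hf.integrable_of_hasCompactSupport (HasCompactSupport.of_compactSpace _)

lemma cs_G {a b : Gg G D l → ℝ} (ha : Continuous a) (hb : Continuous b) :
    (∫ γ, a γ * b γ ∂(ME μ (Fin D → ZMod l))) ^ 2 ≤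
      (∫ γ, a γ * a γ ∂(ME μ (Fin D → ZMod l))) * ∫ γ, b γ * b γ ∂(ME μ (Fin D → ZMod l)) := by
  refine sq_le_of_forall fun t => ?_
  have h1 : ∫ γ, a γ * a γ ∂(ME μ (Fin D → ZMod l)) +
      2 * t * ∫ γ, a γ * b γ ∂(ME μ (Fin D → ZMod l)) +
      t ^ 2 * ∫ γ, b γ * b γ ∂(ME μ (Fin D → ZMod l)) =
      ∫ γ, (a γ * a γ + 2 * t * (a γ * b γ)) + t ^ 2 * (b γ * b γ)
        ∂(ME μ (Fin D → ZMod l)) := by
    have c1 : Continuous fun γ => a γ * a γ := ha.mul ha
    have c2 : Continuous fun γ => 2 * t * (a γ * b γ) := continuous_const.mul (ha.mul hb)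
    have c3 : Continuous fun γ => t ^ 2 * (b γ * b γ) := continuous_const.mul (hb.mul hb)
    have c4 : Continuous fun γ => a γ * a γ + 2 * t * (a γ * b γ) := c1.add c2
    rw [integral_add (int_G μ c4) (int_G μ c3), integral_add (int_G μ c1) (int_G μ c2),
      integral_const_mul, integral_const_mul]
  rw [h1]
  refine integral_nonneg fun γ => ?_
  show 0 ≤ (a γ * a γ + 2 * t * (a γ * b γ)) + t ^ 2 * (b γ * b γ)
  have : (a γ * a γ + 2 * t * (a γ * b γ)) + t ^ 2 * (b γ * b γ) = (a γ + t * b γ) ^ 2 := by ring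
  rw [this]; exact sq_nonneg _

/-- convexity of the kinetic energy, pointwise -/
lemma D_wA_sq (κ : ℝ) (U : Ed D l → G) (j : Ed D l × Fin n) :
    L.ev U (L.Dv j (wA μ L D l κ) * L.Dv j (wA μ L D l κ)) ≤
      ∫ γ, L.ev U (L.Dv j (gs γ (ps L D l κ)) * L.Dv j (gs γ (ps L D l κ)))
        ∂(ME μ (Fin D → ZMod l)) := by
  set ψ := ps L D l κ with hψ
  set w := wA μ L D l κ with hw
  set p := pA μ L D l κ with hp
  have h1 : L.Dv j p = (2 : ℝ) • (w * L.Dv j w) := by
    rw [hp, ← wA_sq, Derivation.leibniz, smul_eq_mul, two_smul]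
  have h2 : L.ev U (L.Dv j p) = 2 * ∫ γ, L.ev (gt γ U) ψ * L.ev U (L.Dv j (gs γ ψ))
      ∂(ME μ (Fin D → ZMod l)) := by
    rw [hp, D_pA, cI_apply, ← integral_const_mul]
    refine integral_congr_ae (Filter.Eventually.of_forall fun γ => ?_)
    show dPh L D l κ U j γ = _
    rw [dPh_apply, map_mul, Derivation.leibniz, map_add, smul_eq_mul, map_mul]
    have : L.ev U (gs γ ψ) = L.ev (gt γ U) ψ := rfl
    rw [← hψ, this]; ring
  have h3 := cs_G μ (a_cont ψ U) (b_cont ψ U j)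
  have h4 : ∫ γ, ψ.1 (gt γ U) * ψ.1 (gt γ U) ∂(ME μ (Fin D → ZMod l)) = L.ev U p := by
    rw [hp]
    show _ = ∫ γ, L.ev (gt γ U) (ps L D l κ * ps L D l κ) ∂(ME μ (Fin D → ZMod l))
    rfl
  rw [h4] at h3
  have hp0 : 0 < L.ev U p := pA_pos μ κ U
  have hww : L.ev U w * L.ev U w = L.ev U p := by
    rw [← map_mul, hw, wA_sq]
  have h5 : L.ev U (L.Dv j p) = 2 * (L.ev U w * L.ev U (L.Dv j w)) := by
    rw [h1, map_smul, map_mul, smul_eq_mul]
  have h6 : L.ev U w * L.ev U (L.Dv j w) = ∫ γ, L.ev (gt γ U) ψ * L.ev U (L.Dv j (gs γ ψ))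
      ∂(ME μ (Fin D → ZMod l)) := by linarith
  have h7 : (L.ev U w * L.ev U (L.Dv j w)) ^ 2 ≤ L.ev U p *
      ∫ γ, L.ev U (L.Dv j (gs γ ψ)) * L.ev U (L.Dv j (gs γ ψ)) ∂(ME μ (Fin D → ZMod l)) := by
    rw [h6]; exact h3
  have h8 : (L.ev U w * L.ev U (L.Dv j w)) ^ 2 =
      L.ev U p * L.ev U (L.Dv j w * L.Dv j w) := by
    rw [← hww, map_mul]; ring
  rw [h8] at h7
  have h9 := le_of_mul_le_mul_left h7 hp0
  simpa only [map_mul] using h9

lemma Gam_wA (κ : ℝ) (U : Ed D l → G) :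
    L.ev U (Gam L.Dv (wA μ L D l κ) (wA μ L D l κ)) ≤
      ∫ γ, (Gam L.Dv (ps L D l κ) (ps L D l κ)).1 (gt γ U) ∂(ME μ (Fin D → ZMod l)) := by
  have h1 : ∀ γ : Gg G D l, (Gam L.Dv (ps L D l κ) (ps L D l κ)).1 (gt γ U) =
      ∑ j, L.ev U (L.Dv j (gs γ (ps L D l κ)) * L.Dv j (gs γ (ps L D l κ))) := by
    intro γ
    have h2 : (Gam L.Dv (ps L D l κ) (ps L D l κ)).1 (gt γ U) =
      L.ev U (gs γ (Gam L.Dv (ps L D l κ) (ps L D l κ))) := rfl
    rw [h2, ← Gam_gs]
    unfold Gam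
    rw [map_sum]
  simp only [h1]
  rw [integral_finsetSum _ fun j _ => ?_]
  · unfold Gam
    rw [map_sum]
    exact Finset.sum_le_sum fun j _ => D_wA_sq μ κ U j
  · have h3 : Continuous fun γ : Gg G D l => L.ev U (L.Dv j (gs γ (ps L D l κ))) *
        L.ev U (L.Dv j (gs γ (ps L D l κ))) :=
      (b_cont (ps L D l κ) U j).mul (b_cont (ps L D l κ) U j)
    refine int_G μ ?_
    simpa only [map_mul] using h3

lemma I_Gam_wA [μ.IsMulLeftInvariant] [μ.IsMulRightInvariant] (κ : ℝ) :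
    L.I μ (Gam L.Dv (wA μ L D l κ) (wA μ L D l κ)) ≤
      L.I μ (Gam L.Dv (ps L D l κ) (ps L D l κ)) := by
  rw [← fub μ (Gam L.Dv (ps L D l κ) (ps L D l κ)), I_apply]
  have hint : Integrable (Function.uncurry fun (U : Ed D l → G) (γ : Gg G D l) =>
      (Gam L.Dv (ps L D l κ) (ps L D l κ)).1 (gt γ U))
      ((ME μ (Ed D l)).prod (ME μ (Fin D → ZMod l))) :=
    (((Sm_cont _).comp gt_cont).comp continuous_swap).integrable_of_hasCompactSupport
      (HasCompactSupport.of_compactSpace _)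
  exact integral_mono (integrable_cont μ (Sm_cont _)) hint.integral_prod_left
    fun U => Gam_wA μ κ U

lemma tr_X (a : Fin n) : (trace (L.X a)).re = 0 := by
  have h1 : trace (L.X a) = -star (trace (L.X a)) := by
    rw [← trace_conjTranspose, skew (L := L) a, trace_neg, neg_neg]
  have h2 := congrArg Complex.re h1
  rw [Complex.neg_re] at h2
  have h3 : (star (trace (L.X a))).re = (trace (L.X a)).re := by simp
  rw [h3] at h2
  linarith

/-- Bessel's inequality -/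
lemma bes (v : Mat N) : ∑ a, ip (L.X a) v ^ 2 ≤ ip v v := by
  set s : Mat N := ∑ a, ip (L.X a) v • L.X a with hs
  have hv : ip v s = ∑ a, ip (L.X a) v ^ 2 := by
    rw [hs, map_sum]
    exact Finset.sum_congr rfl fun a _ => by rw [map_smul, smul_eq_mul, ip_comm v, sq]
  have hX : ∀ a, ip (L.X a) s = ip (L.X a) v := by
    intro a
    rw [hs, map_sum, Finset.sum_eq_single a]
    · rw [map_smul, smul_eq_mul, ip_X, if_pos rfl, mul_one]
    · intro b _ hb
      rw [map_smul, smul_eq_mul, ip_X, if_neg hb.symm, mul_zero]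
    · intro h; exact absurd (Finset.mem_univ _) h
  have hss : ip s s = ∑ a, ip (L.X a) v ^ 2 := by
    have h1 : ip s s = ∑ a, ip (L.X a) v * ip s (L.X a) := by
      conv_lhs => rw [hs]
      rw [map_sum]
      exact Finset.sum_congr rfl fun a _ => by rw [map_smul, smul_eq_mul]
    rw [h1]
    exact Finset.sum_congr rfl fun a _ => by rw [ip_comm s, hX, sq]
  have h2 := ip_self_nonneg (v - s)
  have h3 : ip (v - s) (v - s) = ip v v - 2 * ip v s + ip s s := by
    rw [map_sub, ip_comm (v - s) v, ip_comm (v - s) s, map_sub, map_sub, ip_comm s v]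
    ring
  rw [h3, hv, hss] at h2
  linarith

lemma grad_we (g : G) : ∑ a, ip 1 (L.X a * L.rho g) ^ 2 ≤ 2 * we L g := by
  have h1 : ∀ a, ip 1 (L.X a * L.rho g) ^ 2 = ip (L.X a) (1 - L.rho g) ^ 2 := by
    intro a
    have h2 : ip (L.X a) (1 - L.rho g) = ip 1 (L.X a * L.rho g) := by
      rw [ip_apply, ip_apply, skew (L := L) a, conjTranspose_one, one_mul, mul_sub, mul_one,
        trace_sub, Complex.sub_re, neg_mul, trace_neg, trace_neg, Complex.neg_re,
        Complex.neg_re, tr_X]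
      ring
    rw [h2]
  rw [Finset.sum_congr rfl fun a _ => h1 a]
  refine (bes _).trans (le_of_eq ?_)
  rw [we_ip]; ring

variable [μ.IsMulLeftInvariant]

/-- the kinetic energy of the product state -/
lemma kin_ps {κ ε : ℝ} (hκ : ∫ g, we L g * Real.exp (-(2 * κ) * we L g) ∂μ ≤
      ε * ∫ g, Real.exp (-(2 * κ) * we L g) ∂μ) :
    L.I μ (Gam L.Dv (ps L D l κ) (ps L D l κ)) ≤
      (l ^ D * D) * (2 * κ ^ 2 * ε) * L.I μ (ps L D l κ * ps L D l κ) := by
  have hW : ∀ e, L.I μ (W1 L e * (ps L D l κ * ps L D l κ)) ≤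
      ε * L.I μ (ps L D l κ * ps L D l κ) := fun e => I_W1_le (L := L) μ hκ e
  have h1 : L.I μ (Gam L.Dv (ps L D l κ) (ps L D l κ)) ≤
      L.I μ (∑ e : Ed D l, (2 * κ ^ 2) • (W1 L e * (ps L D l κ * ps L D l κ))) := by
    refine I_mono μ fun U => ?_
    unfold Gam
    rw [map_sum, map_sum, Fintype.sum_prod_type]
    refine Finset.sum_le_sum fun e _ => ?_
    rw [map_smul, map_mul, W1_apply, smul_eq_mul]
    have h2 : ∀ a : Fin n, L.ev U (L.Dv (e, a) (ps L D l κ) * L.Dv (e, a) (ps L D l κ)) =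
        κ ^ 2 * L.ev U (ps L D l κ * ps L D l κ) * ip 1 (L.X a * L.rho (U e)) ^ 2 := by
      intro a
      unfold ps
      rw [Dv_expS, map_mul, map_mul, map_mul, Dv_tex]
      ring
    rw [Finset.sum_congr rfl fun a _ => h2 a, ← Finset.mul_sum]
    have h3 := grad_we (L := L) (U e)
    have h4 : 0 ≤ κ ^ 2 * L.ev U (ps L D l κ * ps L D l κ) := by
      rw [map_mul]; exact mul_nonneg (sq_nonneg _) (mul_self_nonneg _)
    refine (mul_le_mul_of_nonneg_left h3 h4).trans (le_of_eq ?_)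
    ring
  refine h1.trans ?_
  rw [map_sum]
  have h5 : ∀ e : Ed D l, L.I μ ((2 * κ ^ 2) • (W1 L e * (ps L D l κ * ps L D l κ))) ≤
      2 * κ ^ 2 * (ε * L.I μ (ps L D l κ * ps L D l κ)) := by
    intro e
    rw [map_smul, smul_eq_mul]
    exact mul_le_mul_of_nonneg_left (hW e) (by positivity)
  refine (Finset.sum_le_sum fun e _ => h5 e).trans (le_of_eq ?_)
  rw [Finset.sum_const, Finset.card_univ, nsmul_eq_mul, Fintype.card_prod, Fintype.card_fun,
    Fintype.card_fin, ZMod.card]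
  push_cast
  ring

/-- Upper bound of the vacuum energy, uniform in the coupling. -/
theorem vac2 (L : LD G N n) [μ.IsMulRightInvariant] {g E0 : ℝ} (hg : 0 < g)
    (hE : ∀ u : Sm L (Ed D l), Inv u → E0 * L.I μ (u * u) ≤
        g ^ 2 / 2 * L.I μ (Gam L.Dv u u) + 1 / g ^ 2 * L.I μ (VT L D l * (u * u))) :
    E0 ≤ l ^ D * (dbc N * (D + 16 * D ^ 2)) := by
  set κ : ℝ := 1 / g ^ 2 with hκ
  have hκ0 : 0 < κ := by positivity
  have h1 := hE (wA μ L D l κ) (wA_inv μ κ)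
  have hV : Inv (VT L D l) := fun γ => gs_VT γ
  have h2 : L.I μ (wA μ L D l κ * wA μ L D l κ) = L.I μ (ps L D l κ * ps L D l κ) := by
    rw [wA_sq]
    have := I_pA μ κ (Inv.one (L := L) (D := D) (l := l))
    simpa only [one_mul] using this
  have h3 : L.I μ (VT L D l * (wA μ L D l κ * wA μ L D l κ)) =
      L.I μ (VT L D l * (ps L D l κ * ps L D l κ)) := by
    rw [wA_sq]; exact I_pA μ κ hV
  rw [h2, h3] at h1
  have hm := m1_bound (L := L) μ hκ0
  have hε : 0 ≤ (dbc N : ℝ) / κ := by positivity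
  have h4 := I_Gam_wA (L := L) (D := D) (l := l) μ κ
  have h5 := kin_ps (L := L) (D := D) (l := l) μ hm
  have h6 := pot_texp (L := L) (D := D) (l := l) μ hε hm
  have h7 : 0 < L.I μ (ps L D l κ * ps L D l κ) := texp_pos (L := L) (E := Ed D l) μ κ
  have h8 := mul_le_mul_of_nonneg_left (h4.trans h5) (show (0 : ℝ) ≤ g ^ 2 / 2 by positivity)
  have h9 := mul_le_mul_of_nonneg_left h6 (show (0 : ℝ) ≤ 1 / g ^ 2 by positivity)
  have h10 : E0 * L.I μ (ps L D l κ * ps L D l κ) ≤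
      (l ^ D * (dbc N * (D + 16 * D ^ 2))) * L.I μ (ps L D l κ * ps L D l κ) := by
    refine h1.trans ((add_le_add h8 h9).trans (le_of_eq ?_))
    show g ^ 2 / 2 * (_ * L.I μ (ps L D l κ * ps L D l κ)) + 1 / g ^ 2 *
      (_ * L.I μ (ps L D l κ * ps L D l κ)) = _
    rw [hκ]
    field_simp
  exact le_of_mul_le_mul_right h10 h7

end

end Pool.Agent.Y13.YM
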