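import Mathlib
import Pool.Agent.Y13.YM.Low2
import Pool.Agent.Y13.YM.Up
import Pool.Agent.Y13.YM.Vac2

/-!
# The static potential at weak coupling: upper bound
-/

open MeasureTheory Matrix
open scoped Matrix.Norms.Frobenius ContDiff

namespace Pool.Agent.Y13.YM

open Pool.Agent.H906R3.YM

set_option linter.unusedSectionVars false
set_option maxHeartbeats 400000

noncomputable section

lemma Hm_le {R : ℕ} (hR : 1 ≤ R) : Hm R ≤ 2 * (1 + Real.log R) := by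
  have h1 := harmonic_le_one_add_log R
  have h2 : Hm R = 2 * (harmonic R : ℝ) := by
    unfold Hm harmonic
    push_cast
    rw [Finset.mul_sum]
    exact Finset.sum_congr rfl fun t _ => by rw [div_eq_mul_inv]
  rw [h2]
  linarith

/-- the coupling of the string tension -/
def sg (g : ℝ) : ℝ := g * Real.sqrt (1 + Real.log (1 / g))

lemma log_g {g : ℝ} (hg : 0 < g) (hg1 : g ≤ 1) : 0 ≤ Real.log (1 / g) :=
  Real.log_nonneg (by rw [le_div_iff₀ hg]; linarith)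

lemma sg_pos {g : ℝ} (hg : 0 < g) (hg1 : g ≤ 1) : 0 < sg g := by
  have := log_g hg hg1
  unfold sg
  exact mul_pos hg (Real.sqrt_pos.2 (by linarith))

lemma sg_ge {g : ℝ} (hg : 0 < g) (hg1 : g ≤ 1) : g ≤ sg g := by
  have h1 := log_g hg hg1
  have h2 : 1 ≤ Real.sqrt (1 + Real.log (1 / g)) := by
    rw [Real.one_le_sqrt]; linarith
  unfold sg
  nlinarith

lemma sg_sq {g : ℝ} (hg : 0 < g) (hg1 : g ≤ 1) :
    sg g ^ 2 = g ^ 2 * (1 + Real.log (1 / g)) := by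
  have h1 := log_g hg hg1
  unfold sg
  rw [mul_pow, Real.sq_sqrt (by linarith)]

lemma sg_le {g : ℝ} (hg : 0 < g) (hg1 : g ≤ 1) : sg g ≤ 1 := by
  have h1 := sg_sq hg hg1
  have h2 : Real.log (1 / g) ≤ 1 / g - 1 := Real.log_le_sub_one_of_pos (by positivity)
  have h3 : g ^ 2 * (1 + Real.log (1 / g)) ≤ g := by
    have h4 : g ^ 2 * (1 + Real.log (1 / g)) ≤ g ^ 2 * (1 / g) :=
      mul_le_mul_of_nonneg_left (by linarith) (by positivity)
    have h5 : g ^ 2 * (1 / g) = g := by field_simp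
    linarith
  have h4 := sg_pos hg hg1
  nlinarith

/-- the radius of the string -/
lemma radius (g : ℝ) (hg : 0 < g) (hg1 : g ≤ 1) (l : ℕ) (hl : 1 ≤ l) :
    ∃ R : ℕ, 1 ≤ R ∧ R ≤ l ∧ 1 / (R : ℝ) ^ 2 ≤ 1 / (l : ℝ) ^ 2 + sg g ∧
      Hm R * (R : ℝ) ^ 2 * g ^ 2 ≤ 16 * sg g := by
  have hs := sg_pos hg hg1
  have hs1 := sg_le hg hg1
  have hsg := sg_ge hg hg1
  have hlog := log_g hg hg1
  set s := sg g with hsdef
  set ρ := Real.sqrt (1 / s) with hρ
  have hρ2 : ρ ^ 2 = 1 / s := Real.sq_sqrt (by positivity)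
  have hρ1 : 1 ≤ ρ := by
    rw [hρ, Real.one_le_sqrt, le_div_iff₀ hs]; linarith
  set R0 := ⌈ρ⌉₊ with hR0
  have h1 : ρ ≤ R0 := Nat.le_ceil ρ
  have h2 : (R0 : ℝ) < ρ + 1 := Nat.ceil_lt_add_one (by linarith)
  have hR01 : 1 ≤ R0 := by
    have : (0 : ℝ) < R0 := by linarith
    exact_mod_cast this
  have hR1 : 1 ≤ min l R0 := le_min hl hR01
  refine ⟨min l R0, hR1, min_le_left _ _, ?_, ?_⟩
  · rcases le_total l R0 with h | h
    · rw [min_eq_left h]; linarith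
    · rw [min_eq_right h]
      have h3 : 1 / (R0 : ℝ) ^ 2 ≤ s := by
        have h4 : ρ ^ 2 ≤ (R0 : ℝ) ^ 2 := pow_le_pow_left₀ (by linarith) h1 2
        rw [hρ2] at h4
        rw [div_le_iff₀ (by positivity)]
        rw [div_le_iff₀ hs] at h4
        linarith
      have h5 : (0 : ℝ) ≤ 1 / (l : ℝ) ^ 2 := by positivity
      linarith
  · have hRle : ((min l R0 : ℕ) : ℝ) ≤ 2 * ρ := by
      have h3 : ((min l R0 : ℕ) : ℝ) ≤ R0 := by exact_mod_cast min_le_right _ _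
      linarith
    have hRpos : (0 : ℝ) < ((min l R0 : ℕ) : ℝ) := by exact_mod_cast hR1
    have h4 : ((min l R0 : ℕ) : ℝ) ^ 2 ≤ 4 / s := by
      have := pow_le_pow_left₀ hRpos.le hRle 2
      rw [mul_pow, hρ2] at this
      refine this.trans (le_of_eq ?_)
      ring
    have h5 : Real.log ((min l R0 : ℕ) : ℝ) ≤ 1 + Real.log (1 / g) := by
      have h6 := Real.log_le_log hRpos hRle
      rw [Real.log_mul (by norm_num) (by linarith)] at h6
      have h7 : Real.log ρ ≤ Real.log (1 / g) := by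
        refine Real.log_le_log (by linarith) ?_
        have h8 : ρ ≤ ρ ^ 2 := by nlinarith
        rw [hρ2] at h8
        refine h8.trans ?_
        exact div_le_div_of_nonneg_left zero_le_one hg hsg
      have h9 : Real.log 2 ≤ 1 := by
        have := Real.log_le_sub_one_of_pos (show (0 : ℝ) < 2 by norm_num)
        linarith
      linarith
    have h6 := Hm_le hR1
    have h7 : Hm (min l R0) ≤ 4 * (1 + Real.log (1 / g)) := by linarith
    have h8 : Hm (min l R0) * ((min l R0 : ℕ) : ℝ) ^ 2 ≤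
        4 * (1 + Real.log (1 / g)) * (4 / s) :=
      mul_le_mul h7 h4 (by positivity) (by positivity)
    have h9 := mul_le_mul_of_nonneg_right h8 (show 0 ≤ g ^ 2 by positivity)
    refine h9.trans (le_of_eq ?_)
    have h10 := sg_sq hg hg1
    rw [← hsdef] at h10
    have h11 : 4 * (1 + Real.log (1 / g)) * (4 / s) * g ^ 2 =
        16 * (g ^ 2 * (1 + Real.log (1 / g))) / s := by ring
    rw [h11, ← h10]
    field_simp

variable {G : Type*} [Group G] [TopologicalSpace G] {N n k : ℕ} {L : LD G N n}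
  [IsTopologicalGroup G] [CompactSpace G] [SecondCountableTopology G]
  [MeasurableSpace G] [BorelSpace G] (μ : Measure G) [IsProbabilityMeasure μ]
  [μ.IsMulLeftInvariant] [μ.IsMulRightInvariant]

lemma len_le {l : ℕ} [NeZero l] (x y : Fin 3 → ZMod l) : len (dm x y) ≤ 3 * l := by
  unfold len
  have h1 : ∀ j ∈ (Finset.univ : Finset (Fin 3)), ((dm x y j).natAbs : ℝ) ≤ l := fun j _ => by
    exact_mod_cast (dm_lt x y j).le
  refine (Finset.sum_le_sum h1).trans (le_of_eq ?_)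
  simp

lemma len_nonneg (m : Fin 3 → ℤ) : 0 ≤ len m := Finset.sum_nonneg fun _ _ => Nat.cast_nonneg _

/-- The upper bound of the static potential. -/
theorem upper (P : RepD L k) (hk : 0 < k) : ∃ C : ℝ, 0 < C ∧ ∀ (l : ℕ) [NeZero l] (g E0 : ℝ),
    0 < g → g ≤ 1 →
    (∀ u : Sm L (Ed 3 l), Inv u → E0 * L.I μ (u * u) ≤ en μ g u) →
    (∀ δ : ℝ, 0 < δ → ∃ w : Sm L (Ed 3 l), Inv w ∧ L.I μ (w * w) = 1 ∧ en μ g w ≤ E0 + δ) →
    ∀ (x y : Fin 3 → ZMod l) (δ : ℝ), 0 < δ → ∃ (F : (Ed 3 l → G) → Mat k) (hF : SmK L F),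
      (∀ γ U, F (gt γ U) = P.rep (γ x) * F U * (P.rep (γ y))ᴴ) ∧
      ∑ c, L.I μ (cdm hF c * cdm hF c) = 1 ∧
      ∑ c, en μ g (cdm hF c) ≤ E0 + C * g ^ 2 * (1 + sg g * len (dm x y)) + δ := by
  obtain ⟨κ, hκ0, hκ⟩ := P.lip
  obtain ⟨YY, hYY⟩ : ∃ YY : ℝ, YY = ∑ a, ‖P.Y a‖ ^ 2 := ⟨_, rfl⟩
  have hYY0 : 0 ≤ YY := by rw [hYY]; exact Finset.sum_nonneg fun _ _ => sq_nonneg _
  obtain ⟨c0, hc0⟩ : ∃ c0 : ℝ, c0 = (1 + 6 * Real.sqrt k) ^ 2 := ⟨_, rfl⟩
  have hc00 : 0 ≤ c0 := by rw [hc0]; exact sq_nonneg _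
  obtain ⟨K, hK⟩ : ∃ K : ℝ, K = dbc N * (3 + 16 * 3 ^ 2) := ⟨_, rfl⟩
  have hK0 : 0 ≤ K := by rw [hK]; positivity
  have hkr : (0 : ℝ) < k := by exact_mod_cast hk
  obtain ⟨A, hA⟩ : ∃ A : ℝ, A = 15 * YY * (96 * c0 + 1040 * κ * (K + 1)) := ⟨_, rfl⟩
  have hA0 : 0 ≤ A := by rw [hA]; positivity
  refine ⟨A / (2 * k) + 1, by positivity, ?_⟩
  intro l _ g E0 hg hg1 hE hmin x y δ hδ
  have hl : 1 ≤ l := Nat.pos_of_ne_zero (NeZero.ne l)
  have hlr : (1 : ℝ) ≤ l := by exact_mod_cast hl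
  obtain ⟨R, hR1, hRl, hR2, hR3⟩ := radius g hg hg1 l hl
  have hs := sg_pos hg hg1
  set s := sg g with hsdef
  obtain ⟨w, hw, hw1, hwE⟩ := hmin (min δ 1) (lt_min hδ one_pos)
  have hE0 : E0 ≤ (l : ℝ) ^ 3 * K := by
    have := vac2 (D := 3) (l := l) μ L hg (E0 := E0) hE
    rw [hK]
    push_cast at this
    exact this
  have hl3 : (1 : ℝ) ≤ (l : ℝ) ^ 3 := one_le_pow₀ hlr
  have hV : L.I μ (VT L 3 l * (w * w)) ≤ g ^ 2 * ((l : ℝ) ^ 3 * (K + 1)) := by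
    have h1 : 1 / g ^ 2 * L.I μ (VT L 3 l * (w * w)) ≤ en μ g w := by
      unfold en
      have h2 : 0 ≤ L.I μ (Gam L.Dv w w) := by
        unfold Gam
        rw [map_sum]
        exact Finset.sum_nonneg fun j _ => I_sq_nonneg μ _
      have : 0 ≤ g ^ 2 / 2 * L.I μ (Gam L.Dv w w) := by positivity
      linarith
    have h2 : 1 / g ^ 2 * L.I μ (VT L 3 l * (w * w)) ≤ (l : ℝ) ^ 3 * (K + 1) := by
      have := min_le_right δ 1
      linarith
    rw [one_div, ← div_eq_inv_mul, div_le_iff₀ (by positivity)] at h2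
    linarith
  have hm := fun j => dm_lt x y j
  have hlen0 := len_nonneg (dm x y)
  have hlenl := len_le x y
  obtain ⟨sh, hsh⟩ := trial_pos μ P hκ0 hκ x hR1 hRl hm w
  have hlen2 : len (dm x y) / (R : ℝ) ^ 2 ≤ 3 + s * len (dm x y) := by
    have h1 := mul_le_mul_of_nonneg_left hR2 hlen0
    have h2 : len (dm x y) * (1 / (l : ℝ) ^ 2) ≤ 3 := by
      rw [mul_one_div, div_le_iff₀ (by positivity)]
      nlinarith
    have h3 : len (dm x y) / (R : ℝ) ^ 2 = len (dm x y) * (1 / (R : ℝ) ^ 2) := by ring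
    rw [h3]
    have h4 : len (dm x y) * (1 / (l : ℝ) ^ 2 + s) =
        len (dm x y) * (1 / (l : ℝ) ^ 2) + s * len (dm x y) := by ring
    linarith
  have hQ : L.I μ (GF P x R (dm x y) * (tS L sh w * tS L sh w)) ≤
      A * (1 + s * len (dm x y)) := by
    have hl3' : (0 : ℝ) < (l : ℝ) ^ 3 := by linarith
    refine le_of_mul_le_mul_left (hsh.trans ?_) hl3'
    rw [hw1, ← hYY, ← hc0]
    have hHm0 : 0 ≤ Hm R := by linarith [Hm_ge hR1]
    have b1 : 16 * c0 * (3 + len (dm x y) / (R : ℝ) ^ 2) * (l : ℝ) ^ 3 * 1 ≤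
        16 * c0 * (6 + s * len (dm x y)) * (l : ℝ) ^ 3 := by
      rw [mul_one]
      refine mul_le_mul_of_nonneg_right ?_ hl3'.le
      exact mul_le_mul_of_nonneg_left (by linarith) (by positivity)
    have b2 : 65 * Hm R * (len (dm x y) * (R : ℝ) ^ 2 * κ) * L.I μ (VT L 3 l * (w * w)) ≤
        65 * Hm R * (len (dm x y) * (R : ℝ) ^ 2 * κ) * (g ^ 2 * ((l : ℝ) ^ 3 * (K + 1))) :=
      mul_le_mul_of_nonneg_left hV (by positivity)
    have b3 : 65 * Hm R * (len (dm x y) * (R : ℝ) ^ 2 * κ) * (g ^ 2 * ((l : ℝ) ^ 3 * (K + 1))) =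
        (65 * (len (dm x y) * κ) * ((l : ℝ) ^ 3 * (K + 1))) * (Hm R * (R : ℝ) ^ 2 * g ^ 2) := by
      ring
    have b4 : (65 * (len (dm x y) * κ) * ((l : ℝ) ^ 3 * (K + 1))) *
        (Hm R * (R : ℝ) ^ 2 * g ^ 2) ≤
        (65 * (len (dm x y) * κ) * ((l : ℝ) ^ 3 * (K + 1))) * (16 * s) :=
      mul_le_mul_of_nonneg_left hR3 (by positivity)
    have b5 : 16 * c0 * (3 + len (dm x y) / (R : ℝ) ^ 2) * (l : ℝ) ^ 3 * 1 +
        65 * Hm R * (len (dm x y) * (R : ℝ) ^ 2 * κ) * L.I μ (VT L 3 l * (w * w)) ≤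
        (l : ℝ) ^ 3 * ((96 * c0 + 1040 * κ * (K + 1)) * (1 + s * len (dm x y))) := by
      have b6 : (l : ℝ) ^ 3 * ((96 * c0 + 1040 * κ * (K + 1)) * (1 + s * len (dm x y))) =
          16 * c0 * (6 + s * len (dm x y)) * (l : ℝ) ^ 3 +
          (65 * (len (dm x y) * κ) * ((l : ℝ) ^ 3 * (K + 1))) * (16 * s) +
          (l : ℝ) ^ 3 * (80 * c0 * (s * len (dm x y)) + 1040 * κ * (K + 1)) := by ring
      have b7 : 0 ≤ (l : ℝ) ^ 3 * (80 * c0 * (s * len (dm x y)) + 1040 * κ * (K + 1)) := by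
        positivity
      rw [b6]
      linarith
    have b8 := mul_le_mul_of_nonneg_left b5 (show 0 ≤ 15 * YY by positivity)
    refine b8.trans (le_of_eq ?_)
    rw [hA]; ring
  obtain ⟨F, hF, h1, h2, h3⟩ := assemble μ P hk x hR1 (dm x y) (g := g) (A := E0 + min δ 1)
    (Q := A * (1 + s * len (dm x y))) hw hw1 hwE ⟨sh, hQ⟩
  refine ⟨F, hF, ?_, h2, h3.trans ?_⟩
  · intro γ U
    rw [h1, ep_dm]
  · have h4 := min_le_left δ 1
    have h5 : g ^ 2 / (2 * k) * (A * (1 + s * len (dm x y))) =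
        A / (2 * k) * g ^ 2 * (1 + s * len (dm x y)) := by ring
    have h6 : 0 ≤ g ^ 2 * (1 + s * len (dm x y)) := by positivity
    have h7 : (A / (2 * k) + 1) * g ^ 2 * (1 + s * len (dm x y)) =
        A / (2 * k) * g ^ 2 * (1 + s * len (dm x y)) + g ^ 2 * (1 + s * len (dm x y)) := by ring
    rw [h5, h7]
    linarith

end

end Pool.Agent.Y13.YM
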