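import Mathlib
import Pool.Agent.Y13.YM.Main
import Pool.Agent.Y13.YM.Ext

/-!
# The upper bound for all couplings
-/

open MeasureTheory Matrix
open scoped Matrix.Norms.Frobenius ContDiff

namespace Pool.Agent.Y13.YM

open Pool.Agent.H906R3.YM

set_option linter.unusedSectionVars false
set_option maxHeartbeats 400000

noncomputable section

lemma eta_one {k l : ℕ} (u : Ed 3 l → Mat k) (e : Fin 3) (x : Fin 3 → ZMod l) (i : ℕ)
    (z : Fin 1 × Fin 1) : eta u e x 1 i z = 0 := by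
  have h1 : ((z.1 : Fin 1) : ℕ) = 0 := by omega
  have h2 : ((z.2 : Fin 1) : ℕ) = 0 := by omega
  unfold eta Cc vv VV
  rw [h1, h2]
  simp [pc]

lemma NS_one {k l : ℕ} (u : Ed 3 l → Mat k) (x : Fin 3 → ZMod l) (m : Fin 3 → ℤ) :
    NS u x 1 m = 0 := by
  unfold NS SS
  refine Finset.sum_eq_zero fun j _ => Finset.sum_eq_zero fun i _ =>
    Finset.sum_eq_zero fun z _ => ?_
  rw [eta_one]; ring

variable {G : Type*} [Group G] [TopologicalSpace G] {N n k : ℕ} {L : LD G N n}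
  [IsTopologicalGroup G] [CompactSpace G] [SecondCountableTopology G]
  [MeasurableSpace G] [BorelSpace G] (μ : Measure G) [IsProbabilityMeasure μ]
  [μ.IsMulLeftInvariant] [μ.IsMulRightInvariant]

/-- the thin string -/
theorem upper_thin (P : RepD L k) (hk : 0 < k) : ∃ C : ℝ, 0 < C ∧ ∀ (l : ℕ) [NeZero l]
    (g E0 : ℝ),
    (∀ δ : ℝ, 0 < δ → ∃ w : Sm L (Ed 3 l), Inv w ∧ L.I μ (w * w) = 1 ∧ en μ g w ≤ E0 + δ) →
    ∀ (x y : Fin 3 → ZMod l) (δ : ℝ), 0 < δ → ∃ (F : (Ed 3 l → G) → Mat k) (hF : SmK L F),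
      (∀ γ U, F (gt γ U) = P.rep (γ x) * F U * (P.rep (γ y))ᴴ) ∧
      ∑ c, L.I μ (cdm hF c * cdm hF c) = 1 ∧
      ∑ c, en μ g (cdm hF c) ≤ E0 + C * g ^ 2 * (1 + len (dm x y)) + δ := by
  obtain ⟨YY, hYY⟩ : ∃ YY : ℝ, YY = ∑ a, ‖P.Y a‖ ^ 2 := ⟨_, rfl⟩
  have hYY0 : 0 ≤ YY := by rw [hYY]; exact Finset.sum_nonneg fun _ _ => sq_nonneg _
  obtain ⟨c0, hc0⟩ : ∃ c0 : ℝ, c0 = (1 + 6 * Real.sqrt k) ^ 2 := ⟨_, rfl⟩
  have hc00 : 0 ≤ c0 := by rw [hc0]; exact sq_nonneg _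
  have hkr : (0 : ℝ) < k := by exact_mod_cast hk
  obtain ⟨A, hA⟩ : ∃ A : ℝ, A = 15 * YY * (48 * c0) := ⟨_, rfl⟩
  have hA0 : 0 ≤ A := by rw [hA]; positivity
  refine ⟨A / (2 * k) + 1, by positivity, ?_⟩
  intro l _ g E0 hmin x y δ hδ
  have hl : 1 ≤ l := Nat.pos_of_ne_zero (NeZero.ne l)
  obtain ⟨w, hw, hw1, hwE⟩ := hmin δ hδ
  have hlen0 := len_nonneg (dm x y)
  have hG : ∀ U : Ed 3 l → G, L.ev U (GF P x 1 (dm x y)) ≤ A * (1 + len (dm x y)) := by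
    intro U
    refine (GF_le P x le_rfl hl (fun j => dm_lt x y j) U).trans ?_
    rw [NS_one, ← hYY, ← hc0, hA, mul_zero, zero_add]
    push_cast
    rw [one_pow, div_one]
    have h1 : 0 ≤ 15 * YY * (16 * c0) := by positivity
    nlinarith [mul_nonneg h1 hlen0]
  have hQ : ∃ s : Fin 3 → ZMod l, L.I μ (GF P x 1 (dm x y) * (tS L s w * tS L s w)) ≤
      A * (1 + len (dm x y)) := by
    refine ⟨0, ?_⟩
    have h1 : L.I μ (GF P x 1 (dm x y) * (tS L 0 w * tS L 0 w)) ≤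
        L.I μ ((A * (1 + len (dm x y))) • (tS L 0 w * tS L 0 w)) := by
      refine I_mono μ fun U => ?_
      rw [map_mul, map_smul, smul_eq_mul]
      refine mul_le_mul_of_nonneg_right (hG U) ?_
      rw [map_mul]; exact mul_self_nonneg _
    rw [map_smul, smul_eq_mul, ← map_mul, I_tS, hw1, mul_one] at h1
    rw [← map_mul]
    exact h1
  obtain ⟨F, hF, h1, h2, h3⟩ := assemble μ P hk x le_rfl (dm x y) (g := g) (A := E0 + δ)
    (Q := A * (1 + len (dm x y))) hw hw1 hwE hQ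
  refine ⟨F, hF, ?_, h2, h3.trans ?_⟩
  · intro γ U
    rw [h1, ep_dm]
  · have h5 : g ^ 2 / (2 * k) * (A * (1 + len (dm x y))) =
        A / (2 * k) * g ^ 2 * (1 + len (dm x y)) := by ring
    have h6 : 0 ≤ g ^ 2 * (1 + len (dm x y)) := by positivity
    have h7 : (A / (2 * k) + 1) * g ^ 2 * (1 + len (dm x y)) =
        A / (2 * k) * g ^ 2 * (1 + len (dm x y)) + g ^ 2 * (1 + len (dm x y)) := by ring
    rw [h5, h7]
    linarith

/-- The upper bound of the static potential, for all couplings. -/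
theorem upper_all (P : RepD L k) (hk : 0 < k) : ∃ C : ℝ, 0 < C ∧ ∀ (l : ℕ) [NeZero l]
    (g E0 : ℝ), 0 < g →
    (∀ u : Sm L (Ed 3 l), Inv u → E0 * L.I μ (u * u) ≤ en μ g u) →
    (∀ δ : ℝ, 0 < δ → ∃ w : Sm L (Ed 3 l), Inv w ∧ L.I μ (w * w) = 1 ∧ en μ g w ≤ E0 + δ) →
    ∀ (x y : Fin 3 → ZMod l) (δ : ℝ), 0 < δ → ∃ (F : (Ed 3 l → G) → Mat k) (hF : SmK L F),
      (∀ γ U, F (gt γ U) = P.rep (γ x) * F U * (P.rep (γ y))ᴴ) ∧
      ∑ c, L.I μ (cdm hF c * cdm hF c) = 1 ∧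
      ∑ c, en μ g (cdm hF c) ≤ E0 + C * g ^ 2 * (1 +
        min 1 (g * Real.sqrt (1 + max 0 (Real.log (1 / g)))) * len (dm x y)) + δ := by
  obtain ⟨C1, hC1, h1⟩ := upper μ P hk
  obtain ⟨C2, hC2, h2⟩ := upper_thin μ P hk
  refine ⟨C1 + C2, by positivity, ?_⟩
  intro l _ g E0 hg hE hmin x y δ hδ
  have hlen0 := len_nonneg (dm x y)
  rcases le_total g 1 with h | h
  · obtain ⟨F, hF, a1, a2, a3⟩ := h1 l g E0 hg h hE hmin x y δ hδ
    refine ⟨F, hF, a1, a2, a3.trans ?_⟩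
    have hlog := log_g hg h
    have hs := sg_pos hg h
    have e1 : min 1 (g * Real.sqrt (1 + max 0 (Real.log (1 / g)))) = sg g := by
      rw [max_eq_right hlog]
      exact min_eq_right (sg_le hg h)
    rw [e1]
    have e2 : 0 ≤ C2 * g ^ 2 * (1 + sg g * len (dm x y)) := by positivity
    have e3 : (C1 + C2) * g ^ 2 * (1 + sg g * len (dm x y)) =
        C1 * g ^ 2 * (1 + sg g * len (dm x y)) + C2 * g ^ 2 * (1 + sg g * len (dm x y)) := by ring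
    linarith
  · obtain ⟨F, hF, a1, a2, a3⟩ := h2 l g E0 hmin x y δ hδ
    refine ⟨F, hF, a1, a2, a3.trans ?_⟩
    have hlog : Real.log (1 / g) ≤ 0 := Real.log_nonpos (by positivity) (by
      rw [div_le_iff₀ hg]; linarith)
    have e1 : min 1 (g * Real.sqrt (1 + max 0 (Real.log (1 / g)))) = 1 := by
      rw [max_eq_left hlog, add_zero, Real.sqrt_one, mul_one]
      exact min_eq_left h
    rw [e1, one_mul]
    have e2 : 0 ≤ C1 * g ^ 2 * (1 + len (dm x y)) := by positivity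
    have e3 : (C1 + C2) * g ^ 2 * (1 + len (dm x y)) =
        C1 * g ^ 2 * (1 + len (dm x y)) + C2 * g ^ 2 * (1 + len (dm x y)) := by ring
    linarith

end

end Pool.Agent.Y13.YM
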