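import Mathlib
import Pool.Agent.H906R3.YM.Conc

/-!
# Compact groups with a faithful unitary representation
-/

open MeasureTheory Matrix
open scoped Matrix.Norms.Frobenius ContDiff

namespace Pool.Agent.Y13.YM

open Pool.Agent.H906R3.YM

set_option linter.unusedSectionVars false

noncomputable section

variable {N n : ℕ} {G : Type*} [Group G] [TopologicalSpace G]

/-- A faithful continuous unitary representation and an orthonormal basis of the Lie algebra. -/
structure FB (π : G →* Mat N) (n : ℕ) where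
  cont : Continuous π
  unit : ∀ g, π g * (π g)ᴴ = 1
  inj : Function.Injective π
  X : Fin n → Mat N
  ex : Fin n → ℝ → G
  ex_eq : ∀ a t, π (ex a t) = NormedSpace.exp (t • X a)
  orth : ∀ a b, (trace ((X a)ᴴ * X b)).re = if a = b then 1 else 0
  full : ∀ Y : Mat N, (∀ t : ℝ, ∃ g : G, π g = NormedSpace.exp (t • Y)) →
    Y ∈ Submodule.span ℝ (Set.range X)

namespace FB

variable {π : G →* Mat N} (B : FB π n)

lemma deriv_ex (a : Fin n) : HasDerivAt (fun t => π (B.ex a t)) (B.X a) 0 := by
  have h1 : (fun t => π (B.ex a t)) = fun t : ℝ => NormedSpace.exp (t • B.X a) := by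
    funext t; exact B.ex_eq a t
  rw [h1]
  have h2 := hasDerivAt_exp_smul_const (𝕂 := ℝ) (B.X a) (0 : ℝ)
  rwa [zero_smul, NormedSpace.exp_zero, one_mul] at h2

lemma ex_zero (a : Fin n) : B.ex a 0 = 1 := by
  apply B.inj
  have := B.ex_eq a 0
  rw [zero_smul, NormedSpace.exp_zero] at this
  rw [this, map_one]

include B in
lemma unit' (g : G) : (π g)ᴴ * π g = 1 := mul_eq_one_comm.1 (B.unit g)

lemma skewX (a : Fin n) : (B.X a)ᴴ = -B.X a := by
  have h1 := B.deriv_ex a
  have h2 : HasDerivAt (fun t => (π (B.ex a t))ᴴ) ((B.X a)ᴴ) 0 :=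
    (ctL N).hasFDerivAt.comp_hasDerivAt (0 : ℝ) h1
  have h3 := h1.mul h2
  have h4 : (fun t => π (B.ex a t)) * (fun t => (π (B.ex a t))ᴴ) =
      fun _ => (1 : Mat N) := by
    funext t; exact B.unit _
  rw [h4] at h3
  have h5 := h3.unique (hasDerivAt_const (0 : ℝ) (1 : Mat N))
  rw [B.ex_zero, map_one, conjTranspose_one, mul_one, one_mul] at h5
  exact eq_neg_of_add_eq_zero_right h5

lemma conj_mem (g : G) (a : Fin n) :
    π g * B.X a * (π g)ᴴ ∈ Submodule.span ℝ (Set.range B.X) := by
  refine B.full _ fun t => ⟨g * B.ex a t * g⁻¹, ?_⟩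
  have hu : IsUnit (π g) := ⟨⟨π g, (π g)ᴴ, B.unit g, B.unit' g⟩, rfl⟩
  have hinv : (π g)⁻¹ = (π g)ᴴ := Matrix.inv_eq_right_inv (B.unit g)
  have hinv' : π g⁻¹ = (π g)ᴴ := by
    have h0 : π g * π g⁻¹ = 1 := by rw [← map_mul, mul_inv_cancel, map_one]
    calc π g⁻¹ = ((π g)ᴴ * π g) * π g⁻¹ := by rw [B.unit', one_mul]
      _ = (π g)ᴴ := by rw [mul_assoc, h0, mul_one]
  have h1 := Matrix.exp_conj (π g) (t • B.X a) hu
  rw [hinv, mul_smul_comm, smul_mul_assoc] at h1
  rw [h1, map_mul, map_mul, hinv', B.ex_eq]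

lemma brk_mem (a b : Fin n) :
    B.X a * B.X b - B.X b * B.X a ∈ Submodule.span ℝ (Set.range B.X) := by
  have h1 := B.deriv_ex a
  have h2 : HasDerivAt (fun t => (π (B.ex a t))ᴴ) ((B.X a)ᴴ) 0 :=
    (ctL N).hasFDerivAt.comp_hasDerivAt (0 : ℝ) h1
  have h3 : HasDerivAt (fun t => π (B.ex a t) * B.X b * (π (B.ex a t))ᴴ)
      (B.X a * B.X b - B.X b * B.X a) 0 := by
    refine ((h1.mul_const (B.X b)).mul h2).congr_deriv ?_
    rw [B.ex_zero, map_one, conjTranspose_one, B.skewX]
    simp only [mul_one, one_mul, mul_neg]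
    rw [sub_eq_add_neg]
  exact deriv_mem (fun t => B.conj_mem (B.ex a t) b) h3

/-- the abstract data -/
def toLD : LD G N n where
  rho := π
  cont := B.cont
  unit := B.unit
  X := B.X
  ex := B.ex
  ex_add a s t := by
    apply B.inj
    rw [map_mul, B.ex_eq, B.ex_eq, B.ex_eq, add_smul]
    exact Matrix.exp_add_of_commute _ _ (((Commute.refl (B.X a)).smul_left s).smul_right t)
  deriv_ex := B.deriv_ex
  orth := B.orth
  conj_mem := B.conj_mem
  brk_mem := B.brk_mem

end FB

/-- A compact group with a faithful continuous matrix representation is second countable. -/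
lemma second_countable [CompactSpace G] {π : G → Mat N} (hc : Continuous π)
    (hi : Function.Injective π) : SecondCountableTopology G :=
  (hc.isClosedEmbedding hi).isEmbedding.secondCountableTopology

end

end Pool.Agent.Y13.YM
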